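import Mathlib
import Pool.Agent.R829.BG.Win

/-!
Evaluation of bivariate polynomials over a subfield, and a form of Bezout's theorem.
-/

set_option autoImplicit false
set_option linter.unusedSectionVars false

namespace Pool.Agent.NH29.AB

open Polynomial
open Pool.Agent.R829.BG

noncomputable section

variable {K : Type} [Field K] {L : Type} [Field L] [Algebra K L]

/-- evaluation of a bivariate polynomial over `K` at a point of `L ^ 2` -/
def ev (x y : L) : K[X][X] →+* L :=
  (evalEvalRingHom x y).comp (mapRingHom (mapRingHom (algebraMap K L)))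

lemma ev_C (x y : L) (f : K[X]) : ev x y (C f : K[X][X]) = aeval x f := by
  simp [ev, aeval_def, eval_map]

lemma ev_X (x y : L) : ev x y (X : K[X][X]) = y := by
  simp [ev]

lemma ev_evalEval (x y : L) (G : K[X][X]) :
    ev x y G = (G.map (mapRingHom (algebraMap K L))).evalEval x y := rfl

lemma ev_sum (x y : L) (G : K[X][X]) :
    ev x y G = G.sum fun n f => aeval x f * y ^ n := by
  conv_lhs => rw [← G.sum_C_mul_X_pow_eq]
  rw [Polynomial.sum, Polynomial.sum, map_sum]
  refine Finset.sum_congr rfl fun n _ => ?_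
  rw [map_mul, map_pow, ev_C, ev_X]

lemma ev_sum_range (x y : L) {G : K[X][X]} {b : ℕ} (hb : G.natDegree ≤ b) :
    ev x y G = ∑ n ∈ Finset.range (b + 1), aeval x (G.coeff n) * y ^ n := by
  rw [ev_sum, Polynomial.sum_over_range' _ _ (b + 1) (by omega)]
  intro n
  rw [map_zero, zero_mul]

lemma XD_map {A : ℕ} {G : K[X][X]} (h : XD A G) :
    XD A (G.map (mapRingHom (algebraMap K L))) := fun n => by
  rw [coeff_map]
  exact (natDegree_map_le).trans (h n)

lemma ev_sum_sum (x y : L) {G : K[X][X]} {A b : ℕ} (hb : G.natDegree ≤ b) (hA : XD A G) :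
    ev x y G = ∑ n ∈ Finset.range (b + 1), (∑ m ∈ Finset.range (A + 1),
      algebraMap K L ((G.coeff n).coeff m) * x ^ m) * y ^ n := by
  rw [ev_evalEval, evalEval_eq (natDegree_map_le.trans hb) (XD_map hA)]
  simp only [coeff_map, coe_mapRingHom]

lemma map_ev (g : L ≃ₐ[K] L) (x y : L) (G : K[X][X]) : g (ev x y G) = ev (g x) (g y) G := by
  rw [ev_sum, ev_sum, Polynomial.sum, Polynomial.sum, map_sum]
  refine Finset.sum_congr rfl fun n _ => ?_
  rw [map_mul, map_pow]
  congr 1
  exact (aeval_algHom_apply (g : L →ₐ[K] L) x (G.coeff n)).symm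

lemma ev_subs {f g : K[X]} {A b : ℕ} {G : K[X][X]} (hb : G.natDegree ≤ b) (hA : XD A G)
    {x y : L} (hx : aeval x g ≠ 0) (hy : aeval y g ≠ 0) :
    ev x y (subs f g A b G) = (aeval x g) ^ A * (aeval y g) ^ b *
      ev (aeval x f / aeval x g) (aeval y f / aeval y g) G := by
  have h1 : (subs f g A b G).map (mapRingHom (algebraMap K L)) =
      subs (f.map (algebraMap K L)) (g.map (algebraMap K L)) A b
        (G.map (mapRingHom (algebraMap K L))) := by
    unfold subs
    rw [Polynomial.map_sum]
    refine Finset.sum_congr rfl fun n _ => ?_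
    rw [Polynomial.map_mul, map_C, Polynomial.map_mul, Polynomial.map_pow, Polynomial.map_pow,
      coe_mapRingHom, Polynomial.map_sum]
    have h2 : ∀ f : K[X], (f.map C).map (mapRingHom (algebraMap K L)) =
        (f.map (algebraMap K L)).map C := by
      intro f
      rw [map_map, map_map]
      congr 1
      ext z
      simp
    rw [h2, h2]
    congr 2
    refine Finset.sum_congr rfl fun m _ => ?_
    rw [Polynomial.map_mul, map_C, Polynomial.map_mul, Polynomial.map_pow, Polynomial.map_pow,
      coeff_map, coe_mapRingHom, coeff_map]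
  have hgx : (g.map (algebraMap K L)).eval x = aeval x g := by rw [eval_map_algebraMap]
  have hgy : (g.map (algebraMap K L)).eval y = aeval y g := by rw [eval_map_algebraMap]
  have hfx : (f.map (algebraMap K L)).eval x = aeval x f := by rw [eval_map_algebraMap]
  have hfy : (f.map (algebraMap K L)).eval y = aeval y f := by rw [eval_map_algebraMap]
  rw [ev_evalEval, h1, eval_subs (natDegree_map_le.trans hb) (XD_map hA) (by rwa [hgx])
    (by rwa [hgy]), hgx, hgy, hfx, hfy]
  rfl

section bez

lemma natDegree_det_le {n : ℕ} (M : Matrix (Fin n) (Fin n) K[X]) (d : Fin n → ℕ)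
    (h : ∀ i j, (M i j).natDegree ≤ d j) : M.det.natDegree ≤ ∑ j, d j := by
  rw [Matrix.det_apply]
  refine natDegree_sum_le_of_forall_le _ _ fun σ _ => ?_
  have h1 : (∏ j, M (σ j) j).natDegree ≤ ∑ j, d j :=
    (natDegree_prod_le _ _).trans (Finset.sum_le_sum fun j _ => h _ _)
  rcases Int.units_eq_one_or (Equiv.Perm.sign σ) with h2 | h2
  · rw [h2, one_smul]
    exact h1
  · rw [h2, Units.neg_smul, one_smul, natDegree_neg]
    exact h1

lemma natDegree_resultant_le {G H : K[X][X]} {a a' : ℕ} (hG : XD a G) (hH : XD a' H) (m n : ℕ) :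
    (resultant G H m n).natDegree ≤ m * a' + n * a := by
  unfold resultant
  refine (natDegree_det_le _ (fun j => j.addCases (fun _ => a') (fun _ => a)) ?_).trans ?_
  · intro i j
    induction j using Fin.addCases with
    | left j =>
      simp only [sylvester, Matrix.of_apply, Fin.addCases_left]
      split_ifs
      · exact hH _
      · simp
    | right j =>
      simp only [sylvester, Matrix.of_apply, Fin.addCases_right]
      split_ifs
      · exact hG _
      · simp
  · rw [Fin.sum_univ_add]
    simp

lemma resultant_ne_zero' {G H : K[X][X]} (hG : Irreducible G) (hb : G.natDegree ≠ 0)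
    (hdvd : ¬ G ∣ H) : resultant G H ≠ 0 := by
  classical
  have hprim := hG.isPrimitive hb
  let _ : StrongNormalizedGCDMonoid K[X] := gcdInst
  have hirr : Irreducible (G.map (algebraMap K[X] (FractionRing K[X]))) :=
    (hprim.irreducible_iff_irreducible_map_fraction_map (K := FractionRing K[X])).mp hG
  have hnd : ¬ G.map (algebraMap K[X] (FractionRing K[X])) ∣
      H.map (algebraMap K[X] (FractionRing K[X])) := by
    intro h
    exact hdvd ((hprim.dvd_iff_fraction_map_dvd_fraction_map (K := FractionRing K[X])).mpr h)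
  have hcop : IsCoprime (G.map (algebraMap K[X] (FractionRing K[X])))
      (H.map (algebraMap K[X] (FractionRing K[X]))) := (hirr.coprime_iff_not_dvd).mpr hnd
  have h1 : resultant (G.map (algebraMap K[X] (FractionRing K[X])))
      (H.map (algebraMap K[X] (FractionRing K[X]))) ≠ 0 := by
    rw [Ne, resultant_eq_zero_iff]
    rintro ⟨_, h⟩
    exact h hcop
  have hinj : Function.Injective (algebraMap K[X] (FractionRing K[X])) :=
    IsFractionRing.injective _ _
  rw [natDegree_map_eq_of_injective hinj, natDegree_map_eq_of_injective hinj,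
    resultant_map_map] at h1
  intro h2
  exact h1 (by rw [h2, map_zero])

/-- **a form of Bezout's theorem** -/
theorem bez {G H : K[X][X]} (hG : Irreducible G) (hdvd : ¬ G ∣ H) {a b a' b' : ℕ} (hGa : XD a G)
    (hGb : G.natDegree ≤ b) (hHa : XD a' H) (hHb : H.natDegree ≤ b') :
    ∃ R : K[X], R ≠ 0 ∧ R.natDegree ≤ b * a' + b' * a + a ∧
      ∃ U V : K[X][X], U * G + V * H = C R := by
  rcases Nat.eq_zero_or_pos G.natDegree with h0 | h0
  · obtain ⟨f, hf⟩ := natDegree_eq_zero.mp h0
    refine ⟨f, ?_, ?_, 1, 0, by rw [hf]; ring⟩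
    · rintro rfl
      exact hG.ne_zero (by rw [← hf, C_0])
    · have h1 := hGa 0
      rw [← hf, coeff_C_zero] at h1
      omega
  · obtain ⟨U, V, _, _, hUV⟩ := exists_mul_add_mul_eq_C_resultant G H le_rfl le_rfl
      (Or.inl h0.ne')
    refine ⟨resultant G H, resultant_ne_zero' hG h0.ne' hdvd, ?_, U, V, ?_⟩
    · refine (natDegree_resultant_le hGa hHa _ _).trans ?_
      have h1 := Nat.mul_le_mul_right a' hGb
      have h2 := Nat.mul_le_mul_right a hHb
      omega
    · rw [← hUV]
      ring

end bez

end

end Pool.Agent.NH29.AB
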