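import Mathlib
import Pool.Agent.R829.BH.Loc

/-!
Interpolation determinants in two variables at pairs of points close to the graph of Frobenius,
with exceptional pairs.
-/

set_option autoImplicit false
set_option linter.unusedSectionVars false

namespace Pool.Agent.NH29.AB

open NumberField Module
open Pool.Agent.W238.Leh
open Pool.Agent.H627.LP hiding det_ineq det_ineq' local_gain
open Pool.Agent.H627.LR (GR)
open Pool.Agent.H420R3 (mi nv v_smul)
open Pool.Agent.R829.BG hiding two_gain
open Pool.Agent.R829.BH (Pr2)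

noncomputable section

variable {K : Type} [Field K] [NumberField K] {M : Type} [Field M] [NumberField M] [Algebra K M]
  {F : Fin (1 + 1) → MvPolynomial (Fin (1 + 1)) K} {q : ℕ} {v : FinitePlace M}

variable {ι : Type} [Fintype ι] [DecidableEq ι]

/-- **the local gain for pairs close to the graph of Frobenius**, with exceptional pairs -/
theorem two_gain' (hR : GR v F q) (hF : ∀ i, (F i).IsHomogeneous q) (la lb : List ℕ)
    (Φ Ψ : ι → MvPolynomial (Fin (1 + 1)) K) (hΦ : ∀ j, Φ j ∈ GG F la) (hΨ : ∀ j, Ψ j ∈ GG F lb)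
    (p p' : ι → Fin (1 + 1) → M) (hp : ∀ i, p i ≠ 0) (hp' : ∀ i, p' i ≠ 0) {Q : ℕ} {η : ℝ}
    (hη0 : 0 < η) (hη1 : η ≤ 1) (B : Finset ι) (hpr : ∀ i, i ∉ B → Pr2 v Q η (p i) (p' i)) (s : ℕ) :
    v (Matrix.of fun i j => MvPolynomial.aeval (p i) (Φ j) *
        MvPolynomial.aeval (p' i) (Ψ j)).det ≤
      (∏ i, nmf v (p i) ^ ldeg q la * nmf v (p' i) ^ ldeg q lb) *
        (η ^ s) ^ (Fintype.card ι - (B.card + 2 * s * (ldeg q la + Q * ldeg q lb + 1))) := by
  classical
  set m := ldeg q la with hm
  set n := ldeg q lb with hn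
  have hch : ∀ i, ∃ a a' : Fin (1 + 1), v (p i a) = nmf v (p i) ∧ v (p' i a') = nmf v (p' i) ∧
      (i ∉ B → a' = a ∧
        v ((p' i a)⁻¹ * p' i (oth a) - ((p i a)⁻¹ * p i (oth a)) ^ Q) ≤ η) := by
    intro i
    by_cases hi : i ∈ B
    · obtain ⟨a, ha⟩ := exists_nmf (v := v) (p i)
      obtain ⟨a', ha'⟩ := exists_nmf (v := v) (p' i)
      exact ⟨a, a', ha, ha', fun h => absurd hi h⟩
    · obtain ⟨a, h1, h2, h3⟩ := hpr i hi
      exact ⟨a, a, h1, h2, fun _ => ⟨rfl, h3⟩⟩
  choose a a' ha ha' haη using hch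
  have hpos : ∀ i, 0 < nmf v (p i) := fun i => nmf_pos v (hp i)
  have hpos' : ∀ i, 0 < nmf v (p' i) := fun i => nmf_pos v (hp' i)
  have ha0 : ∀ i, p i (a i) ≠ 0 := by
    intro i h0
    have h1 := ha i
    rw [h0, map_zero] at h1
    have := hpos i
    linarith
  have ha0' : ∀ i, p' i (a' i) ≠ 0 := by
    intro i h0
    have h1 := ha' i
    rw [h0, map_zero] at h1
    have := hpos' i
    linarith
  set z : ι → Fin (1 + 1) → M := fun i => (p i (a i))⁻¹ • p i with hz
  have hza : ∀ i, z i (a i) = 1 := by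
    intro i
    simp only [hz, Pi.smul_apply, smul_eq_mul]
    exact inv_mul_cancel₀ (ha0 i)
  have hzle : ∀ i t, v (z i t) ≤ 1 := by
    intro i t
    simp only [hz, Pi.smul_apply, smul_eq_mul, map_mul, map_inv₀, ha]
    rw [inv_mul_le_iff₀ (hpos i), mul_one]
    exact le_nmf v _ _
  set w : ι → Fin (1 + 1) → M := fun i => (p' i (a' i))⁻¹ • p' i with hw
  have hwa : ∀ i, w i (a' i) = 1 := by
    intro i
    simp only [hw, Pi.smul_apply, smul_eq_mul]
    exact inv_mul_cancel₀ (ha0' i)
  have hwle : ∀ i t, v (w i t) ≤ 1 := by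
    intro i t
    simp only [hw, Pi.smul_apply, smul_eq_mul, map_mul, map_inv₀, ha']
    rw [inv_mul_le_iff₀ (hpos' i), mul_one]
    exact le_nmf v _ _
  set ξ : ι → M := fun i => z i (oth (a i)) with hξ
  set δ : ι → M := fun i => w i (oth (a i)) - ξ i ^ Q with hδ
  have hξ1 : ∀ i, v (ξ i) ≤ 1 := fun i => hzle i _
  have hδη : ∀ i, i ∉ B → v (δ i) ≤ η := by
    intro i hi
    obtain ⟨h1, h2⟩ := haη i hi
    simp only [hδ, hw, hξ, hz, Pi.smul_apply, smul_eq_mul]
    rw [h1]
    exact h2
  have hwδ : ∀ i, w i (oth (a i)) = ξ i ^ Q + δ i := by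
    intro i
    simp only [hδ]
    ring
  -- dehomogenised forms
  set f : Fin (1 + 1) → ι → Polynomial M := fun c j =>
    dh c (MvPolynomial.map (algebraMap K M) (Φ j)) with hf
  set g : Fin (1 + 1) → ι → Polynomial M := fun c j =>
    dh c (MvPolynomial.map (algebraMap K M) (Ψ j)) with hg
  have hfI : ∀ c j, IU v (f c j) := fun c j => dh_int c (GG_intP hR.int la (hΦ j))
  have hgI : ∀ c j, IU v (g c j) := fun c j => dh_int c (GG_intP hR.int lb (hΨ j))
  have hfd : ∀ c j, (f c j).natDegree ≤ m := fun c j =>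
    dh_natDegree c ((GG_hom hF la (hΦ j)).map _)
  have hgd : ∀ c j, (g c j).natDegree ≤ n := fun c j =>
    dh_natDegree c ((GG_hom hF lb (hΨ j)).map _)
  set W' : Matrix ι ι M := Matrix.of fun i j =>
    MvPolynomial.aeval (z i) (Φ j) * MvPolynomial.aeval (w i) (Ψ j) with hW'
  have hfe : ∀ i j, MvPolynomial.aeval (z i) (Φ j) = (f (a i) j).eval (ξ i) := by
    intro i j
    rw [aeval_eq_eval_map]
    exact (dh_eval (a i) _ (hza i)).symm
  have hge' : ∀ i j, MvPolynomial.aeval (w i) (Ψ j) =
      (g (a' i) j).eval (w i (oth (a' i))) := by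
    intro i j
    rw [aeval_eq_eval_map]
    exact (dh_eval (a' i) _ (hwa i)).symm
  have hge : ∀ i, i ∉ B → ∀ j, MvPolynomial.aeval (w i) (Ψ j) =
      (g (a i) j).eval (ξ i ^ Q + δ i) := by
    intro i hi j
    rw [hge' i j, (haη i hi).1, hwδ]
  have hW1 : ∀ i j, v (W' i j) ≤ 1 := by
    intro i j
    simp only [hW', Matrix.of_apply]
    rw [hfe, hge', map_mul]
    exact mul_le_one₀ ((hfI _ _).eval (hξ1 i)) (v_nonneg v _) ((hgI _ _).eval (hwle i _))
  set X' : Matrix ι ι M := Matrix.of fun i j => if i ∈ B then W' i j else (f (a i) j).eval (ξ i) *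
    ∑ k ∈ Finset.range s, (Polynomial.hasseDeriv k (g (a i) j)).eval (ξ i ^ Q) * δ i ^ k with hX'
  have hξQ : ∀ i, v (ξ i ^ Q) ≤ 1 := fun i => by
    rw [map_pow]
    exact pow_le_one₀ (v_nonneg v _) (hξ1 i)
  have hY : ∀ i j, v ((W' - X') i j) ≤ η ^ s := by
    intro i j
    by_cases hi : i ∈ B
    · have h1 : (W' - X') i j = 0 := by
        rw [Matrix.sub_apply]
        simp only [hX', Matrix.of_apply]
        rw [if_pos hi, sub_self]
      rw [h1, map_zero]
      positivity
    · have h1 : (W' - X') i j = (f (a i) j).eval (ξ i) * ((g (a i) j).eval (ξ i ^ Q + δ i) -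
          ∑ k ∈ Finset.range s, (Polynomial.hasseDeriv k (g (a i) j)).eval (ξ i ^ Q) *
            δ i ^ k) := by
        rw [Matrix.sub_apply, mul_sub]
        simp only [hW', hX', Matrix.of_apply]
        rw [if_neg hi, hfe, hge i hi]
      rw [h1, map_mul]
      calc _ ≤ 1 * η ^ s := mul_le_mul ((hfI _ _).eval (hξ1 i))
            (taylor_le (hgI _ _) (hξQ i) hη0.le hη1 (hδη i hi) s) (v_nonneg v _) zero_le_one
        _ = η ^ s := one_mul _
  have hX1 : ∀ i j, v (X' i j) ≤ 1 := by
    intro i j
    by_cases hi : i ∈ B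
    · simp only [hX', Matrix.of_apply]
      rw [if_pos hi]
      exact hW1 i j
    · simp only [hX', Matrix.of_apply]
      rw [if_neg hi, map_mul]
      refine mul_le_one₀ ((hfI _ _).eval (hξ1 i)) (v_nonneg v _) ?_
      refine v_sum_le v _ _ zero_le_one fun k _ => ?_
      rw [map_mul, map_pow]
      exact mul_le_one₀ (((hgI _ _).hasse k).eval (hξQ i)) (pow_nonneg (v_nonneg v _) _)
        (pow_le_one₀ (v_nonneg v _) ((hδη i hi).trans hη1))
  -- the rank
  set U := m + Q * n + 1 with hU
  set e : (Fin (1 + 1) × Fin s × Fin U) ⊕ {x // x ∈ B} → ι → M := fun b => Sum.elim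
    (fun (b : Fin (1 + 1) × Fin s × Fin U) (i : ι) =>
      if i ∉ B ∧ a i = b.1 then δ i ^ (b.2.1 : ℕ) * ξ i ^ (b.2.2 : ℕ) else 0)
    (fun (b : {x // x ∈ B}) (i : ι) => if i = b.1 then 1 else 0) b with he
  have hcol : ∀ j, X'.col j ∈ Submodule.span M (Set.range e) := by
    intro j
    set h : Fin (1 + 1) → ℕ → Polynomial M := fun c k =>
      f c j * (Polynomial.hasseDeriv k (g c j)).comp (Polynomial.X ^ Q) with hh
    have hhd : ∀ c k, (h c k).natDegree < U := by
      intro c k
      have h1 : (h c k).natDegree ≤ m + n * Q := by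
        refine Polynomial.natDegree_mul_le.trans (Nat.add_le_add (hfd c j) ?_)
        refine Polynomial.natDegree_comp_le.trans ?_
        refine Nat.mul_le_mul ?_ (Polynomial.natDegree_X_pow_le Q)
        exact (Polynomial.natDegree_hasseDeriv_le _ _).trans
          ((Nat.sub_le _ _).trans (hgd c j))
      have h2 : n * Q = Q * n := mul_comm _ _
      omega
    have h1 : X'.col j = ∑ b : Fin (1 + 1) × Fin s × Fin U,
        (h b.1 (b.2.1 : ℕ)).coeff (b.2.2 : ℕ) • e (Sum.inl b) +
        ∑ b : {x // x ∈ B}, W' b.1 j • e (Sum.inr b) := by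
      funext i
      rw [Pi.add_apply, Finset.sum_apply, Finset.sum_apply]
      by_cases hi : i ∈ B
      · have h2 : ∑ b : Fin (1 + 1) × Fin s × Fin U,
            ((h b.1 (b.2.1 : ℕ)).coeff (b.2.2 : ℕ) • e (Sum.inl b)) i = 0 := by
          refine Finset.sum_eq_zero fun b _ => ?_
          simp only [he, Sum.elim_inl, Pi.smul_apply, smul_eq_mul]
          rw [if_neg (fun h => h.1 hi), mul_zero]
        rw [h2, zero_add, Finset.sum_eq_single (⟨i, hi⟩ : {x // x ∈ B})]
        · simp only [Matrix.col, Matrix.transpose_apply, hX', Matrix.of_apply, he, Sum.elim_inr,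
            Pi.smul_apply, smul_eq_mul]
          rw [if_pos hi, if_pos trivial, mul_one]
        · intro b _ hb
          simp only [he, Sum.elim_inr, Pi.smul_apply, smul_eq_mul]
          rw [if_neg, mul_zero]
          rintro h0
          exact hb (Subtype.ext h0.symm)
        · intro h
          exact absurd (Finset.mem_univ _) h
      · have h2 : ∑ b : {x // x ∈ B}, (W' b.1 j • e (Sum.inr b)) i = 0 := by
          refine Finset.sum_eq_zero fun b _ => ?_
          simp only [he, Sum.elim_inr, Pi.smul_apply, smul_eq_mul]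
          rw [if_neg, mul_zero]
          rintro rfl
          exact hi b.2
        rw [h2, add_zero, Fintype.sum_prod_type]
        rw [Finset.sum_eq_single (a i)]
        · rw [Fintype.sum_prod_type]
          simp only [Matrix.col, Matrix.transpose_apply, hX', Matrix.of_apply, Pi.smul_apply,
            smul_eq_mul, he, Sum.elim_inl, hi, not_false_eq_true, true_and, if_true, if_false]
          rw [Finset.mul_sum, Finset.sum_range]
          refine Finset.sum_congr rfl fun k _ => ?_
          have h2 : (f (a i) j).eval (ξ i) *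
              (Polynomial.hasseDeriv (k : ℕ) (g (a i) j)).eval (ξ i ^ Q) =
              (h (a i) k).eval (ξ i) := by
            simp only [hh]
            rw [Polynomial.eval_mul, Polynomial.eval_comp, Polynomial.eval_pow,
              Polynomial.eval_X]
          rw [← mul_assoc, h2, Polynomial.eval_eq_sum_range' (hhd _ _), Finset.sum_range,
            Finset.sum_mul]
          refine Finset.sum_congr rfl fun l _ => ?_
          ring
        · intro c _ hc
          refine Finset.sum_eq_zero fun b _ => ?_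
          simp only [he, Sum.elim_inl, Pi.smul_apply, smul_eq_mul]
          rw [if_neg (fun h => hc h.2.symm), mul_zero]
        · intro h
          exact absurd (Finset.mem_univ _) h
    rw [h1]
    exact Submodule.add_mem _ (Submodule.sum_mem _ fun b _ => Submodule.smul_mem _ _
      (Submodule.subset_span ⟨Sum.inl b, rfl⟩)) (Submodule.sum_mem _ fun b _ =>
        Submodule.smul_mem _ _ (Submodule.subset_span ⟨Sum.inr b, rfl⟩))
  set S : Submodule M (ι → M) := Submodule.span M (Set.range X'.row) with hS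
  have hSr : finrank M S ≤ B.card + 2 * s * U := by
    have h1 : finrank M (Submodule.span M (Set.range e)) ≤ B.card + 2 * s * U := by
      refine (finrank_range_le_card e).trans (le_of_eq ?_)
      rw [Fintype.card_sum, Fintype.card_prod, Fintype.card_prod, Fintype.card_fin,
        Fintype.card_fin, Fintype.card_fin, Fintype.card_coe]
      ring
    refine le_trans ?_ h1
    rw [hS, ← Matrix.rank_eq_finrank_span_row, Matrix.rank_eq_finrank_span_cols]
    apply Submodule.finrank_mono
    rw [Submodule.span_le]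
    rintro _ ⟨j, rfl⟩
    exact hcol j
  have hXS : ∀ i, X' i ∈ S := fun i => Submodule.subset_span ⟨i, rfl⟩
  have h1 := det_rank_le v X' (W' - X') (pow_nonneg hη0.le s) (pow_le_one₀ hη0.le hη1) hX1 hY S
    hSr hXS
  rw [add_sub_cancel] at h1
  -- scaling
  have h2 : (Matrix.of fun i j => MvPolynomial.aeval (p i) (Φ j) *
      MvPolynomial.aeval (p' i) (Ψ j)) =
      Matrix.diagonal (fun i => p i (a i) ^ m * (p' i (a' i)) ^ n) * W' := by
    ext i j
    rw [Matrix.diagonal_mul]
    simp only [Matrix.of_apply, hW']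
    have h3 : p i = p i (a i) • z i := by
      simp only [hz]
      rw [smul_smul, mul_inv_cancel₀ (ha0 i), one_smul]
    have h4 : p' i = p' i (a' i) • w i := by
      simp only [hw]
      rw [smul_smul, mul_inv_cancel₀ (ha0' i), one_smul]
    have h5 : MvPolynomial.aeval (p i) (Φ j) = p i (a i) ^ m * MvPolynomial.aeval (z i) (Φ j) := by
      conv_lhs => rw [h3]
      exact aeval_smul_hom (GG_hom hF la (hΦ j)) _ _
    have h6 : MvPolynomial.aeval (p' i) (Ψ j) =
        (p' i (a' i)) ^ n * MvPolynomial.aeval (w i) (Ψ j) := by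
      conv_lhs => rw [h4]
      exact aeval_smul_hom (GG_hom hF lb (hΨ j)) _ _
    rw [h5, h6]
    ring
  rw [h2, Matrix.det_mul, Matrix.det_diagonal, map_mul, map_prod]
  have h3 : ∏ i, v (p i (a i) ^ m * (p' i (a' i)) ^ n) =
      ∏ i, nmf v (p i) ^ m * nmf v (p' i) ^ n := by
    refine Finset.prod_congr rfl fun i _ => ?_
    rw [map_mul, map_pow, map_pow, ha, ha']
  rw [h3]
  refine mul_le_mul_of_nonneg_left h1 (Finset.prod_nonneg fun i _ => ?_)
  exact mul_nonneg (pow_nonneg (nmf_nonneg v _) _) (pow_nonneg (nmf_nonneg v _) _)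

end

end Pool.Agent.NH29.AB
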