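import Mathlib
import Pool.Agent.NH29.AB.Bez
import Pool.Agent.NH29.AB.Glo

/-!
Descent: if there is no relation over the base field, then the evaluation matrix has full rank.
-/

set_option autoImplicit false
set_option linter.unusedSectionVars false

namespace Pool.Agent.NH29.AB

open NumberField Module Polynomial
open Pool.Agent.R829.BG hiding two_gain two_ineq

noncomputable section

variable {K : Type} [Field K] [NumberField K] {L : Type} [Field L] [NumberField L] [Algebra K L]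

lemma ev_bp {r c : ℕ} (u : Fin r × Fin c → K) (x y : L) :
    ev x y (bp u) = ∑ ij, algebraMap K L (u ij) * (x ^ (ij.1 : ℕ) * y ^ (ij.2 : ℕ)) := by
  unfold bp
  rw [map_sum]
  refine Finset.sum_congr rfl fun ij _ => ?_
  rw [← C_mul_X_pow_eq_monomial, ← C_mul_X_pow_eq_monomial, map_mul, map_pow, ev_C, ev_X,
    map_mul, map_pow, aeval_C, aeval_X]
  ring

theorem full_rank [IsGalois K L] {σ : Gal(L/K)} (hcomm : ∀ g : Gal(L/K), g * σ = σ * g)
    {Z : Finset L} (hZ : ∀ g : Gal(L/K), ∀ z ∈ Z, g z ∈ Z) {m n : ℕ}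
    (hno : ∀ P : K[X][X], P.natDegree ≤ n → XD m P → (∀ z ∈ Z, ev z (σ z) P = 0) → P = 0) :
    finrank L (E2 K (fun z : {z // z ∈ Z} => ![z.1, 1]) (fun z => ![σ z.1, 1]) m n) =
      (m + 1) * (n + 1) := by
  classical
  refine le_antisymm (finrank_E2_le (K := K) (fun z : {z // z ∈ Z} => z.1)
    (fun z => σ z.1) m n) ?_
  by_contra hcon
  push Not at hcon
  obtain ⟨G, hG0, hGn, hGm, hG⟩ := exists_rel (K := K) (x := fun z : {z // z ∈ Z} => z.1)
    (y := fun z => σ z.1) hcon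
  obtain ⟨i₀, j₀, hij⟩ : ∃ i j, (G.coeff j).coeff i ≠ 0 := by
    by_contra h
    push Not at h
    apply hG0
    ext j i
    rw [h i j, coeff_zero, coeff_zero]
  have hj₀ : j₀ < n + 1 := by
    by_contra h
    apply hij
    rw [coeff_eq_zero_of_natDegree_lt (lt_of_le_of_lt hGn (by omega)), coeff_zero]
  have hi₀ : i₀ < m + 1 := by
    by_contra h
    exact hij (coeff_eq_zero_of_natDegree_lt (lt_of_le_of_lt (hGm j₀) (by omega)))
  -- the traces of the coefficients
  set u : L → Fin (m + 1) × Fin (n + 1) → K := fun t ij =>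
    Algebra.trace K L (t * (G.coeff (ij.2 : ℕ)).coeff (ij.1 : ℕ)) with hu
  have hzero : ∀ t, bp (u t) = 0 := by
    intro t
    refine hno _ (by simpa using bp_natDegree (u t)) (by simpa using bp_XD (u t)) ?_
    intro z hz
    rw [ev_bp]
    have h1 : ∀ ij : Fin (m + 1) × Fin (n + 1), algebraMap K L (u t ij) *
        (z ^ (ij.1 : ℕ) * (σ z) ^ (ij.2 : ℕ)) = ∑ g : Gal(L/K),
          g (t * ((G.coeff (ij.2 : ℕ)).coeff (ij.1 : ℕ) *
            ((g⁻¹ z) ^ (ij.1 : ℕ) * (σ (g⁻¹ z)) ^ (ij.2 : ℕ)))) := by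
      intro ij
      simp only [hu]
      rw [trace_eq_sum_automorphisms, Finset.sum_mul]
      refine Finset.sum_congr rfl fun g _ => ?_
      have h2 : g (g⁻¹ z) = z := by
        rw [← AlgEquiv.mul_apply, mul_inv_cancel]
        rfl
      have h3 : g (σ (g⁻¹ z)) = σ z := by
        rw [← AlgEquiv.mul_apply, hcomm, AlgEquiv.mul_apply, h2]
      rw [map_mul, map_mul, map_mul, map_mul, map_pow, map_pow, h2, h3]
      ring
    rw [Finset.sum_congr rfl fun ij _ => h1 ij, Finset.sum_comm]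
    refine Finset.sum_eq_zero fun g _ => ?_
    rw [← map_sum, ← Finset.mul_sum]
    have h2 := hG ⟨g⁻¹ z, hZ g⁻¹ z hz⟩
    rw [evalEval_eq hGn hGm] at h2
    have h3 : ∑ ij : Fin (m + 1) × Fin (n + 1), (G.coeff (ij.2 : ℕ)).coeff (ij.1 : ℕ) *
        ((g⁻¹ z) ^ (ij.1 : ℕ) * (σ (g⁻¹ z)) ^ (ij.2 : ℕ)) = 0 := by
      rw [← h2, Fintype.sum_prod_type_right, ← Fin.sum_univ_eq_sum_range
        (fun j => (∑ m ∈ Finset.range (m + 1), (G.coeff j).coeff m * (g⁻¹ z) ^ m) *
          (σ (g⁻¹ z)) ^ j)]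
      refine Finset.sum_congr rfl fun j _ => ?_
      rw [← Fin.sum_univ_eq_sum_range (fun i => (G.coeff j).coeff i * (g⁻¹ z) ^ i),
        Finset.sum_mul]
      refine Finset.sum_congr rfl fun i _ => ?_
      ring
    rw [h3, mul_zero, map_zero]
  apply hij
  have h1 : ∀ t, Algebra.trace K L (t * (G.coeff j₀).coeff i₀) = 0 := by
    intro t
    have h2 := congrFun (bp_eq_zero (hzero t)) (⟨i₀, hi₀⟩, ⟨j₀, hj₀⟩)
    simpa [hu] using h2
  have h2 := (traceForm_nondegenerate K L).1 ((G.coeff j₀).coeff i₀) (fun t => by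
    rw [Algebra.traceForm_apply, mul_comm]
    exact h1 t)
  exact h2

end

end Pool.Agent.NH29.AB
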