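import Mathlib
import Pool.Agent.NH29.AB.Des

/-!
The expansion of a relation at the graph of Frobenius.
-/

set_option autoImplicit false
set_option linter.unusedSectionVars false

namespace Pool.Agent.NH29.AB

open NumberField Module Polynomial
open Pool.Agent.W238.Leh
open Pool.Agent.H627.LP hiding det_ineq det_ineq' local_gain
open Pool.Agent.H420R3 (mi nv TP ew)
open Pool.Agent.R829.BG hiding two_gain two_ineq

noncomputable section

variable {K : Type} [Field K] [NumberField K] {L : Type} [Field L] [NumberField L] [Algebra K L]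

section Place

variable {v₀ : FinitePlace K} {w : FinitePlace L}

lemma frac_place {z : K} (hz : v₀ z ≤ 1) (hw : w ∈ TP L (mi v₀)) :
    ∃ a c : 𝓞 K, z = (a : K) / (c : K) ∧ v₀ z = v₀ (a : K) ∧
      w (algebraMap K L z) = w (algebraMap (𝓞 K) (𝓞 L) a : L) := by
  obtain ⟨a, c, hc, hac⟩ := H420R3.exists_frac v₀ hz
  have hlo := H420R3.liesOver_of_mem (H420R3.mi_ne_bot v₀) hw
  have h1 : v₀ (c : K) = 1 := H420R3.v_eq_one_of_notMem v₀ hc
  have h2 : algebraMap (𝓞 K) (𝓞 L) c ∉ mi w := by
    intro h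
    apply hc
    rw [hlo.over]
    exact h
  have h3 : w (algebraMap (𝓞 K) (𝓞 L) c : L) = 1 := H420R3.v_eq_one_of_notMem w h2
  refine ⟨a, c, hac, ?_, ?_⟩
  · rw [hac, map_div₀, h1, div_one]
  · rw [hac, map_div₀, map_div₀]
    have h4 : ∀ b : 𝓞 K, algebraMap K L (b : K) = (algebraMap (𝓞 K) (𝓞 L) b : L) := fun b => rfl
    rw [h4, h4, h3, div_one]

lemma place_le {z : K} (hz : v₀ z ≤ 1) (hw : w ∈ TP L (mi v₀)) :
    w (algebraMap K L z) ≤ 1 := by
  obtain ⟨a, c, _, _, h3⟩ := frac_place hz hw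
  rw [h3]
  exact H420R3.v_le_one w _

lemma place_lt {z : K} (hz : v₀ z < 1) (hw : w ∈ TP L (mi v₀)) :
    w (algebraMap K L z) ≤ Real.exp (-ew K w) := by
  obtain ⟨a, c, _, h2, h3⟩ := frac_place hz.le hw
  rw [h3]
  have ha : a ∈ mi v₀ := by
    rw [← H420R3.v_lt_one_iff, ← h2]
    exact hz
  exact H420R3.v_le_of_mem_P (H420R3.mi_ne_bot v₀) hw ha

lemma place_eq {z : K} (hz : v₀ z = 1) (hw : w ∈ TP L (mi v₀)) :
    w (algebraMap K L z) = 1 := by
  obtain ⟨a, c, _, h2, h3⟩ := frac_place hz.le hw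
  rw [h3]
  apply H420R3.v_eq_one_of_notMem
  intro h
  have hlo := H420R3.liesOver_of_mem (H420R3.mi_ne_bot v₀) hw
  have ha : a ∈ mi v₀ := by
    rw [hlo.over]
    exact h
  have h4 := (H420R3.v_lt_one_iff v₀ a).mpr ha
  rw [← h2, hz] at h4
  exact lt_irrefl _ h4

lemma aeval_le {f : K[X]} (hf : ∀ i, v₀ (f.coeff i) ≤ 1) (hw : w ∈ TP L (mi v₀)) {x : L}
    (hx : w x ≤ 1) : w (aeval x f) ≤ 1 := by
  rw [aeval_eq_sum_range]
  refine v_sum_le w _ _ zero_le_one fun i _ => ?_
  rw [Algebra.smul_def, map_mul, map_pow]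
  exact mul_le_one₀ (place_le (hf i) hw) (pow_nonneg (v_nonneg w _) _)
    (pow_le_one₀ (v_nonneg w _) hx)

lemma aeval_lt {f : K[X]} (hf : ∀ i, v₀ (f.coeff i) < 1) (hw : w ∈ TP L (mi v₀)) {x : L}
    (hx : w x ≤ 1) : w (aeval x f) ≤ Real.exp (-ew K w) := by
  rw [aeval_eq_sum_range]
  refine v_sum_le w _ _ (Real.exp_pos _).le fun i _ => ?_
  rw [Algebra.smul_def, map_mul, map_pow]
  calc w (algebraMap K L (f.coeff i)) * w x ^ i ≤ Real.exp (-ew K w) * 1 :=
        mul_le_mul (place_lt (hf i) hw) (pow_le_one₀ (v_nonneg w _) hx)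
          (pow_nonneg (v_nonneg w _) _) (Real.exp_pos _).le
    _ = _ := mul_one _

end Place

lemma ev_taylor (x y : L) (r : K[X]) (G : K[X][X]) :
    ev x (y - aeval x r) (taylor r G) = ev x y G := by
  have h1 : (ev x (y - aeval x r) : K[X][X] →+* L).comp (compRingHom (X + C r)) = ev x y := by
    apply Polynomial.ringHom_ext
    · intro f
      change ev x (y - aeval x r) ((C f).comp (X + C r)) = _
      rw [C_comp, ev_C, ev_C]
    · change ev x (y - aeval x r) (X.comp (X + C r)) = _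
      rw [X_comp, map_add, ev_C, ev_X, ev_X, sub_add_cancel]
  have h2 := congrArg (fun φ : K[X][X] →+* L => φ G) h1
  simpa [RingHom.comp_apply, taylor_apply] using h2

lemma natDegree_taylor_coeff {G : K[X][X]} {a b Q : ℕ} (hb : G.natDegree ≤ b) (ha : XD a G)
    (j : ℕ) : ((taylor (X ^ Q : K[X]) G).coeff j).natDegree ≤ a + Q * b := by
  rw [taylor_coeff, eval_eq_sum_range' (n := b + 1)]
  · refine natDegree_sum_le_of_forall_le _ _ fun n hn => ?_
    refine natDegree_mul_le.trans (Nat.add_le_add ?_ ?_)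
    · rw [hasseDeriv_coeff]
      refine natDegree_mul_le.trans ?_
      rw [natDegree_natCast, zero_add]
      exact ha _
    · rw [← pow_mul, natDegree_X_pow]
      exact Nat.mul_le_mul_left _ (Nat.lt_succ_iff.mp (Finset.mem_range.mp hn))
  · exact lt_of_le_of_lt ((natDegree_hasseDeriv_le _ _).trans ((Nat.sub_le _ _).trans hb))
      (Nat.lt_succ_self _)

/-- **the expansion of a relation at the graph of Frobenius** -/
theorem exp_data (v₀ : FinitePlace K) {G : K[X][X]} (hG : G ≠ 0) {a b Q : ℕ}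
    (hb : G.natDegree ≤ b) (ha : XD a G) :
    ∃ (k : ℕ) (c : K[X]), k ≤ G.natDegree ∧ c.natDegree ≤ a + Q * b ∧
      (∀ i, v₀ (c.coeff i) ≤ 1) ∧ (∃ i, v₀ (c.coeff i) = 1) ∧ (a < Q → k = 0) ∧
      ∀ (L : Type) [Field L] [NumberField L] [Algebra K L], ∀ w ∈ TP L (mi v₀), ∀ x y : L,
        ev x y G = 0 → w x ≤ 1 → w (y - x ^ Q) < 1 → w (aeval x c) = 1 →
        1 ≤ k ∧ w (y - x ^ Q) ^ k ≤ Real.exp (-ew K w) := by
  classical
  -- normalisation of `G`
  have hmaxex : ∀ (H : K[X][X]), H ≠ 0 → ∃ i j, (H.coeff j).coeff i ≠ 0 ∧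
      ∀ i' j', v₀ ((H.coeff j').coeff i') ≤ v₀ ((H.coeff j).coeff i) := by
    intro H hH
    obtain ⟨A, hA⟩ : ∃ A, XD A H := ⟨xd H, XD_iff.mpr le_rfl⟩
    obtain ⟨mn, hmn, hmax⟩ := Finset.exists_max_image
      (Finset.range (A + 1) ×ˢ Finset.range (H.natDegree + 1))
      (fun mn => v₀ ((H.coeff mn.2).coeff mn.1)) ⟨(0, 0), by simp⟩
    have hle : ∀ i' j', v₀ ((H.coeff j').coeff i') ≤ v₀ ((H.coeff mn.2).coeff mn.1) := by
      intro i' j'
      by_cases h : i' < A + 1 ∧ j' < H.natDegree + 1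
      · exact hmax (i', j') (by simp [h.1, h.2])
      · have h0 : (H.coeff j').coeff i' = 0 := by
          by_cases hj : j' < H.natDegree + 1
          · have hi : A < i' := by
              by_contra hcon
              exact h ⟨by omega, hj⟩
            exact coeff_eq_zero_of_natDegree_lt (lt_of_le_of_lt (hA j') hi)
          · rw [coeff_eq_zero_of_natDegree_lt (show H.natDegree < j' by omega), coeff_zero]
        rw [h0, map_zero]
        exact v_nonneg v₀ _
    refine ⟨mn.1, mn.2, ?_, hle⟩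
    intro h0
    apply hH
    ext j i
    have h1 := hle i j
    rw [h0, map_zero] at h1
    have h2 : v₀ ((H.coeff j).coeff i) = 0 := le_antisymm h1 (v_nonneg v₀ _)
    simpa using h2
  obtain ⟨i₀, j₀, hg0, hgmax⟩ := hmaxex G hG
  set g₀ := (G.coeff j₀).coeff i₀ with hg₀
  have hvg₀ : 0 < v₀ g₀ := FinitePlace.pos_iff.mpr hg0
  set G₁ : K[X][X] := C (C g₀⁻¹) * G with hG₁
  have hG₁c : ∀ i j, (G₁.coeff j).coeff i = g₀⁻¹ * (G.coeff j).coeff i := by
    intro i j
    rw [hG₁, coeff_C_mul, coeff_C_mul]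
  have hG₁le : ∀ i j, v₀ ((G₁.coeff j).coeff i) ≤ 1 := by
    intro i j
    rw [hG₁c, map_mul, map_inv₀, inv_mul_le_iff₀ hvg₀, mul_one]
    exact hgmax i j
  have hG₁1 : v₀ ((G₁.coeff j₀).coeff i₀) = 1 := by
    rw [hG₁c, ← hg₀, inv_mul_cancel₀ hg0, map_one]
  have hG₁0 : G₁ ≠ 0 := mul_ne_zero (by
    rw [Ne, C_eq_zero, C_eq_zero]
    exact inv_ne_zero hg0) hG
  have hG₁b : G₁.natDegree ≤ G.natDegree := by
    rw [hG₁]
    exact natDegree_C_mul_le _ _
  have hG₁a : XD a G₁ := by
    intro n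
    rw [hG₁, coeff_C_mul]
    exact (natDegree_C_mul_le _ _).trans (ha n)
  -- the expansion
  set T := taylor (X ^ Q : K[X]) G₁ with hT
  have hT0 : T ≠ 0 := by
    rw [hT, Ne, taylor_eq_zero]
    exact hG₁0
  have hTc : ∀ j, T.coeff j = ∑ n ∈ Finset.range (b + 1),
      ((n + j).choose j : K[X]) * G₁.coeff (n + j) * X ^ (Q * n) := by
    intro j
    rw [hT, taylor_coeff, eval_eq_sum_range' (n := b + 1)]
    · refine Finset.sum_congr rfl fun n _ => ?_
      rw [hasseDeriv_coeff, ← pow_mul]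
    · exact lt_of_le_of_lt ((natDegree_hasseDeriv_le _ _).trans ((Nat.sub_le _ _).trans
        (hG₁b.trans hb))) (Nat.lt_succ_self _)
  have hTle : ∀ i j, v₀ ((T.coeff j).coeff i) ≤ 1 := by
    intro i j
    rw [hTc, finsetSum_coeff]
    refine v_sum_le v₀ _ _ zero_le_one fun n _ => ?_
    rw [coeff_mul_X_pow']
    split_ifs
    · rw [← C_eq_natCast, coeff_C_mul, map_mul]
      exact mul_le_one₀ (v_int_le v₀ (isIntegral_natCast _)) (v_nonneg v₀ _) (hG₁le _ _)
    · rw [map_zero]
      exact zero_le_one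
  obtain ⟨i₁, j₁, ht0, htmax⟩ := hmaxex T hT0
  have hex : ∃ j, ∃ i, (T.coeff j).coeff i ≠ 0 ∧
      ∀ i' j', v₀ ((T.coeff j').coeff i') ≤ v₀ ((T.coeff j).coeff i) := ⟨j₁, i₁, ht0, htmax⟩
  set k := Nat.find hex with hk
  obtain ⟨i₂, hi₂0, hi₂⟩ := Nat.find_spec hex
  rw [← hk] at hi₂0 hi₂
  set t₀ := (T.coeff k).coeff i₂ with ht₀
  have hvt₀ : 0 < v₀ t₀ := FinitePlace.pos_iff.mpr hi₂0
  have hmin : ∀ j, j < k → ∀ i, v₀ ((T.coeff j).coeff i) < v₀ t₀ := by
    intro j hj i
    by_contra hcon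
    push Not at hcon
    refine Nat.find_min hex hj ⟨i, ?_, fun i' j' => (hi₂ i' j').trans hcon⟩
    intro h0
    rw [h0, map_zero] at hcon
    linarith
  set d : ℕ → K[X] := fun j => C t₀⁻¹ * T.coeff j with hd
  have hdle : ∀ j i, v₀ ((d j).coeff i) ≤ 1 := by
    intro j i
    simp only [hd]
    rw [coeff_C_mul, map_mul, map_inv₀, inv_mul_le_iff₀ hvt₀, mul_one]
    exact hi₂ i j
  have hdlt : ∀ j, j < k → ∀ i, v₀ ((d j).coeff i) < 1 := by
    intro j hj i
    simp only [hd]
    rw [coeff_C_mul, map_mul, map_inv₀, inv_mul_lt_iff₀ hvt₀, mul_one]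
    exact hmin j hj i
  have hTdeg : T.natDegree = G₁.natDegree := by
    rw [hT, natDegree_taylor]
  have hkdeg : k ≤ G.natDegree := by
    refine le_trans ?_ hG₁b
    rw [← hTdeg]
    by_contra hcon
    push Not at hcon
    apply hi₂0
    rw [ht₀, coeff_eq_zero_of_natDegree_lt hcon, coeff_zero]
  refine ⟨k, d k, hkdeg, ?_, hdle k, ⟨i₂, ?_⟩, ?_, ?_⟩
  · refine (natDegree_C_mul_le _ _).trans ?_
    exact natDegree_taylor_coeff (hG₁b.trans hb) hG₁a k
  · simp only [hd]
    rw [coeff_C_mul, ← ht₀, inv_mul_cancel₀ hi₂0, map_one]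
  · -- small degree in `X`
    intro haQ
    by_contra hk0
    have h1 := hmin 0 (Nat.pos_of_ne_zero hk0) (i₀ + Q * j₀)
    have hj₀b : j₀ < b + 1 := by
      by_contra hcon
      apply hg0
      rw [hg₀, coeff_eq_zero_of_natDegree_lt (lt_of_le_of_lt hb (by omega)), coeff_zero]
    have hi₀a : i₀ ≤ a := by
      by_contra hcon
      apply hg0
      rw [hg₀]
      exact coeff_eq_zero_of_natDegree_lt (lt_of_le_of_lt (ha j₀) (by omega))
    have h2 : (T.coeff 0).coeff (i₀ + Q * j₀) = (G₁.coeff j₀).coeff i₀ := by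
      rw [hTc, finsetSum_coeff, Finset.sum_eq_single j₀]
      · rw [coeff_mul_X_pow', if_pos (by omega), Nat.add_sub_cancel]
        simp
      · intro n _ hne
        rw [coeff_mul_X_pow']
        split_ifs with hle
        · rw [add_zero, Nat.choose_zero_right, Nat.cast_one, one_mul]
          apply coeff_eq_zero_of_natDegree_lt
          refine lt_of_le_of_lt (hG₁a n) ?_
          -- `a < i₀ + Q j₀ - Q n`
          have hlt : n < j₀ := by
            rcases Nat.lt_or_ge n j₀ with h | h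
            · exact h
            · exfalso
              have h3 : j₀ + 1 ≤ n := by omega
              have h4 := Nat.mul_le_mul_left Q h3
              rw [mul_add, mul_one] at h4
              omega
          have h4 := Nat.mul_le_mul_left Q (show n + 1 ≤ j₀ by omega)
          rw [mul_add, mul_one] at h4
          omega
        · rfl
      · intro h
        exact absurd (Finset.mem_range.mpr hj₀b) h
    rw [h2, hG₁1] at h1
    have h3 := hTle i₂ k
    rw [← ht₀] at h3
    linarith
  · intro L _ _ _ w hw x y hxy hx hδ hc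
    set δ := y - x ^ Q with hδdef
    have hev : ∑ j ∈ Finset.range (T.natDegree + 1), aeval x (d j) * δ ^ j = 0 := by
      have h1 : ev x δ T = 0 := by
        have h2 := ev_taylor x y (X ^ Q : K[X]) G₁
        rw [map_pow, aeval_X, ← hδdef, ← hT] at h2
        rw [h2, hG₁, map_mul, hxy, mul_zero]
      rw [ev_sum_range x δ (le_refl T.natDegree)] at h1
      have h2 : ∑ j ∈ Finset.range (T.natDegree + 1), aeval x (d j) * δ ^ j =
          algebraMap K L t₀⁻¹ * ∑ n ∈ Finset.range (T.natDegree + 1),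
            aeval x (T.coeff n) * δ ^ n := by
        rw [Finset.mul_sum]
        refine Finset.sum_congr rfl fun n _ => ?_
        simp only [hd]
        rw [map_mul, aeval_C, mul_assoc]
      rw [h2, h1, mul_zero]
    have hkr : k ∈ Finset.range (T.natDegree + 1) := by
      rw [Finset.mem_range]
      by_contra hcon
      apply hi₂0
      rw [ht₀, coeff_eq_zero_of_natDegree_lt (show T.natDegree < k by omega), coeff_zero]
    have hmain : w δ ^ k ≤ max (Real.exp (-ew K w)) (w δ ^ (k + 1)) := by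
      have h1 : aeval x (d k) * δ ^ k =
          -∑ j ∈ (Finset.range (T.natDegree + 1)).erase k, aeval x (d j) * δ ^ j := by
        have h2 := Finset.add_sum_erase _ (fun j => aeval x (d j) * δ ^ j) hkr
        rw [hev] at h2
        exact eq_neg_of_add_eq_zero_left h2
      have h2 : w (aeval x (d k) * δ ^ k) = w δ ^ k := by
        rw [map_mul, map_pow, hc, one_mul]
      rw [← h2, h1, H627.LR.v_neg]
      refine v_sum_le w _ _ (le_max_of_le_left (Real.exp_pos _).le) fun j hj => ?_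
      rw [map_mul, map_pow]
      rcases Nat.lt_or_ge j k with hjk | hjk
      · refine le_max_of_le_left ?_
        calc w (aeval x (d j)) * w δ ^ j ≤ Real.exp (-ew K w) * 1 :=
              mul_le_mul (aeval_lt (hdlt j hjk) hw hx) (pow_le_one₀ (v_nonneg w _) hδ.le)
                (pow_nonneg (v_nonneg w _) _) (Real.exp_pos _).le
          _ = _ := mul_one _
      · refine le_max_of_le_right ?_
        have hne : j ≠ k := Finset.ne_of_mem_erase hj
        calc w (aeval x (d j)) * w δ ^ j ≤ 1 * w δ ^ (k + 1) :=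
              mul_le_mul (aeval_le (hdle j) hw hx)
                (pow_le_pow_of_le_one (v_nonneg w _) hδ.le (by omega))
                (pow_nonneg (v_nonneg w _) _) zero_le_one
          _ = _ := one_mul _
    have hexp : Real.exp (-ew K w) < 1 := by
      rw [Real.exp_lt_one_iff]
      linarith [H420R3.ew_pos (K := K) w]
    have hδ0 := v_nonneg w δ
    constructor
    · by_contra hk0
      have hk0' : k = 0 := by omega
      rw [hk0', pow_zero, zero_add, pow_one] at hmain
      rcases le_max_iff.mp hmain with h | h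
      · linarith
      · linarith
    · rcases le_max_iff.mp hmain with h | h
      · exact h
      · have h1 : w δ ^ k * (1 - w δ) ≤ 0 := by
          rw [pow_succ] at h
          nlinarith
        have h2 : w δ ^ k ≤ 0 := by
          by_contra hcon
          push Not at hcon
          have := mul_pos hcon (show 0 < 1 - w δ by linarith)
          linarith
        exact h2.trans (Real.exp_pos _).le

end

end Pool.Agent.NH29.AB
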