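import Mathlib
import Pool.Agent.NH29.AB.Exp
import Pool.Agent.R829.BH.Cls

/-!
Points which are not units at the values of a primitive polynomial lie in few residue classes.
-/

set_option autoImplicit false
set_option linter.unusedSectionVars false

namespace Pool.Agent.NH29.AB

open NumberField Module
open Pool.Agent.W238.Leh
open Pool.Agent.H627.LP hiding det_ineq det_ineq' local_gain
open Pool.Agent.H627.LR (res res_spec res_eq v_neg wd wd_st exists_int)
open Pool.Agent.H627.LU (Classes)
open Pool.Agent.H420R3 (mi nv v_smul nv_pos v_lt_one_iff)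
open Pool.Agent.R829.BG hiding two_gain two_ineq classes_rel

noncomputable section

variable {M : Type} [Field M] [NumberField M] {v : FinitePlace M}

/-- **few residue classes** -/
theorem classes_poly {c : Polynomial M} (hc1 : ∀ i, v (c.coeff i) ≤ 1)
    (hc2 : ∃ i, v (c.coeff i) = 1) {A : ℕ} (hA : c.natDegree ≤ A)
    {ι : Type} [Fintype ι] [DecidableEq ι] (x : ι → M) (S : Finset ι)
    (hS : ∀ i, i ∉ S → v (x i) ≤ 1 → v (c.eval (x i)) < 1) {g' : ℝ}
    (hcl : ∀ i i', v (x i - x i') < 1 → v (x i - x i') ≤ Real.exp (-g'))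
    (hcl' : ∀ i i', v ((x i)⁻¹ - (x i')⁻¹) < 1 → v ((x i)⁻¹ - (x i')⁻¹) ≤ Real.exp (-g')) :
    Classes v (fun i => ![x i, 1]) S (A + 1) g' := by
  classical
  choose b hb using fun m => exists_int v (hc1 m)
  have hb1 : ∀ m, v (b m : M) ≤ 1 := fun m => H420R3.v_le_one v _
  let : Field (𝓞 M ⧸ mi v) := Ideal.Quotient.field (mi v)
  set H : Polynomial (𝓞 M ⧸ mi v) := ∑ m ∈ Finset.range (A + 1),
    Polynomial.C (Ideal.Quotient.mk (mi v) (b m)) * Polynomial.X ^ m with hH
  have hHdeg : H.natDegree ≤ A := by
    refine Polynomial.natDegree_sum_le_of_forall_le _ _ fun m hm => ?_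
    refine (Polynomial.natDegree_C_mul_X_pow_le _ _).trans ?_
    exact Nat.lt_succ_iff.mp (Finset.mem_range.mp hm)
  obtain ⟨m₀, hm₀⟩ := hc2
  have hm₀A : m₀ < A + 1 := by
    by_contra hcon
    rw [Polynomial.coeff_eq_zero_of_natDegree_lt (show c.natDegree < m₀ by omega), map_zero]
      at hm₀
    norm_num at hm₀
  have hH0 : H ≠ 0 := by
    intro h0
    have h1 : H.coeff m₀ = Ideal.Quotient.mk (mi v) (b m₀) := by
      rw [hH, Polynomial.finsetSum_coeff, Finset.sum_eq_single m₀]
      · rw [Polynomial.coeff_C_mul_X_pow, if_pos rfl]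
      · intro m _ hne
        rw [Polynomial.coeff_C_mul_X_pow, if_neg hne.symm]
      · intro h
        exact absurd (Finset.mem_range.mpr hm₀A) h
    rw [h0, Polynomial.coeff_zero] at h1
    have h2 : b m₀ ∈ mi v := Ideal.Quotient.eq_zero_iff_mem.mp h1.symm
    rw [← v_lt_one_iff] at h2
    have h3 := hb m₀
    have h5 : v (c.coeff m₀) < 1 := by
      have h6 : c.coeff m₀ = (c.coeff m₀ - (b m₀ : M)) + (b m₀ : M) := by ring
      rw [h6]
      exact lt_of_le_of_lt (FinitePlace.add_le v _ _) (max_lt h3 h2)
    linarith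
  refine ⟨Option (𝓞 M ⧸ mi v), fun i => if v (x i) ≤ 1 then some (res v (x i)) else none,
    insert none (H.roots.toFinset.image some), ?_, ?_, ?_⟩
  · refine (Finset.card_insert_le _ _).trans ?_
    have h1 := (Finset.card_image_le (s := H.roots.toFinset) (f := some)).trans
      ((Multiset.toFinset_card_le _).trans ((Polynomial.card_roots' H).trans hHdeg))
    omega
  · intro i hiS
    change (if v (x i) ≤ 1 then some (res v (x i)) else none) ∈ _
    by_cases hi : v (x i) ≤ 1
    · rw [if_pos hi]
      apply Finset.mem_insert_of_mem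
      apply Finset.mem_image_of_mem
      rw [Multiset.mem_toFinset, Polynomial.mem_roots hH0, Polynomial.IsRoot]
      obtain ⟨z, hz, hz'⟩ := res_spec v hi
      rw [hz']
      have h1 : H.eval (Ideal.Quotient.mk (mi v) z) = Ideal.Quotient.mk (mi v)
          (∑ m ∈ Finset.range (A + 1), b m * z ^ m) := by
        rw [hH, Polynomial.eval_finsetSum, map_sum]
        refine Finset.sum_congr rfl fun m _ => ?_
        rw [Polynomial.eval_mul, Polynomial.eval_C, Polynomial.eval_pow, Polynomial.eval_X,
          map_mul, map_pow]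
      rw [h1, Ideal.Quotient.eq_zero_iff_mem, ← v_lt_one_iff]
      have hz1 : v (z : M) ≤ 1 := H420R3.v_le_one v _
      have h2 := hS i hiS hi
      rw [Polynomial.eval_eq_sum_range' (Nat.lt_succ_of_le hA)] at h2
      have h5 : ((∑ m ∈ Finset.range (A + 1), b m * z ^ m : 𝓞 M) : M) =
          ∑ m ∈ Finset.range (A + 1), c.coeff m * x i ^ m -
            ∑ m ∈ Finset.range (A + 1), (c.coeff m * x i ^ m - (b m : M) * (z : M) ^ m) := by
        rw [← Finset.sum_sub_distrib]
        push_cast
        refine Finset.sum_congr rfl fun m _ => ?_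
        ring
      rw [h5]
      refine lt_of_le_of_lt (H627.LP.v_sub_le v _ _) (max_lt h2 ?_)
      refine v_sum_lt _ _ fun m _ => ?_
      refine mul_close (hb1 m) ?_ (hb m) (pow_close hi hz1 hz m)
      rw [map_pow]
      exact pow_le_one₀ (v_nonneg v _) hi
    · rw [if_neg hi]
      exact Finset.mem_insert_self _ _
  · intro i i' _ _ hκ
    have hηpos : 0 < Real.exp (-g') := Real.exp_pos _
    intro s t
    refine (wd_st (![x i, 1]) (![x i', 1]) s t).trans ?_
    have hwd : wd ![x i, 1] ![x i', 1] = x i - x i' := by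
      simp [wd]
    rw [hwd]
    have hn : ∀ j, v (x j) ≤ nmf v ![x j, 1] := fun j => le_nmf v ![x j, 1] 0
    have hn1 : ∀ j, 1 ≤ nmf v ![x j, 1] := fun j => by
      have h1 := le_nmf v ![x j, 1] 1
      simpa using h1
    by_cases hi : v (x i) ≤ 1
    · by_cases hi' : v (x i') ≤ 1
      · simp only [if_pos hi, if_pos hi', Option.some.injEq] at hκ
        have h1 := hcl i i' (res_eq v hi hi' hκ)
        refine h1.trans ?_
        have h2 : 1 ≤ nmf v ![x i, 1] * nmf v ![x i', 1] := one_le_mul_of_one_le_of_one_le (hn1 i)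
          (hn1 i')
        exact le_mul_of_one_le_right hηpos.le h2
      · simp [if_pos hi, if_neg hi'] at hκ
    · by_cases hi' : v (x i') ≤ 1
      · simp [if_neg hi, if_pos hi'] at hκ
      · push Not at hi hi'
        have hx0 : x i ≠ 0 := by
          intro h0
          rw [h0, map_zero] at hi
          linarith
        have hx0' : x i' ≠ 0 := by
          intro h0
          rw [h0, map_zero] at hi'
          linarith
        have h1 : x i - x i' = (x i * x i') * ((x i')⁻¹ - (x i)⁻¹) := by
          field_simp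
        have h2 : v ((x i')⁻¹ - (x i)⁻¹) < 1 := by
          refine lt_of_le_of_lt (H627.LP.v_sub_le v _ _) (max_lt ?_ ?_)
          · rw [map_inv₀]
            exact inv_lt_one_of_one_lt₀ hi'
          · rw [map_inv₀]
            exact inv_lt_one_of_one_lt₀ hi
        have h3 := hcl' i' i h2
        rw [h1, map_mul, map_mul, mul_comm]
        refine mul_le_mul h3 (mul_le_mul (hn i) (hn i') (v_nonneg v _) (nmf_nonneg v _)) ?_
          hηpos.le
        exact mul_nonneg (v_nonneg v _) (v_nonneg v _)

end

end Pool.Agent.NH29.AB
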