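import Mathlib
import Pool.Agent.NH29.AB.Cls
import Pool.Agent.R829.BH.Num

/-!
Numerical consequences of the two inequalities.
-/

set_option autoImplicit false
set_option linter.unusedSectionVars false

namespace Pool.Agent.NH29.AB

open NumberField Module
open Pool.Agent.W238.Leh
open Pool.Agent.H627.LP hiding det_ineq det_ineq' local_gain
open Pool.Agent.H627.LR (GR)
open Pool.Agent.H627.LU (Classes)
open Pool.Agent.H420R3 (mi nv TP ew)
open Pool.Agent.R829.BG hiding two_gain two_ineq classes_rel step_zero step_last core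
open Pool.Agent.R829.BH (Pr2)

noncomputable section

variable {K : Type} [Field K] [NumberField K] {L : Type} [Field L] [NumberField L] [Algebra K L]
variable {F : Fin (1 + 1) → MvPolynomial (Fin (1 + 1)) K} {d c a : ℕ} {A : ℝ}
variable {v₀ : FinitePlace K}

/-- **the gain**, if there is no relation -/
theorem gain [DecidableEq L] [IsGalois K L] (hB : Bds F d A a) (hd : 2 ≤ d) (hF : ∀ i, (F i).IsHomogeneous d)
    (hc : ∀ m, c + d ≤ m → ∀ p : MvPolynomial (Fin (1 + 1)) K, p.IsHomogeneous m →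
      p ∈ Ideal.span (Set.range F)) {σ : Gal(L/K)} (hcomm : ∀ g : Gal(L/K), g * σ = σ * g)
    {Z : Finset L} (hZ : ∀ g : Gal(L/K), ∀ z ∈ Z, g z ∈ Z)
    (hT : ∀ w ∈ TP L (mi v₀), GR w F d) {Q s : ℕ} {γ : ℝ} (hγ : 0 < γ)
    (Bad : FinitePlace L → Finset {z // z ∈ Z})
    (hpr : ∀ w ∈ TP L (mi v₀), ∀ z, z ∉ Bad w →
      Pr2 w Q (Real.exp (-(ew K w / γ))) ![z.1, 1] ![σ z.1, 1])
    (hw : ∀ z : {z // z ∈ Z}, (∑ w ∈ TP L (mi v₀), ew K w) / (2 * γ) ≤
      ∑ w ∈ TP L (mi v₀), if z ∉ Bad w then ew K w / γ else 0)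
    {H : ℝ} (hH : ∀ z ∈ Z, canH F d ![z, 1] ≤ H)
    (hno : ∀ P : Polynomial (Polynomial K), P.natDegree ≤ 16 * s → XD (Q * (16 * s)) P →
      (∀ z ∈ Z, ev z (σ z) P = 0) → P = 0)
    (hH1 : ((Q * (16 * s) : ℕ) + (16 * s : ℕ)) * H ≤ 1) :
    s * Real.log (mi v₀).absNorm / (4 * γ * finrank ℚ K) ≤
      1 + hC A a * (c + d : ℕ) * (1 + Nat.log 2 (Q * (16 * s)) : ℕ) +
      hC A a * (c + d : ℕ) * (1 + Nat.log 2 (16 * s) : ℕ) +
        Real.log (((Q * (16 * s) + 1) * (16 * s + 1) : ℕ)) := by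
  obtain ⟨b, hb⟩ : ∃ b, b = 16 * s := ⟨_, rfl⟩
  obtain ⟨α, hα⟩ : ∃ α, α = Q * (16 * s) := ⟨_, rfl⟩
  rw [← hα, ← hb] at hno
  have hp : ∀ z : {z // z ∈ Z}, (![z.1, 1] : Fin (1 + 1) → L) ≠ 0 := by
    intro i h0
    have := congrFun h0 1
    simp at this
  have hp' : ∀ z : {z // z ∈ Z}, (![σ z.1, 1] : Fin (1 + 1) → L) ≠ 0 := by
    intro i h0
    have := congrFun h0 1
    simp at this
  have hr := full_rank hcomm hZ hno
  obtain ⟨r, hrdef⟩ : ∃ r, r = (α + 1) * (b + 1) := ⟨_, rfl⟩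
  have hmain := two_ineq' hB hd hF hc hp hp' (Q := Q) (TP L (mi v₀)) hT
    (fun w => ew K w / γ) (fun w _ => div_pos (H420R3.ew_pos w) hγ) Bad hpr hw
    (fun z => hH z.1 z.2) (fun z => hH _ (hZ σ z.1 z.2)) α b s
    (by
      rw [hr]
      have : 0 < (α + 1) * (b + 1) := by positivity
      omega)
  rw [hr, ← hrdef] at hmain
  rw [← hα, ← hb] at hH1 ⊢
  rw [← hrdef]
  obtain ⟨W, hW⟩ : ∃ W, W = ∑ w ∈ TP L (mi v₀), ew K w := ⟨_, rfl⟩
  have hsumg : ∑ w ∈ TP L (mi v₀), ew K w / γ = W / γ := by rw [hW, Finset.sum_div]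
  rw [hsumg, ← hW] at hmain
  have hWeq : W = (finrank K L : ℝ) * Real.log (mi v₀).absNorm := by
    rw [hW]
    exact H420R3.sum_ew (H420R3.mi_ne_bot v₀)
  have h2 : 4 * (2 * s * (α + Q * b + 1)) ≤ r := by
    rw [hrdef, hα, hb]
    nlinarith [Nat.zero_le (Q * s), Nat.zero_le s, Nat.zero_le (Q * s * s)]
  have h2' : 4 * ((2 * s * (α + Q * b + 1) : ℕ) : ℝ) ≤ r := by exact_mod_cast h2
  have hr0 : (0 : ℝ) < r := by
    have : 0 < r := by
      rw [hrdef]
      positivity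
    exact_mod_cast this
  have hDL := finrank_pos' (L := L)
  have hDK := finrank_pos' (L := K)
  have hD0 : (0 : ℝ) < finrank K L := by exact_mod_cast (finrank_pos : 0 < finrank K L)
  have htow : (finrank ℚ L : ℝ) = finrank ℚ K * finrank K L := by
    exact_mod_cast (finrank_mul_finrank ℚ K L).symm
  have hW0 : 0 ≤ W := by
    rw [hW]
    exact Finset.sum_nonneg fun w _ => (H420R3.ew_pos w).le
  have hs0 : (0 : ℝ) ≤ s := Nat.cast_nonneg _
  have h4 : (s : ℝ) * (W / γ) * (r / 4) ≤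
      s * (r * (W / (2 * γ)) - W / γ * (2 * s * (α + Q * b + 1) : ℕ)) := by
    rw [mul_assoc]
    apply mul_le_mul_of_nonneg_left _ hs0
    have h5 : 0 ≤ W / γ := div_nonneg hW0 hγ.le
    have h6 : W / (2 * γ) = (W / γ) / 2 := by
      field_simp
    rw [h6]
    have h7 := mul_le_mul_of_nonneg_left h2' h5
    nlinarith
  have h5 := h4.trans hmain
  have h6 : (s : ℝ) * (W / γ) * (r / 4) = r * (s * W / (4 * γ)) := by
    field_simp
  rw [h6] at h5
  have h7 : (r : ℝ) * (s * W / (4 * γ)) ≤ r * (finrank ℚ L * ((α + b) * H +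
      hC A a * ((c + d : ℕ) * (1 + Nat.log 2 α : ℕ)) +
      hC A a * ((c + d : ℕ) * (1 + Nat.log 2 b : ℕ)) + Real.log r)) := by
    refine h5.trans (le_of_eq ?_)
    ring
  have h8 := le_of_mul_le_mul_left h7 hr0
  rw [hWeq, htow] at h8
  have h9 : (finrank K L : ℝ) * (s * Real.log (mi v₀).absNorm / (4 * γ)) ≤
      finrank K L * (finrank ℚ K * ((α + b) * H +
      hC A a * ((c + d : ℕ) * (1 + Nat.log 2 α : ℕ)) +
      hC A a * ((c + d : ℕ) * (1 + Nat.log 2 b : ℕ)) + Real.log r)) := by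
    calc _ = s * (finrank K L * Real.log (mi v₀).absNorm) / (4 * γ) := by ring
      _ ≤ _ := h8
      _ = _ := by ring
  have h10 := le_of_mul_le_mul_left h9 hD0
  have h11 : s * Real.log (mi v₀).absNorm / (4 * γ * finrank ℚ K) =
      (s * Real.log (mi v₀).absNorm / (4 * γ)) / finrank ℚ K := by
    rw [div_div]
  rw [h11, div_le_iff₀ hDK]
  refine h10.trans ?_
  rw [mul_comm]
  apply mul_le_mul_of_nonneg_right _ hDK.le
  have h12 : hC A a * (((c + d : ℕ) : ℝ) * ((1 + Nat.log 2 α : ℕ) : ℝ)) =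
      hC A a * ((c + d : ℕ) : ℝ) * ((1 + Nat.log 2 α : ℕ) : ℝ) := by ring
  have h13 : hC A a * (((c + d : ℕ) : ℝ) * ((1 + Nat.log 2 b : ℕ) : ℝ)) =
      hC A a * ((c + d : ℕ) : ℝ) * ((1 + Nat.log 2 b : ℕ) : ℝ) := by ring
  rw [h12, h13]
  linarith

/-- **few residue classes**: impossible for many small points -/
theorem few [DecidableEq L] (hB : Bds F d A a) (hd : 2 ≤ d) (hF : ∀ i, (F i).IsHomogeneous d)
    (hc : ∀ m, c + d ≤ m → ∀ p : MvPolynomial (Fin (1 + 1)) K, p.IsHomogeneous m →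
      p ∈ Ideal.span (Set.range F))
    (hT : ∀ w ∈ TP L (mi v₀), GR w F d) {Z : Finset L}
    {e : ℝ} (he : 0 < e) (S : FinitePlace L → Finset {z // z ∈ Z}) {t : ℕ} (ht : 1 ≤ t)
    (hcl : ∀ w ∈ TP L (mi v₀), Classes w (fun z : {z // z ∈ Z} => ![z.1, 1]) (S w) t (ew K w / e))
    (hw : ∀ z : {z // z ∈ Z}, (∑ w ∈ TP L (mi v₀), ew K w) / (2 * e) ≤
      ∑ w ∈ TP L (mi v₀), if z ∉ S w then ew K w / e else 0)
    {H : ℝ} (hH : ∀ z ∈ Z, canH F d ![z, 1] ≤ H) (hH0 : 0 ≤ H) {ω : ℝ}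
    (hω : ω = Real.log (mi v₀).absNorm / (e * finrank ℚ K)) (hH1 : 128 * t * H ≤ ω)
    (hZt : 8 * t ≤ Z.card)
    (hs : hC A a * (c + d : ℕ) * (1 + Nat.log 2 Z.card : ℕ) +
      Real.log Z.card < ω / (128 * t) * Z.card) : False := by
  obtain ⟨r, hr⟩ : ∃ r, r = Z.card := ⟨_, rfl⟩
  rw [← hr] at hZt hs
  have hr1 : 1 ≤ r := by omega
  have hp : ∀ z : {z // z ∈ Z}, (![z.1, 1] : Fin (1 + 1) → L) ≠ 0 := by
    intro i h0
    have := congrFun h0 1
    simp at this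
  have hp1 : ∀ z : {z // z ∈ Z}, (![z.1, 1] : Fin (1 + 1) → L) 1 = 1 := fun i => rfl
  have hinj' : Function.Injective (fun z : {z // z ∈ Z} => (![z.1, 1] : Fin (1 + 1) → L)) := by
    intro i j hij
    apply Subtype.ext
    exact congrFun hij 0
  have hcard : Fintype.card {z // z ∈ Z} = r := by rw [hr, Fintype.card_coe]
  have hfr : finrank L (EL K (fun z : {z // z ∈ Z} => (![z.1, 1] : Fin (1 + 1) → L)) (r - 1)) =
      r := by
    have h1 := (Pool.Agent.R829.DL.growth_line (K := K) hp1 hinj' (m := r - 1) (by omega)).1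
    omega
  obtain ⟨s, hsdef⟩ : ∃ s, s = r / (8 * t) := ⟨_, rfl⟩
  have hfs : finrank L (EL K (fun z : {z // z ∈ Z} => (![z.1, 1] : Fin (1 + 1) → L)) (1 * s)) ≤
      s + 1 := by
    have := finrank_EL_le (K := K) hp1 (1 * s)
    rw [pow_one, one_mul] at this
    rw [one_mul]
    exact this
  have hmain := Pool.Agent.H627.LU.hilb_ineq hB hd hF hc hp (TP L (mi v₀)) hT
    (fun w => ew K w / e) (fun w _ => div_pos (H420R3.ew_pos w) he) S (t := t) hcl
    hw (fun z => hH z.1 z.2) (r - 1) s (by rw [hfr]; omega)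
  rw [hfr] at hmain
  -- the parameter
  have h1 : s * (8 * t) ≤ r := hsdef ▸ Nat.div_mul_le_self r (8 * t)
  have h2 : r < (s + 1) * (8 * t) := by
    rw [hsdef]
    have := Nat.lt_div_mul_add (a := r) (b := 8 * t) (by omega)
    calc r < r / (8 * t) * (8 * t) + 8 * t := this
      _ = _ := by ring
  have hs1 : 1 ≤ s := by
    rw [hsdef, Nat.le_div_iff_mul_le (by omega)]
    omega
  have h3 : r ≤ 16 * t * s := by
    have : (s + 1) * (8 * t) ≤ (2 * s) * (8 * t) := Nat.mul_le_mul_right _ (by omega)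
    calc r ≤ (2 * s) * (8 * t) := by omega
      _ = 16 * t * s := by ring
  have h4 : 4 * (t * (s + 1)) ≤ r := by
    have : 4 * (t * (s + 1)) ≤ s * (8 * t) := by nlinarith
    omega
  have hr0 : (0 : ℝ) < r := by exact_mod_cast hr1
  have ht0 : (0 : ℝ) < t := by exact_mod_cast ht
  have hs0 : (0 : ℝ) < s := by exact_mod_cast hs1
  have hDL := finrank_pos' (L := L)
  have hDK := finrank_pos' (L := K)
  have hD0 : (0 : ℝ) < finrank K L := by exact_mod_cast (finrank_pos : 0 < finrank K L)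
  have htow : (finrank ℚ L : ℝ) = finrank ℚ K * finrank K L := by
    exact_mod_cast (finrank_mul_finrank ℚ K L).symm
  obtain ⟨W, hW⟩ : ∃ W, W = ∑ w ∈ TP L (mi v₀), ew K w := ⟨_, rfl⟩
  have hsumg : ∑ w ∈ TP L (mi v₀), ew K w / e = W / e := by rw [hW, Finset.sum_div]
  rw [hsumg, ← hW] at hmain
  have hWeq : W = (finrank K L : ℝ) * Real.log (mi v₀).absNorm := by
    rw [hW]
    exact H420R3.sum_ew (H420R3.mi_ne_bot v₀)
  have hWω : W / e = finrank ℚ L * ω := by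
    rw [hWeq, hω, htow]
    field_simp
  have hlog : 0 < Real.log (mi v₀).absNorm := log_absNorm_pos (K := K) (H420R3.mi_ne_bot v₀)
  have hω0 : 0 < ω := by
    rw [hω]
    positivity
  have h4' : 4 * ((t : ℝ) * (s + 1)) ≤ r := by exact_mod_cast h4
  have h3' : (r : ℝ) ≤ 16 * t * s := by exact_mod_cast h3
  have hfs' : ((finrank L (EL K (fun z : {z // z ∈ Z} => (![z.1, 1] : Fin (1 + 1) → L))
      (1 * s)) : ℕ) : ℝ) ≤ s + 1 := by exact_mod_cast hfs
  have h5 : (s : ℝ) * (finrank ℚ L * ω * (r / 4)) ≤ s * (r * (W / (2 * e)) -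
      W / e * (t * (finrank L (EL K (fun z : {z // z ∈ Z} =>
      (![z.1, 1] : Fin (1 + 1) → L)) (1 * s)) : ℕ))) := by
    apply mul_le_mul_of_nonneg_left _ hs0.le
    have h6 : (t : ℝ) * (finrank L (EL K (fun z : {z // z ∈ Z} =>
      (![z.1, 1] : Fin (1 + 1) → L)) (1 * s)) : ℕ) ≤ r / 4 := by
      have := mul_le_mul_of_nonneg_left hfs' ht0.le
      linarith
    have h6' : W / (2 * e) = (W / e) / 2 := by
      field_simp
    rw [h6', hWω]
    have h7 := mul_le_mul_of_nonneg_left h6 (mul_pos hDL hω0).le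
    linarith
  have h7 := h5.trans hmain
  have h7' : (finrank ℚ L : ℝ) * (r * (s * ω / 4)) ≤ finrank ℚ L * (r * ((r - 1 : ℕ) * H +
      hC A a * ((c + d : ℕ) * (1 + Nat.log 2 (r - 1) : ℕ)) + Real.log r)) := by
    refine le_trans (le_of_eq ?_) h7
    ring
  have h8 := le_of_mul_le_mul_left h7' hDL
  have h9 := le_of_mul_le_mul_left h8 hr0
  have h10 : (Nat.log 2 (r - 1) : ℝ) ≤ Nat.log 2 r := by
    exact_mod_cast Nat.log_mono_right (by omega)
  have hE : 0 ≤ hC A a * ((c + d : ℕ) : ℝ) := mul_nonneg hB.hC_nonneg (Nat.cast_nonneg _)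
  have h11 : hC A a * (((c + d : ℕ) : ℝ) * ((1 + Nat.log 2 (r - 1) : ℕ) : ℝ)) ≤
      hC A a * (c + d : ℕ) * (1 + Nat.log 2 r : ℕ) := by
    rw [← mul_assoc]
    apply mul_le_mul_of_nonneg_left _ hE
    push_cast
    linarith
  have h12 : ((r - 1 : ℕ) : ℝ) * H ≤ r * H := by
    apply mul_le_mul_of_nonneg_right _ hH0
    exact_mod_cast Nat.sub_le _ _
  have h13 : r * H ≤ ω / (128 * t) * r := by
    have : H ≤ ω / (128 * t) := by
      rw [le_div_iff₀ (by positivity)]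
      linarith
    rw [mul_comm]
    exact mul_le_mul_of_nonneg_right this hr0.le
  have h14 : ω / (64 * t) * r ≤ s * ω / 4 := by
    rw [div_mul_eq_mul_div, div_le_iff₀ (by positivity)]
    have := mul_le_mul_of_nonneg_left h3' hω0.le
    nlinarith
  have h15 : ω / (64 * t) * r = ω / (128 * t) * r + ω / (128 * t) * r := by
    field_simp
    norm_num
  linarith

end

end Pool.Agent.NH29.AB
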