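import Mathlib
import Pool.Agent.NH29.AB.Num
import Pool.Agent.R829.BH.Orbs

/-!
The orbit of a point which generates a Galois extension: iterates as fractions, numbers of
conjugates.
-/

set_option autoImplicit false
set_option linter.unusedSectionVars false

namespace Pool.Agent.NH29.AB

open NumberField Module Polynomial
open Pool.Agent.W238.Leh
open Pool.Agent.H627.LP hiding det_ineq det_ineq' local_gain
open Pool.Agent.H420R3 (mi nv TP ew)
open Pool.Agent.R829.BG hiding two_gain two_ineq classes_rel step_zero step_last core step_of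
  exists_orb
open Pool.Agent.R829.BH (exists_orb canH_vec)

noncomputable section

variable {K : Type} [Field K] [NumberField K] {L : Type} [Field L] [NumberField L] [Algebra K L]
variable {F : Fin (1 + 1) → MvPolynomial (Fin (1 + 1)) K} {d c a : ℕ} {A : ℝ}

/-- the forms of the iterates -/
def itF (F : Fin (1 + 1) → MvPolynomial (Fin (1 + 1)) K) : ℕ → Fin (1 + 1) →
    MvPolynomial (Fin (1 + 1)) K
  | 0 => MvPolynomial.X
  | n + 1 => fun i => MvPolynomial.bind₁ (itF F n) (F i)

lemma act_itF (n : ℕ) (z : Fin (1 + 1) → L) : act (itF F n) z = (act F)^[n] z := by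
  induction n with
  | zero =>
    funext i
    simp [act, itF]
  | succ n ih =>
    rw [Function.iterate_succ_apply', ← ih]
    funext i
    simp only [act, itF, MvPolynomial.aeval_bind₁]
    rfl

lemma itF_hom (hF : ∀ i, (F i).IsHomogeneous d) (n : ℕ) (i : Fin (1 + 1)) :
    (itF F n i).IsHomogeneous (d ^ n) := by
  induction n generalizing i with
  | zero =>
    rw [pow_zero]
    exact MvPolynomial.isHomogeneous_X _ _
  | succ n ih =>
    have h1 := (hF i).aeval (R := K) (itF F n) ih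
    have h2 : d ^ n * d = d ^ (n + 1) := (pow_succ d n).symm
    rw [h2] at h1
    exact h1

/-- numerator and denominator of the iterates -/
def nf (F : Fin (1 + 1) → MvPolynomial (Fin (1 + 1)) K) (n : ℕ) : K[X] := dh 1 (itF F n 0)

/-- numerator and denominator of the iterates -/
def df (F : Fin (1 + 1) → MvPolynomial (Fin (1 + 1)) K) (n : ℕ) : K[X] := dh 1 (itF F n 1)

lemma natDegree_nf (hF : ∀ i, (F i).IsHomogeneous d) (n : ℕ) : (nf F n).natDegree ≤ d ^ n :=
  dh_natDegree 1 (itF_hom hF n 0)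

lemma natDegree_df (hF : ∀ i, (F i).IsHomogeneous d) (n : ℕ) : (df F n).natDegree ≤ d ^ n :=
  dh_natDegree 1 (itF_hom hF n 1)

lemma aeval_dh (φ : MvPolynomial (Fin (1 + 1)) K) (z : L) :
    aeval z (dh 1 φ) = MvPolynomial.aeval ![z, 1] φ := by
  unfold dh
  have h1 : aeval z (MvPolynomial.aeval (fun t => if t = 1 then
      (1 : K[X]) else X) φ) =
      MvPolynomial.aeval (fun t => aeval z (if t = 1 then (1 : K[X]) else X)) φ :=
    MvPolynomial.comp_aeval_apply _ (aeval z) φ
  rw [h1]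
  congr 2
  funext t
  fin_cases t <;> simp

lemma aeval_nf (n : ℕ) (z : L) : aeval z (nf F n) = (act F)^[n] ![z, 1] 0 := by
  rw [nf, aeval_dh, ← act_itF]
  rfl

lemma aeval_df (n : ℕ) (z : L) : aeval z (df F n) = (act F)^[n] ![z, 1] 1 := by
  rw [df, aeval_dh, ← act_itF]
  rfl

/-- iterates of the affine representative -/
lemma iter_vec (hF : ∀ i, (F i).IsHomogeneous d) {x : Fin (1 + 1) → L} {i : ℕ}
    (hi : i ∈ JJ F x) (n : ℕ) : ∃ b : L, b ≠ 0 ∧
      (act F)^[n] ![ax F x i, 1] = b • (act F)^[i + n] x := by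
  have hi' : ((act F)^[i] x) 1 ≠ 0 := hi
  rw [ax_vec hi]
  obtain ⟨b, hb, h⟩ := iter_smul hF (inv_ne_zero hi') ((act F)^[i] x) n
  refine ⟨b, hb, ?_⟩
  rw [h, ← Function.iterate_add_apply, Nat.add_comm n i]

lemma step_ax (hF : ∀ i, (F i).IsHomogeneous d) {x : Fin (1 + 1) → L} {i n : ℕ}
    (hi : i ∈ JJ F x) (hin : i + n ∈ JJ F x) : aeval (ax F x i) (df F n) ≠ 0 ∧
      ax F x (i + n) = aeval (ax F x i) (nf F n) / aeval (ax F x i) (df F n) := by
  obtain ⟨b, hb, h⟩ := iter_vec hF hi n
  have hin' : ((act F)^[i + n] x) 1 ≠ 0 := hin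
  have h0 : aeval (ax F x i) (nf F n) = b * ((act F)^[i + n] x) 0 := by
    rw [aeval_nf, h]
    rfl
  have h1 : aeval (ax F x i) (df F n) = b * ((act F)^[i + n] x) 1 := by
    rw [aeval_df, h]
    rfl
  refine ⟨by rw [h1]; exact mul_ne_zero hb hin', ?_⟩
  rw [h0, h1, mul_div_mul_left _ _ hb]
  rfl

lemma infty_unique (hB : Bds F d A a) (hF : ∀ i, (F i).IsHomogeneous d)
    {x : Fin (1 + 1) → L} (hx : x ≠ 0) (hw : Wnd F x) {i j : ℕ} (hi : i ∉ JJ F x)
    (hj : j ∉ JJ F x) : i = j :=
  (exists_orb hB hF hx hw (AlgHom.id K L) (AlgHom.id K L)).miss i j hi hj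

/-- proportional iterates are equal -/
lemma ax_ne (hB : Bds F d A a) {x : Fin (1 + 1) → L} (hx : x ≠ 0)
    (hw : Wnd F x) {i j : ℕ} (hij : i ≠ j)
    (h : ((act F)^[i] x) 0 * ((act F)^[j] x) 1 = ((act F)^[j] x) 0 * ((act F)^[i] x) 1) :
    False := by
  have hX : ∀ i, (act F)^[i] x ≠ 0 := fun i => hB.iter_ne_zero hx i
  by_cases hj : ((act F)^[j] x) 1 = 0
  · have hj0 : ((act F)^[j] x) 0 ≠ 0 := by
      intro h0
      apply hX j
      funext t
      fin_cases t
      · exact h0
      · exact hj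
    rw [hj, mul_zero] at h
    have hi : ((act F)^[i] x) 1 = 0 := by
      rcases mul_eq_zero.mp h.symm with h1 | h1
      · exact absurd h1 hj0
      · exact h1
    have hi0 : ((act F)^[i] x) 0 ≠ 0 := by
      intro h0
      apply hX i
      funext t
      fin_cases t
      · exact h0
      · exact hi
    refine hw ⟨j, i, hij.symm, ((act F)^[i] x) 0 / ((act F)^[j] x) 0, div_ne_zero hi0 hj0, ?_⟩
    funext t
    fin_cases t
    · change ((act F)^[i] x) 0 = ((act F)^[i] x) 0 / ((act F)^[j] x) 0 * ((act F)^[j] x) 0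
      rw [div_mul_cancel₀ _ hj0]
    · change ((act F)^[i] x) 1 = ((act F)^[i] x) 0 / ((act F)^[j] x) 0 * ((act F)^[j] x) 1
      rw [hi, hj, mul_zero]
  · have hi : ((act F)^[i] x) 1 ≠ 0 := by
      intro hi
      rw [hi, mul_zero] at h
      have h0 : ((act F)^[i] x) 0 = 0 := (mul_eq_zero.mp h).resolve_right hj
      apply hX i
      funext t
      fin_cases t
      · exact h0
      · exact hi
    refine hw ⟨j, i, hij.symm, ((act F)^[i] x) 1 / ((act F)^[j] x) 1, div_ne_zero hi hj, ?_⟩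
    funext t
    fin_cases t
    · change ((act F)^[i] x) 0 = ((act F)^[i] x) 1 / ((act F)^[j] x) 1 * ((act F)^[j] x) 0
      field_simp
      linear_combination h
    · change ((act F)^[i] x) 1 = ((act F)^[i] x) 1 / ((act F)^[j] x) 1 * ((act F)^[j] x) 1
      rw [div_mul_cancel₀ _ hj]

/-- the point generates the extension -/
def Gen (K : Type) [Field K] {L : Type} [Field L] [Algebra K L] (x : Fin (1 + 1) → L) : Prop :=
  ∀ g : Gal(L/K), (∃ b : L, (fun t => g (x t)) = b • x) → g = 1

/-- the conjugates of an element -/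
def cj (K : Type) [Field K] {L : Type} [Field L] [NumberField L] [Algebra K L]
    [DecidableEq L] [Fintype Gal(L/K)] (z : L) : Finset L :=
  Finset.univ.image fun g : Gal(L/K) => g z

section Conj

variable [DecidableEq L] [Fintype Gal(L/K)]

lemma mem_cj {z y : L} : y ∈ cj K z ↔ ∃ g : Gal(L/K), g z = y := by
  simp [cj]

lemma self_mem_cj (z : L) : z ∈ cj K z := mem_cj.mpr ⟨1, rfl⟩

lemma cj_stable (z : L) (g : Gal(L/K)) {y : L} (hy : y ∈ cj K z) : g y ∈ cj K z := by
  obtain ⟨h, rfl⟩ := mem_cj.mp hy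
  exact mem_cj.mpr ⟨g * h, rfl⟩

/-- a nonzero polynomial over the base field with root `z` has all the conjugates as roots -/
lemma card_cj_le {z : L} {R : K[X]} (hR : R ≠ 0) (hz : aeval z R = 0) :
    (cj K z).card ≤ R.natDegree := by
  have h1 : cj K z ⊆ (R.map (algebraMap K L)).roots.toFinset := by
    intro y hy
    obtain ⟨g, rfl⟩ := mem_cj.mp hy
    rw [Multiset.mem_toFinset, mem_roots (by
      rwa [Ne, Polynomial.map_eq_zero]), IsRoot, eval_map_algebraMap]
    have h2 : aeval (g z) R = g (aeval z R) :=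
      aeval_algHom_apply (g : L →ₐ[K] L) z R
    rw [h2, hz, map_zero]
  refine (Finset.card_le_card h1).trans ((Multiset.toFinset_card_le _).trans ?_)
  refine (card_roots' _).trans ?_
  rw [natDegree_map]

/-- **Bezout** for relations -/
lemma dvd_of_ev {σ : Gal(L/K)} {z : L} {G H : K[X][X]} (hG : Irreducible G) {a b a' b' : ℕ}
    (hGa : XD a G) (hGb : G.natDegree ≤ b) (hHa : XD a' H) (hHb : H.natDegree ≤ b')
    (h1 : ev z (σ z) G = 0) (h2 : ev z (σ z) H = 0)
    (hD : b * a' + b' * a + a < (cj K z).card) : G ∣ H := by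
  by_contra hdvd
  obtain ⟨R, hR0, hRd, U, V, hUV⟩ := bez hG hdvd hGa hGb hHa hHb
  have h3 := congrArg (ev z (σ z)) hUV
  rw [map_add, map_mul, map_mul, h1, h2, mul_zero, mul_zero, add_zero, ev_C] at h3
  have := card_cj_le (K := K) hR0 h3.symm
  omega

variable [IsGalois K L]

/-- an upper bound for the degree by the number of conjugates of an iterate -/
lemma card_conj (hB : Bds F d A a) (hF : ∀ i, (F i).IsHomogeneous d) (hd : 2 ≤ d)
    {x : Fin (1 + 1) → L} (hx : x ≠ 0) (hw : Wnd F x) (hgen : Gen K x)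
    (h0 : 0 ∈ JJ F x) {i : ℕ} (hi : i ∈ JJ F x) :
    finrank K L ≤ d ^ i * (cj K (ax F x i)).card := by
  classical
  have hG : finrank K L = (Finset.univ : Finset Gal(L/K)).card := by
    rw [← IsGalois.card_aut_eq_finrank K L, Nat.card_eq_fintype_card, Finset.card_univ]
  rw [hG, cj]
  refine Finset.card_le_mul_card_image _ _ fun y hy => ?_
  obtain ⟨g₀, _, rfl⟩ := Finset.mem_image.mp hy
  -- the polynomial
  set Φ : L[X] := (nf F i).map (algebraMap K L) - C (ax F x i) * (df F i).map (algebraMap K L)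
    with hΦ
  have hΦd : Φ.natDegree ≤ d ^ i := by
    refine (natDegree_sub_le _ _).trans (max_le (natDegree_map_le.trans (natDegree_nf hF i)) ?_)
    exact (natDegree_C_mul_le _ _).trans (natDegree_map_le.trans (natDegree_df hF i))
  have hΦe : ∀ z : L, Φ.eval z = aeval z (nf F i) - ax F x i * aeval z (df F i) := by
    intro z
    rw [hΦ, eval_sub, eval_mul, eval_C, eval_map_algebraMap, eval_map_algebraMap]
  have hΦ0 : Φ ≠ 0 := by
    intro hz
    obtain ⟨k, hk1, hk⟩ : ∃ k, 1 ≤ k ∧ k ∈ JJ F x := by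
      by_cases h1 : 1 ∈ JJ F x
      · exact ⟨1, le_rfl, h1⟩
      · refine ⟨2, by norm_num, ?_⟩
        by_contra h2
        have := infty_unique hB hF hx hw h1 h2
        omega
    have h1 := hΦe (ax F x k)
    rw [hz, eval_zero] at h1
    obtain ⟨b, hb, h2⟩ := iter_vec hF hk i
    rw [aeval_nf, aeval_df, h2] at h1
    have hi' : ((act F)^[i] x) 1 ≠ 0 := hi
    refine ax_ne hB hx hw (i := k + i) (j := i) (by omega) ?_
    have h3 : ax F x i * ((act F)^[i] x) 1 = ((act F)^[i] x) 0 := div_mul_cancel₀ _ hi'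
    rw [← h3]
    simp only [Pi.smul_apply, smul_eq_mul] at h1
    have h4 : b * (((act F)^[k + i] x) 0 - ax F x i * ((act F)^[k + i] x) 1) = 0 := by
      linear_combination -h1
    rcases mul_eq_zero.mp h4 with h5 | h5
    · exact absurd h5 hb
    · linear_combination ((act F)^[i] x) 1 * h5
  refine le_trans ?_ ((card_roots' Φ).trans hΦd)
  refine le_trans ?_ (Multiset.toFinset_card_le _)
  refine Finset.card_le_card_of_injOn (fun g : Gal(L/K) => (g₀⁻¹ * g) (ax F x 0)) ?_ ?_
  · intro g hg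
    have h1 : g (ax F x i) = g₀ (ax F x i) := (Finset.mem_filter.mp hg).2
    have h2 : (g₀⁻¹ * g) (ax F x i) = ax F x i := by
      rw [AlgEquiv.mul_apply, h1, ← AlgEquiv.mul_apply, inv_mul_cancel]
      rfl
    rw [Finset.mem_coe, Multiset.mem_toFinset, mem_roots hΦ0, IsRoot, hΦe]
    have h3 : ∀ R : K[X], aeval ((g₀⁻¹ * g) (ax F x 0)) R = (g₀⁻¹ * g) (aeval (ax F x 0) R) :=
      fun R => aeval_algHom_apply ((g₀⁻¹ * g : Gal(L/K)) : L →ₐ[K] L) _ R
    rw [h3, h3]
    obtain ⟨h4, h5⟩ := step_ax hF h0 (n := i) (by rwa [zero_add])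
    rw [zero_add] at h5
    have h6 : aeval (ax F x 0) (nf F i) = ax F x i * aeval (ax F x 0) (df F i) := by
      rw [h5, div_mul_cancel₀ _ h4]
    rw [h6, map_mul, h2, sub_self]
  · intro g _ g' _ h
    have h1 : (g₀⁻¹ * g) (ax F x 0) = (g₀⁻¹ * g') (ax F x 0) := h
    have h2 : g (ax F x 0) = g' (ax F x 0) := by
      rw [AlgEquiv.mul_apply, AlgEquiv.mul_apply] at h1
      exact g₀⁻¹.injective h1
    have h3 : (g'⁻¹ * g) (ax F x 0) = ax F x 0 := by
      rw [AlgEquiv.mul_apply, h2, ← AlgEquiv.mul_apply, inv_mul_cancel]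
      rfl
    have h0' : x 1 ≠ 0 := h0
    have h4 : g'⁻¹ * g = 1 := by
      apply hgen
      refine ⟨(g'⁻¹ * g) (x 1) / x 1, ?_⟩
      have h5 : ax F x 0 * x 1 = x 0 := div_mul_cancel₀ _ h0'
      funext t
      fin_cases t
      · change (g'⁻¹ * g) (x 0) = (g'⁻¹ * g) (x 1) / x 1 * x 0
        rw [← h5, map_mul, h3]
        field_simp
      · change (g'⁻¹ * g) (x 1) = (g'⁻¹ * g) (x 1) / x 1 * x 1
        rw [div_mul_cancel₀ _ h0']
    exact (inv_mul_eq_one.mp h4).symm

/-- the first iterates are finite -/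
lemma mem_JJ (hB : Bds F d A a) (hF : ∀ i, (F i).IsHomogeneous d) (hd : 2 ≤ d)
    {x : Fin (1 + 1) → L} (hx : x ≠ 0) (hw : Wnd F x) (hgen : Gen K x) {i : ℕ}
    (hD : d ^ i < finrank K L) : i ∈ JJ F x := by
  classical
  have hG : finrank K L = (Finset.univ : Finset Gal(L/K)).card := by
    rw [← IsGalois.card_aut_eq_finrank K L, Nat.card_eq_fintype_card, Finset.card_univ]
  have hd1 : 1 ≤ d ^ i := Nat.one_le_pow _ _ (by omega)
  have h0 : 0 ∈ JJ F x := by
    intro h1
    have h1' : x 1 = 0 := h1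
    have hx0 : x 0 ≠ 0 := by
      intro h
      apply hx
      funext t
      fin_cases t
      · exact h
      · exact h1'
    have h2 : ∀ g : Gal(L/K), g = 1 := by
      intro g
      apply hgen
      refine ⟨g (x 0) / x 0, ?_⟩
      funext t
      fin_cases t
      · change g (x 0) = g (x 0) / x 0 * x 0
        rw [div_mul_cancel₀ _ hx0]
      · change g (x 1) = g (x 0) / x 0 * x 1
        rw [h1', map_zero, mul_zero]
    have h3 : (Finset.univ : Finset Gal(L/K)).card ≤ 1 :=
      Finset.card_le_one.mpr fun g _ g' _ => (h2 g).trans (h2 g').symm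
    omega
  by_contra hi
  have h0i : i ≠ 0 := by
    rintro rfl
    exact hi h0
  -- the denominator has many roots
  have hdf0 : df F i ≠ 0 := by
    intro hz
    obtain ⟨k, hk1, hk⟩ : ∃ k, 1 ≤ k ∧ k ∈ JJ F x := by
      by_cases h1 : 1 ∈ JJ F x
      · exact ⟨1, le_rfl, h1⟩
      · refine ⟨2, by norm_num, ?_⟩
        by_contra h2
        have := infty_unique hB hF hx hw h1 h2
        omega
    obtain ⟨b, hb, h2⟩ := iter_vec hF hk i
    have h3 := aeval_df (F := F) i (ax F x k)
    rw [hz, map_zero, h2] at h3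
    have h4 : ((act F)^[k + i] x) 1 = 0 := by
      rcases mul_eq_zero.mp h3.symm with h5 | h5
      · exact absurd h5 hb
      · exact h5
    have h5 := infty_unique hB hF hx hw hi (show k + i ∉ JJ F x from fun h => h h4)
    omega
  have hroot : aeval (ax F x 0) (df F i) = 0 := by
    obtain ⟨b, hb, h2⟩ := iter_vec hF h0 i
    rw [aeval_df, h2, zero_add]
    have h3 : ((act F)^[i] x) 1 = 0 := by
      by_contra h
      exact hi h
    simp only [Pi.smul_apply, smul_eq_mul]
    rw [h3, mul_zero]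
  have h1 := card_cj_le (K := K) hdf0 hroot
  have h2 := card_conj hB hF hd hx hw hgen h0 h0
  rw [pow_zero, one_mul] at h2
  have h3 := natDegree_df hF i
  omega

end Conj

end

end Pool.Agent.NH29.AB
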