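import Mathlib
import Pool.Agent.NH29.AB.Orb

/-!
Relations which are satisfied by infinitely many iterates.
-/

set_option autoImplicit false
set_option linter.unusedSectionVars false

namespace Pool.Agent.NH29.AB

open NumberField Module Polynomial
open Pool.Agent.W238.Leh
open Pool.Agent.H627.LP hiding det_ineq det_ineq' local_gain
open Pool.Agent.H420R3 (mi nv TP ew)
open Pool.Agent.R829.BG hiding two_gain two_ineq classes_rel step_zero step_last core step_of
  exists_orb
open Pool.Agent.R829.BH (exists_orb canH_vec)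

noncomputable section

variable {K : Type} [Field K] [NumberField K] {L : Type} [Field L] [NumberField L] [Algebra K L]

lemma exists_height_bound {R : K[X]} (hR : R ≠ 0) :
    ∃ B : ℝ, ∀ z : L, aeval z R = 0 → Height.logHeight₁ z ≤ B := by
  classical
  refine ⟨∑ z ∈ (R.map (algebraMap K L)).roots.toFinset, Height.logHeight₁ z, fun z hz => ?_⟩
  apply Finset.single_le_sum (f := fun z : L => Height.logHeight₁ z)
    (fun _ _ => Height.zero_le_logHeight₁ _)
  rw [Multiset.mem_toFinset, mem_roots (by rwa [Ne, Polynomial.map_eq_zero]), IsRoot,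
    eval_map_algebraMap]
  exact hz

/-- **the degrees of a relation** satisfied by pairs of points of the same large height -/
theorem deg_le' {T : K[X][X]} (hT : Irreducible T)
    (hh : ∀ B : ℝ, ∃ z y : L, ev z y T = 0 ∧ Height.logHeight₁ y = Height.logHeight₁ z ∧
      B < Height.logHeight₁ z) : XD T.natDegree T := by
  classical
  rw [XD_iff]
  change xd T ≤ _
  by_contra hcon
  push Not at hcon
  obtain ⟨a, ha⟩ : ∃ a, a = xd T := ⟨_, rfl⟩
  obtain ⟨b, hb⟩ : ∃ b, b = T.natDegree := ⟨_, rfl⟩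
  rw [← ha, ← hb] at hcon
  obtain ⟨t, ht⟩ : ∃ t, t = a * b := ⟨_, rfl⟩
  obtain ⟨n, hn⟩ : ∃ n, n = t + 1 + a := ⟨_, rfl⟩
  have hbt : b ≤ t := by
    rw [ht]
    exact Nat.le_mul_of_pos_left _ (by omega)
  have hTX : XD a T := XD_iff.mpr (le_of_eq ha.symm)
  -- the linear system
  set Ψ : ((Fin a × Fin (t + 1) → K) × (Fin a × Fin (t + 1) → K) ×
      (Fin n × Fin (t + 1 - b) → K)) →ₗ[K] (Fin (n + a) × Fin (t + 1) → K) :=
    { toFun := fun z ij => ((bp z.1 * C (X ^ n) - bp z.2.1 - T * bp z.2.2).coeff ij.2).coeff ij.1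
      map_add' := fun z z' => by
        funext ij
        simp only [Prod.fst_add, Prod.snd_add, bp_add, Pi.add_apply]
        rw [← coeff_add, ← coeff_add]
        congr 2
        ring
      map_smul' := fun m z => by
        funext ij
        simp only [Prod.smul_fst, Prod.smul_snd, bp_smul, Pi.smul_apply, RingHom.id_apply,
          smul_eq_mul]
        have h1 : C (C m) * bp z.1 * C (X ^ n) - C (C m) * bp z.2.1 - T * (C (C m) * bp z.2.2) =
            C (C m) * (bp z.1 * C (X ^ n) - bp z.2.1 - T * bp z.2.2) := by ring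
        rw [h1, coeff_C_mul, coeff_C_mul] } with hΨ
  have hker : LinearMap.ker Ψ ≠ ⊥ := by
    apply LinearMap.ker_ne_bot_of_finrank_lt
    simp only [finrank_prod, finrank_fintype_fun_eq_card, Fintype.card_prod, Fintype.card_fin]
    obtain ⟨t', ht'⟩ : ∃ t', t + 1 = t' + b := ⟨t + 1 - b, by omega⟩
    have h1 : t + 1 - b = t' := by omega
    rw [h1]
    have h2 : n * b < a * (t + 1) := by
      rw [hn, ht]
      obtain ⟨e, he⟩ : ∃ e, a = b + 1 + e := ⟨a - (b + 1), by omega⟩
      rw [he]
      nlinarith [Nat.zero_le e, Nat.zero_le b, mul_nonneg (Nat.zero_le e) (Nat.zero_le b)]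
    have h3 : (n + a) * (t + 1) = n * t' + n * b + a * (t + 1) := by
      rw [add_mul, ht']
      ring
    rw [h3]
    omega
  obtain ⟨⟨α, δ, β⟩, hz, hz0⟩ := (Submodule.ne_bot_iff _).mp hker
  rw [LinearMap.mem_ker] at hz
  set P : K[X][X] := bp α * C (X ^ n) - bp δ - T * bp β with hP
  have hcoef : ∀ (i j : ℕ), i < n + a → j < t + 1 → (P.coeff j).coeff i = 0 := by
    intro i j hi hj
    exact congrFun hz (⟨i, hi⟩, ⟨j, hj⟩)
  have hPX : XD (n + a - 1) P := by
    have h1 : XD ((a - 1) + n) (bp α * C (X ^ n) : K[X][X]) :=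
      (bp_XD α).mul (XD.C (natDegree_X_pow_le n))
    have h2 : XD (a + (n - 1)) (T * bp β) := hTX.mul (bp_XD β)
    exact ((h1.mono (by omega)).sub ((bp_XD δ).mono (by omega))).sub (h2.mono (by omega))
  have hPd : P.natDegree ≤ t := by
    refine (natDegree_sub_le _ _).trans (max_le ((natDegree_sub_le _ _).trans (max_le ?_ ?_)) ?_)
    · refine natDegree_mul_le.trans ?_
      rw [natDegree_C, add_zero]
      exact bp_natDegree α
    · exact bp_natDegree δ
    · rcases Nat.eq_zero_or_pos (t + 1 - b) with h0 | h0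
      · omega
      · refine natDegree_mul_le.trans ?_
        have := bp_natDegree β
        omega
  have hP0 : P = 0 := by
    ext j i
    rw [coeff_zero, coeff_zero]
    by_cases hj : j < t + 1
    · by_cases hi : i < n + a
      · exact hcoef i j hi hj
      · exact coeff_eq_zero_of_natDegree_lt (lt_of_le_of_lt (hPX j) (by omega))
    · rw [coeff_eq_zero_of_natDegree_lt (lt_of_le_of_lt hPd (by omega)), coeff_zero]
  -- `α` is not zero
  have hα : α ≠ 0 := by
    rintro rfl
    rw [hP, bp_zero, zero_mul, zero_sub] at hP0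
    have h1 : bp δ = T * (-bp β) := by linear_combination -hP0
    by_cases hβ : bp β = 0
    · have h2 : bp δ = 0 := by rw [h1, hβ, neg_zero, mul_zero]
      apply hz0
      rw [bp_eq_zero hβ, bp_eq_zero h2]
      rfl
    · have h2 := xd_mul hT.ne_zero (neg_ne_zero.mpr hβ)
      rw [← h1, ← ha] at h2
      have h3 : xd (bp δ) ≤ a - 1 := XD_iff.mp (bp_XD δ)
      omega
  have hα' : bp α ≠ 0 := fun h0 => hα (bp_eq_zero h0)
  have hnd : ¬ T ∣ bp α := by
    rintro ⟨Q, hQ⟩
    have hQ0 : Q ≠ 0 := by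
      rintro rfl
      exact hα' (by rw [hQ, mul_zero])
    have h2 := xd_mul hT.ne_zero hQ0
    rw [← hQ, ← ha] at h2
    have h3 : xd (bp α) ≤ a - 1 := XD_iff.mp (bp_XD α)
    omega
  obtain ⟨R, hR0, _, U, V, hUV⟩ := bez hT hnd hTX (le_of_eq hb.symm) (bp_XD α)
    (bp_natDegree α)
  obtain ⟨B₀, hB₀⟩ := exists_height_bound (L := L) hR0
  obtain ⟨C₀, hC₀⟩ := height_ineq a t n (by omega) (fun ij => algebraMap K L (δ ij))
    (fun ij => algebraMap K L (α ij))
  obtain ⟨z, y, h1, h2, h3⟩ := hh (max B₀ (max C₀ 0))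
  have h4 : B₀ < Height.logHeight₁ z := lt_of_le_of_lt (le_max_left _ _) h3
  have h5 : C₀ < Height.logHeight₁ z :=
    lt_of_le_of_lt ((le_max_left _ _).trans (le_max_right _ _)) h3
  have h6 : 0 < Height.logHeight₁ z :=
    lt_of_le_of_lt ((le_max_right _ _).trans (le_max_right _ _)) h3
  have hbp : ∀ u : Fin a × Fin (t + 1) → K,
      (bp (fun ij => algebraMap K L (u ij))).evalEval z y = ev z y (bp u) := by
    intro u
    rw [bp_evalEval, ev_bp]
  have hne : ev z y (bp α) ≠ 0 := by
    intro h0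
    have h7 := congrArg (ev z y) hUV
    rw [map_add, map_mul, map_mul, h1, h0, mul_zero, mul_zero, add_zero, ev_C] at h7
    have := hB₀ z h7.symm
    linarith
  have h7 : ev z y (bp δ) = ev z y (bp α) * z ^ n := by
    have h8 := congrArg (ev z y) hP0
    rw [hP, map_sub, map_sub, map_mul, map_mul, h1, zero_mul, ev_C, map_pow, aeval_X,
      map_zero, sub_zero] at h8
    linear_combination -h8
  have h8 := hC₀ z y (by rw [hbp]; exact hne) (by rw [hbp, hbp]; exact h7)
  rw [h2, hn] at h8
  have h9 : ((a - 1 : ℕ) : ℝ) ≤ a := by exact_mod_cast Nat.sub_le a 1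
  push_cast at h8
  have h10 := mul_le_mul_of_nonneg_right h9 h6.le
  nlinarith

section Periodic

variable {F : Fin (1 + 1) → MvPolynomial (Fin (1 + 1)) K} {d c a : ℕ} {A : ℝ}
variable [DecidableEq L] [Fintype Gal(L/K)]

lemma ev_step (hF : ∀ i, (F i).IsHomogeneous d) {x : Fin (1 + 1) → L} (σ : Gal(L/K))
    {m n : ℕ} (hm : m ∈ JJ F x) (hmn : m + n ∈ JJ F x) {G : K[X][X]} {α b : ℕ}
    (hα : XD α G) (hb : G.natDegree ≤ b) : ∃ u : L, u ≠ 0 ∧
      ev (ax F x m) (σ (ax F x m)) (subs (nf F n) (df F n) α b G) =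
        u * ev (ax F x (m + n)) (σ (ax F x (m + n))) G := by
  obtain ⟨h1, h2⟩ := step_ax hF hm hmn
  have h3 : ∀ R : K[X], aeval (σ (ax F x m)) R = σ (aeval (ax F x m) R) :=
    fun R => aeval_algHom_apply (σ : L →ₐ[K] L) _ R
  have h4 : aeval (σ (ax F x m)) (df F n) ≠ 0 := by
    rw [h3]
    exact (map_ne_zero σ).mpr h1
  refine ⟨(aeval (ax F x m) (df F n)) ^ α * (aeval (σ (ax F x m)) (df F n)) ^ b,
    mul_ne_zero (pow_ne_zero _ h1) (pow_ne_zero _ h4), ?_⟩
  rw [ev_subs hb hα h1 h4, ← h2, h3, h3, ← map_div₀, ← h2]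

/-- **the degrees of a periodic relation** -/
theorem per (hB : Bds F d A a) (hd : 2 ≤ d) (hF : ∀ i, (F i).IsHomogeneous d)
    {x : Fin (1 + 1) → L} (hx : x ≠ 0) (hw : Wnd F x) (hpos : 0 < canH F d x)
    (σ : Gal(L/K)) {G : K[X][X]} (hG : Irreducible G) {α b i n : ℕ} (hn : 1 ≤ n)
    (hα : XD α G) (hb : G.natDegree ≤ b)
    (hi0 : i ∈ JJ F x) (hi1 : i + n ∈ JJ F x) (hi2 : i + 2 * n ∈ JJ F x)
    (h0 : ev (ax F x i) (σ (ax F x i)) G = 0)
    (h1 : ev (ax F x (i + n)) (σ (ax F x (i + n))) G = 0)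
    (hD : b * (α * d ^ (2 * n)) + b * d ^ (2 * n) * α + α < (cj K (ax F x i)).card) :
    XD G.natDegree G := by
  classical
  have hdn : d ^ n ≤ d ^ (2 * n) := Nat.pow_le_pow_right (by omega) (by omega)
  -- a step of length `n` or `2 n`
  have hstep : ∀ k, k = n ∨ k = 2 * n → i + k ∈ JJ F x →
      ev (ax F x (i + k)) (σ (ax F x (i + k))) G = 0 →
      ∀ m, m ∈ JJ F x → m + k ∈ JJ F x → ev (ax F x m) (σ (ax F x m)) G = 0 →
        ev (ax F x (m + k)) (σ (ax F x (m + k))) G = 0 := by
    intro k hk hik h2 m hm hmk h3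
    have hdk : d ^ k ≤ d ^ (2 * n) := by
      rcases hk with rfl | rfl
      · exact hdn
      · exact le_rfl
    obtain ⟨u, hu, h4⟩ := ev_step hF σ hi0 hik hα hb
    have hdvd : G ∣ subs (nf F k) (df F k) α b G := by
      refine dvd_of_ev hG hα hb (XD_subs (natDegree_nf hF k) (natDegree_df hF k) α b G)
        (natDegree_subs (natDegree_nf hF k) (natDegree_df hF k) α b G) h0
        (by rw [h4, h2, mul_zero]) (lt_of_le_of_lt ?_ hD)
      have e1 := Nat.mul_le_mul_left b (Nat.mul_le_mul_left α hdk)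
      have e2 := Nat.mul_le_mul_right α (Nat.mul_le_mul_left b hdk)
      omega
    obtain ⟨u', hu', h5⟩ := ev_step hF σ hm hmk hα hb
    obtain ⟨Q, hQ⟩ := hdvd
    rw [hQ, map_mul, h3, zero_mul] at h5
    rcases mul_eq_zero.mp h5.symm with h6 | h6
    · exact absurd h6 hu'
    · exact h6
  have hV2 : ev (ax F x (i + 2 * n)) (σ (ax F x (i + 2 * n))) G = 0 := by
    have h2 := hstep n (Or.inl rfl) hi1 h1 (i + n) hi1 (by
      have : i + n + n = i + 2 * n := by ring
      rwa [this]) h1
    have h3 : i + n + n = i + 2 * n := by ring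
    rwa [h3] at h2
  have hall : ∀ l, i + l * n ∈ JJ F x → ev (ax F x (i + l * n)) (σ (ax F x (i + l * n))) G = 0 ∧
      True := by
    intro l
    induction l using Nat.strong_induction_on with
    | _ l ih =>
      intro hl
      refine ⟨?_, trivial⟩
      rcases Nat.lt_or_ge l 3 with hl3 | hl3
      · interval_cases l
        · rw [zero_mul, add_zero]
          exact h0
        · rw [one_mul]
          exact h1
        · exact hV2
      · obtain ⟨l', rfl⟩ : ∃ l', l = l' + 2 := ⟨l - 2, by omega⟩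
        have e1 : i + (l' + 2) * n = (i + (l' + 1) * n) + n := by ring
        have e2 : i + (l' + 2) * n = (i + l' * n) + 2 * n := by ring
        by_cases h2 : i + (l' + 1) * n ∈ JJ F x
        · have h3 := (ih (l' + 1) (by omega) h2).1
          have h4 := hstep n (Or.inl rfl) hi1 h1 _ h2 (by rwa [← e1]) h3
          rwa [← e1] at h4
        · have h5 : i + l' * n ∈ JJ F x := by
            by_contra h6
            have h7 := infty_unique hB hF hx hw h2 h6
            have h8 : (l' + 1) * n = l' * n + n := by ring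
            omega
          have h3 := (ih l' (by omega) h5).1
          have h4 := hstep (2 * n) (Or.inr rfl) hi2 hV2 _ h5 (by rwa [← e2]) h3
          rwa [← e2] at h4
  refine deg_le' (L := L) hG fun B => ?_
  obtain ⟨s, hs⟩ := hgt_tendsto hB hd hx hpos B
  obtain ⟨l, hl1, hl2⟩ : ∃ l, s ≤ i + l * n ∧ i + l * n ∈ JJ F x := by
    have h2 : s ≤ i + s * n := by
      have := Nat.mul_le_mul_left s hn
      omega
    by_cases h3 : i + s * n ∈ JJ F x
    · exact ⟨s, h2, h3⟩
    · refine ⟨s + 1, ?_, ?_⟩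
      · have : (s + 1) * n = s * n + n := by ring
        omega
      · by_contra h4
        have h5 := infty_unique hB hF hx hw h3 h4
        have : (s + 1) * n = s * n + n := by ring
        omega
  exact ⟨ax F x (i + l * n), σ (ax F x (i + l * n)), (hall l hl2).1, hgt_gal σ _, hs _ hl2 hl1⟩

end Periodic

end

end Pool.Agent.NH29.AB
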