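import Mathlib
import Pool.Agent.NH29.AB.Per
import Pool.Agent.R829.BH.Dat

/-!
The action of the Galois group on the places over a prime of the base field.
-/

set_option autoImplicit false
set_option linter.unusedSectionVars false

namespace Pool.Agent.NH29.AB

open NumberField Module Polynomial IsDedekindDomain
open Pool.Agent.W238.Leh
open Pool.Agent.H627.LP hiding det_ineq det_ineq' local_gain
open Pool.Agent.H420R3 (mi nv TP ew mem_TP)
open Pool.Agent.R829.BH (Fr Pr2 fr_of)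
open scoped Pointwise

noncomputable section

variable {K : Type} [Field K] [NumberField K] {L : Type} [Field L] [NumberField L] [Algebra K L]

lemma smul_bot' (g : Gal(L/K)) : g • (⊥ : Ideal (𝓞 L)) = ⊥ := by
  rw [Ideal.pointwise_smul_def]
  exact Ideal.map_bot

lemma smul_ne_bot {g : Gal(L/K)} {I : Ideal (𝓞 L)} (h : I ≠ ⊥) : g • I ≠ ⊥ := by
  intro h1
  apply h
  have h2 : g⁻¹ • (g • I) = I := inv_smul_smul g I
  rw [h1, smul_bot'] at h2
  exact h2.symm

/-- the image of a place under an automorphism -/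
def gp (g : Gal(L/K)) (w : FinitePlace L) : FinitePlace L :=
  FinitePlace.mk ⟨g • mi w, inferInstance, smul_ne_bot (H420R3.mi_ne_bot w)⟩

lemma mi_gp (g : Gal(L/K)) (w : FinitePlace L) : mi (gp g w) = g • mi w := by
  unfold mi gp
  rw [FinitePlace.maximalIdeal_mk]

lemma gp_inv (g : Gal(L/K)) (w : FinitePlace L) : gp g⁻¹ (gp g w) = w := by
  apply FinitePlace.maximalIdeal_injective
  apply HeightOneSpectrum.ext
  change mi (gp g⁻¹ (gp g w)) = mi w
  rw [mi_gp, mi_gp, inv_smul_smul]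

lemma gp_inv' (g : Gal(L/K)) (w : FinitePlace L) : gp g (gp g⁻¹ w) = w := by
  have := gp_inv g⁻¹ w
  rwa [inv_inv] at this

lemma absNorm_smul' (g : Gal(L/K)) (I : Ideal (𝓞 L)) : (g • I).absNorm = I.absNorm := by
  rw [Ideal.absNorm_apply, Ideal.absNorm_apply, Submodule.cardQuot_apply,
    Submodule.cardQuot_apply]
  exact (Nat.card_congr (Ideal.quotientEquiv I (g • I)
    (MulSemiringAction.toRingEquiv Gal(L/K) (𝓞 L) g) rfl).toEquiv).symm

lemma nv_gp (g : Gal(L/K)) (w : FinitePlace L) : nv (gp g w) = nv w := by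
  unfold nv
  rw [mi_gp, absNorm_smul']

lemma gp_le_int (g : Gal(L/K)) (w : FinitePlace L) (a : 𝓞 L) :
    gp g w (g (a : L)) ≤ w (a : L) := by
  rcases eq_or_ne a 0 with rfl | hb
  · simp
  · rw [H420R3.v_eq w hb, ← H420R3.coe_smul, ← nv_gp g w, H420R3.v_le_iff, mi_gp]
    have h1 : a ∈ mi w ^ (multiplicity (mi w) (Ideal.span {a})) := by
      rw [← H420R3.v_le_iff, ← H420R3.v_eq w hb]
    have h2 : g • a ∈ g • (mi w ^ (multiplicity (mi w) (Ideal.span {a}))) :=
      Ideal.smul_mem_pointwise_smul_iff.mpr h1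
    have h3 : g • (mi w ^ (multiplicity (mi w) (Ideal.span {a}))) =
        (g • mi w) ^ (multiplicity (mi w) (Ideal.span {a})) := by
      exact smul_pow' _ _ _
    rwa [h3] at h2

lemma gp_int (g : Gal(L/K)) (w : FinitePlace L) (a : 𝓞 L) :
    gp g w (g (a : L)) = w (a : L) := by
  refine le_antisymm (gp_le_int g w a) ?_
  have h1 := gp_le_int g⁻¹ (gp g w) (g • a)
  rw [gp_inv, H420R3.coe_smul] at h1
  have h3 : (g⁻¹ : Gal(L/K)) (g (a : L)) = (a : L) := by
    rw [← AlgEquiv.mul_apply, inv_mul_cancel]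
    rfl
  rwa [h3] at h1

lemma gp_apply (g : Gal(L/K)) (w : FinitePlace L) (y : L) : gp g w (g y) = w y := by
  obtain ⟨a, b, hb, hab⟩ := IsFractionRing.div_surjective (A := 𝓞 L) y
  rw [← hab, map_div₀, map_div₀, map_div₀]
  rw [show (algebraMap (𝓞 L) L) a = (a : L) from rfl,
    show (algebraMap (𝓞 L) L) b = (b : L) from rfl, gp_int, gp_int]

variable [IsGalois K L]

lemma ram_gp (g : Gal(L/K)) (w : FinitePlace L) :
    (mi (gp g w)).ramificationIdx (𝓞 K) = (mi w).ramificationIdx (𝓞 K) := by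
  have : SMulCommClass Gal(L/K) (𝓞 K) (𝓞 L) := IsGaloisGroup.commutes
  rw [mi_gp, Ideal.ramificationIdx_smul]

lemma ew_gp (g : Gal(L/K)) (w : FinitePlace L) : ew K (gp g w) = ew K w := by
  unfold ew
  rw [ram_gp, nv_gp]

variable {P : Ideal (𝓞 K)} [hP : P.IsMaximal]

lemma gp_mem (hP0 : P ≠ ⊥) (g : Gal(L/K)) {w : FinitePlace L} (hw : w ∈ TP L P) :
    gp g w ∈ TP L P := by
  have : SMulCommClass Gal(L/K) (𝓞 K) (𝓞 L) := IsGaloisGroup.commutes
  rw [mem_TP hP0, mi_gp]
  have h := H420R3.liesOver_of_mem hP0 hw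
  exact ⟨inferInstance, inferInstance⟩

lemma sum_gp (hP0 : P ≠ ⊥) (g : Gal(L/K)) (φ : FinitePlace L → ℝ) :
    ∑ w ∈ TP L P, φ (gp g w) = ∑ w ∈ TP L P, φ w := by
  refine Finset.sum_bij' (fun w _ => gp g w) (fun w _ => gp g⁻¹ w)
    (fun w hw => gp_mem hP0 g hw) (fun w hw => gp_mem hP0 g⁻¹ hw)
    (fun w _ => gp_inv g w) (fun w _ => gp_inv' g w) (fun w _ => rfl)

/-- **invariance of the weights** -/
lemma sum_good (hP0 : P ≠ ⊥) (g : Gal(L/K)) (p q : FinitePlace L → Prop) [DecidablePred p]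
    [DecidablePred q] (h : ∀ w, q (gp g w) ↔ p w) :
    ∑ w ∈ TP L P, (if q w then ew K w else 0) = ∑ w ∈ TP L P, if p w then ew K w else 0 := by
  rw [← sum_gp hP0 g]
  refine Finset.sum_congr rfl fun w _ => ?_
  rw [ew_gp]
  by_cases hp : p w
  · rw [if_pos hp, if_pos ((h w).mpr hp)]
  · rw [if_neg hp, if_neg (fun hq => hp ((h w).mp hq))]

end

end Pool.Agent.NH29.AB
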