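import Mathlib
import Pool.Agent.NH29.AB.Inv

/-!
The places at which a relation gives strong closeness to the graph of Frobenius.
-/

set_option autoImplicit false
set_option linter.unusedSectionVars false

namespace Pool.Agent.NH29.AB

open NumberField Module Polynomial
open Pool.Agent.W238.Leh
open Pool.Agent.H627.LP hiding det_ineq det_ineq' local_gain
open Pool.Agent.H627.LR (GR)
open Pool.Agent.H627.LU (Classes)
open Pool.Agent.H420R3 (mi nv TP ew mem_TP)
open Pool.Agent.R829.BG hiding two_gain two_ineq classes_rel step_zero step_last core step_of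
  exists_orb
open Pool.Agent.R829.BH (Fr Pr2 fr_of canH_vec)

noncomputable section

variable {K : Type} [Field K] [NumberField K] {L : Type} [Field L] [NumberField L] [Algebra K L]
variable {F : Fin (1 + 1) → MvPolynomial (Fin (1 + 1)) K} {d c a : ℕ} {A : ℝ}
variable {v₀ : FinitePlace K}

/-- the point is strongly close to the graph of Frobenius at the place -/
def Gd (σ : Gal(L/K)) (Q : ℕ) (γ : ℝ) (w : FinitePlace L) (y : L) : Prop :=
  w y ≤ 1 ∧ w (σ y - y ^ Q) ≤ Real.exp (-(ew K w / γ))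

open Classical in
/-- **good places** of a point which satisfies a relation -/
theorem good_of [DecidableEq L] [IsGalois K L] (hB : Bds F d A a) (hd : 2 ≤ d)
    (hF : ∀ i, (F i).IsHomogeneous d)
    (hc : ∀ m, c + d ≤ m → ∀ p : MvPolynomial (Fin (1 + 1)) K, p.IsHomogeneous m →
      p ∈ Ideal.span (Set.range F)) {σ : Gal(L/K)} (hcomm : ∀ g : Gal(L/K), g * σ = σ * g)
    (hT : ∀ w ∈ TP L (mi v₀), GR w F d) {Q : ℕ} {e : ℝ} (he : 0 < e)
    (hfr : ∀ w ∈ TP L (mi v₀), Fr w (AlgHom.id K L) (σ : L →ₐ[K] L) Q (ew K w / e))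
    {G : K[X][X]} (hG : G ≠ 0) {α b : ℕ} (hb : G.natDegree ≤ b) (hα : XD α G)
    {z : L} (hz : ev z (σ z) G = 0) {t : ℕ} (ht : t = α + Q * b + 1)
    {H : ℝ} (hH : canH F d ![z, 1] ≤ H) (hH0 : 0 ≤ H) {ω : ℝ}
    (hω : ω = Real.log (mi v₀).absNorm / (e * finrank ℚ K)) (hH1 : 128 * t * H ≤ ω)
    (hZt : 8 * t ≤ (cj K z).card)
    (hs : hC A a * (c + d : ℕ) * (1 + Nat.log 2 (cj K z).card : ℕ) +
      Real.log (cj K z).card < ω / (128 * t) * (cj K z).card) :
    ∃ k, 1 ≤ k ∧ k ≤ G.natDegree ∧ Q ≤ α ∧ ∀ γ : ℝ, (k : ℝ) ≤ γ → ∀ y ∈ cj K z,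
      ∑ w ∈ TP L (mi v₀), ew K w ≤
        2 * ∑ w ∈ TP L (mi v₀), if Gd σ Q γ w y then ew K w else 0 := by
  have hP0 := H420R3.mi_ne_bot v₀
  obtain ⟨k, f, hk, hfdeg, hf1, hf2, hk0, hmain⟩ := exp_data v₀ hG hb hα
  -- good places
  set good : FinitePlace L → L → Prop := fun w y => w y ≤ 1 ∧ w (aeval y f) = 1 with hgood
  have hinv : ∀ g : Gal(L/K), ∑ w ∈ TP L (mi v₀), (if good w (g z) then ew K w else 0) =
      ∑ w ∈ TP L (mi v₀), if good w z then ew K w else 0 := by
    intro g
    refine sum_good hP0 g (fun w => good w z) (fun w => good w (g z)) fun w => ?_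
    have h1 : aeval (g z) f = g (aeval z f) := aeval_algHom_apply (g : L →ₐ[K] L) z f
    simp only [hgood]
    rw [h1, gp_apply, gp_apply]
  have hW : ∑ w ∈ TP L (mi v₀), ew K w ≤
      2 * ∑ w ∈ TP L (mi v₀), if good w z then ew K w else 0 := by
    by_contra hcon
    push Not at hcon
    have hH' : ∀ y ∈ cj K z, canH F d ![y, 1] ≤ H := by
      intro y hy
      obtain ⟨g, rfl⟩ := mem_cj.mp hy
      rw [show g z = (g : L →ₐ[K] L) z from rfl, canH_vec]
      exact hH
    refine few (v₀ := v₀) (Z := cj K z) hB hd hF hc hT he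
      (fun w => Finset.univ.filter fun y : {y // y ∈ cj K z} => good w y.1) (t := t)
      (by omega) ?_ ?_ hH' hH0 hω hH1 hZt hs
    · intro w hw
      rw [ht]
      refine classes_poly (c := f.map (algebraMap K L)) ?_ ?_ (natDegree_map_le.trans hfdeg)
        (fun y : {y // y ∈ cj K z} => y.1) _ ?_ ?_ ?_
      · intro i
        rw [coeff_map]
        exact place_le (hf1 i) hw
      · obtain ⟨i, hi⟩ := hf2
        exact ⟨i, by rw [coeff_map]; exact place_eq hi hw⟩
      · intro y hy hy1
        rw [eval_map_algebraMap]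
        refine lt_of_le_of_ne (aeval_le hf1 hw hy1) fun h => hy ?_
        exact Finset.mem_filter.mpr ⟨Finset.mem_univ _, hy1, h⟩
      · intro y y' h
        exact (hfr w hw).sm (y.1 - y'.1) h
      · intro y y' h
        exact (hfr w hw).sm (y.1⁻¹ - y'.1⁻¹) h
    · intro y
      obtain ⟨g, hg⟩ := mem_cj.mp y.2
      have h1 := hinv g
      rw [hg] at h1
      rw [← h1] at hcon
      have h2 : ∑ w ∈ TP L (mi v₀), ew K w =
          ∑ w ∈ TP L (mi v₀), (if good w y.1 then ew K w else 0) +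
          ∑ w ∈ TP L (mi v₀), (if ¬ good w y.1 then ew K w else 0) := by
        rw [← Finset.sum_add_distrib]
        refine Finset.sum_congr rfl fun w _ => ?_
        by_cases h : good w y.1
        · rw [if_pos h, if_neg (not_not.mpr h), add_zero]
        · rw [if_neg h, if_pos h, zero_add]
      have h3 : ∑ w ∈ TP L (mi v₀), (if y ∉ (Finset.univ.filter
          fun y : {y // y ∈ cj K z} => good w y.1) then ew K w / e else 0) =
          (∑ w ∈ TP L (mi v₀), (if ¬ good w y.1 then ew K w else 0)) / e := by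
        rw [Finset.sum_div]
        refine Finset.sum_congr rfl fun w _ => ?_
        by_cases h : good w y.1
        · rw [if_neg (by simp [h]), if_neg (not_not.mpr h), zero_div]
        · rw [if_pos (by simp [h]), if_pos h]
      rw [h3, div_le_div_iff₀ (by linarith) he]
      nlinarith
  have hWpos : 0 < ∑ w ∈ TP L (mi v₀), ew K w :=
    Finset.sum_pos (fun w _ => H420R3.ew_pos w) (H420R3.TP_nonempty hP0)
  have hlt : ∀ w ∈ TP L (mi v₀), ∀ y, w y ≤ 1 → w (σ y - y ^ Q) < 1 := by
    intro w hw y hy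
    refine lt_of_le_of_lt ((hfr w hw).fr y hy).2 ?_
    rw [Real.exp_lt_one_iff, neg_lt_zero]
    exact div_pos (H420R3.ew_pos w) he
  have hex : ∃ w ∈ TP L (mi v₀), good w z := by
    by_contra hcon
    push Not at hcon
    rw [Finset.sum_eq_zero (fun w hw => if_neg (hcon w hw)), mul_zero] at hW
    linarith
  obtain ⟨w₁, hw₁, hw₁g⟩ := hex
  have hk1 : 1 ≤ k := (hmain L w₁ hw₁ z (σ z) hz hw₁g.1 (hlt w₁ hw₁ z hw₁g.1) hw₁g.2).1
  refine ⟨k, hk1, hk, ?_, ?_⟩
  · by_contra h
    push Not at h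
    have := hk0 h
    omega
  · intro γ hγ y hy
    obtain ⟨g, rfl⟩ := mem_cj.mp hy
    rw [← hinv g] at hW
    refine hW.trans ?_
    apply mul_le_mul_of_nonneg_left _ (by norm_num)
    refine Finset.sum_le_sum fun w hw => ?_
    by_cases h : good w (g z)
    · rw [if_pos h, if_pos]
      have h1 : ev (g z) (σ (g z)) G = 0 := by
        have h2 : σ (g z) = g (σ z) := by
          rw [← AlgEquiv.mul_apply, ← hcomm, AlgEquiv.mul_apply]
        rw [h2, ← map_ev, hz, map_zero]
      have h3 := (hmain L w hw (g z) (σ (g z)) h1 h.1 (hlt w hw _ h.1) h.2).2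
      refine ⟨h.1, ?_⟩
      have hk0' : (0 : ℝ) < k := by exact_mod_cast hk1
      have h4 : w (σ (g z) - g z ^ Q) ≤ Real.exp (-(ew K w / k)) := by
        by_contra hcon
        push Not at hcon
        have h5 := pow_lt_pow_left₀ hcon (Real.exp_pos _).le (by omega : k ≠ 0)
        rw [← Real.exp_nat_mul] at h5
        have h6 : (k : ℝ) * -(ew K w / k) = -ew K w := by
          field_simp
        rw [h6] at h5
        linarith
      refine h4.trans ?_
      rw [Real.exp_le_exp, neg_le_neg_iff]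
      exact div_le_div_of_nonneg_left (H420R3.ew_pos w).le hk0' hγ
    · rw [if_neg h]
      split_ifs
      · exact (H420R3.ew_pos w).le
      · exact le_rfl

end

end Pool.Agent.NH29.AB
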