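import Mathlib
import Pool.Agent.NH29.AB.Rhs

/-!
The core of the proof: a lower bound which is polynomial in the norm of the prime.
-/

set_option autoImplicit false
set_option linter.unusedSectionVars false

namespace Pool.Agent.NH29.AB

open NumberField Module Polynomial
open Pool.Agent.W238.Leh
open Pool.Agent.H627.LP hiding det_ineq det_ineq' local_gain
open Pool.Agent.H627.LR (GR)
open Pool.Agent.H627.LU (Classes)
open Pool.Agent.H420R3 (mi nv TP ew mem_TP)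
open Pool.Agent.R829.BG hiding two_gain two_ineq classes_rel step_zero step_last core step_of
  exists_orb
open Pool.Agent.R829.BH (Fr Pr2 fr_of canH_vec)

noncomputable section

/-- a numerical condition -/
lemma few_num {N r t e κ₀ : ℕ} {E ω : ℝ} (hN : 16 ≤ N) (hE : 0 ≤ E) (ht : 1 ≤ t)
    (ht' : t ≤ N ^ 7) (he1 : 1 ≤ e) (he : e ≤ N ^ 2) (hκ1 : 1 ≤ κ₀) (hκ : 128 * κ₀ ≤ N)
    (hEN : 5 * E + 2 ≤ N) (hr : N ^ 23 ≤ r) (hω : ω = Real.log N / (e * κ₀)) :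
    E * (1 + Nat.log 2 r : ℕ) + Real.log r < ω / (128 * t) * r := by
  have hN0 : (16 : ℝ) ≤ N := by exact_mod_cast hN
  have hr1 : 1 ≤ r := le_trans (Nat.one_le_pow _ _ (by omega)) hr
  have hr0 : (1 : ℝ) ≤ r := by exact_mod_cast hr1
  have hlog := one_le_log hN
  have hs0 : 0 < Real.sqrt r := Real.sqrt_pos.mpr (by linarith)
  have hss : Real.sqrt r * Real.sqrt r = r := Real.mul_self_sqrt (by linarith)
  have hs1 : 1 ≤ Real.sqrt r := by
    rw [Real.one_le_sqrt]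
    exact hr0
  have h1 : Real.log r ≤ 2 * Real.sqrt r := by
    have e1 := Real.log_le_sub_one_of_pos hs0
    rw [Real.log_sqrt (by linarith)] at e1
    linarith
  have h2 : (Nat.log 2 r : ℝ) ≤ 2 * Real.log r := by
    have e1 : (2 : ℝ) ^ (Nat.log 2 r) ≤ r := by
      exact_mod_cast Nat.pow_log_le_self 2 (by omega)
    have e2 := Real.log_le_log (by positivity) e1
    rw [Real.log_pow] at e2
    have e3 := Real.log_two_gt_d9
    have e4 : (Nat.log 2 r : ℝ) * (1 / 2) ≤ Nat.log 2 r * Real.log 2 :=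
      mul_le_mul_of_nonneg_left (by linarith) (Nat.cast_nonneg _)
    linarith
  have h3 : E * (1 + Nat.log 2 r : ℕ) + Real.log r ≤ (5 * E + 2) * Real.sqrt r := by
    have e1 : ((1 + Nat.log 2 r : ℕ) : ℝ) ≤ 5 * Real.sqrt r := by
      push_cast
      linarith
    have e2 := mul_le_mul_of_nonneg_left e1 hE
    linarith
  have h4 : (N : ℝ) ^ 11 < Real.sqrt r := by
    apply Real.lt_sqrt_of_sq_lt
    have e1 : (N : ℝ) ^ 23 ≤ r := by exact_mod_cast hr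
    have e2 : (0 : ℝ) < (N : ℝ) ^ 22 := by positivity
    calc ((N : ℝ) ^ 11) ^ 2 = (N : ℝ) ^ 22 := by ring
      _ < N * (N : ℝ) ^ 22 := by nlinarith
      _ = (N : ℝ) ^ 23 := by ring
      _ ≤ r := e1
  have h5 : 1 / (N : ℝ) ^ 10 ≤ ω / (128 * t) := by
    rw [hω, div_div, div_le_div_iff₀ (by positivity) (by positivity)]
    have e1 : ((e : ℝ) * κ₀ * (128 * t)) ≤ (N : ℝ) ^ 10 := by
      have e2 : e * κ₀ * (128 * t) ≤ N ^ 10 := by
        calc e * κ₀ * (128 * t) = e * (128 * κ₀) * t := by ring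
          _ ≤ N ^ 2 * N * N ^ 7 := Nat.mul_le_mul (Nat.mul_le_mul he hκ) ht'
          _ = N ^ 10 := by ring
      exact_mod_cast e2
    have e3 : (0 : ℝ) < (N : ℝ) ^ 10 := by positivity
    nlinarith
  have h6 : (5 * E + 2) * Real.sqrt r < 1 / (N : ℝ) ^ 10 * r := by
    rw [one_div, inv_mul_eq_div, lt_div_iff₀ (by positivity)]
    calc (5 * E + 2) * Real.sqrt r * (N : ℝ) ^ 10 ≤ N * Real.sqrt r * (N : ℝ) ^ 10 := by gcongr
      _ = Real.sqrt r * (N : ℝ) ^ 11 := by ring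
      _ < Real.sqrt r * Real.sqrt r := by gcongr
      _ = r := hss
  have h7 : 1 / (N : ℝ) ^ 10 * r ≤ ω / (128 * t) * r := by gcongr
  linarith

variable {K : Type} [Field K] [NumberField K] {L : Type} [Field L] [NumberField L] [Algebra K L]
variable {F : Fin (1 + 1) → MvPolynomial (Fin (1 + 1)) K} {d c a : ℕ} {A : ℝ}
variable {v₀ : FinitePlace K}

/-- an irreducible relation -/
lemma irr_factor {G : K[X][X]} (hG : G ≠ 0) {z y : L} (h0 : ev z y G = 0) {α b : ℕ}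
    (hb : G.natDegree ≤ b) (hα : XD α G) :
    ∃ P : K[X][X], Irreducible P ∧ P.natDegree ≤ b ∧ XD α P ∧ ev z y P = 0 := by
  classical
  obtain ⟨f, hf, hfG⟩ := UniqueFactorizationMonoid.exists_prime_factors G hG
  have h1 : ev z y f.prod = 0 := by
    obtain ⟨U, hU⟩ := hfG.symm.dvd
    rw [hU, map_mul, h0, zero_mul]
  rw [map_multiset_prod, Multiset.prod_eq_zero_iff, Multiset.mem_map] at h1
  obtain ⟨P, hP, hP0⟩ := h1
  have hdvd : P ∣ G := (Multiset.dvd_prod hP).trans hfG.dvd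
  obtain ⟨R, hR⟩ := hdvd
  have hPne : P ≠ 0 := (hf P hP).ne_zero
  have hRne : R ≠ 0 := by
    rintro rfl
    exact hG (by rw [hR, mul_zero])
  refine ⟨P, (hf P hP).irreducible, ?_, (XD.of_mul hPne hRne (hR ▸ hα)).1, hP0⟩
  have h2 := natDegree_mul hPne hRne
  rw [← hR] at h2
  omega

lemma canH_ax (hB : Bds F d A a) (hd : 2 ≤ d) (hF : ∀ i, (F i).IsHomogeneous d)
    {x : Fin (1 + 1) → L} (hx : x ≠ 0) {i : ℕ} (hi : i ∈ JJ F x) :
    canH F d (![ax F x i, 1] : Fin (1 + 1) → L) = (d : ℝ) ^ i * canH F d x := by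
  have hi' : ((act F)^[i] x) 1 ≠ 0 := hi
  rw [ax_vec hi, canH_smul hF (inv_ne_zero hi'), hB.canH_iter hd hx]

/-- the product of pairwise non-associated irreducible relations -/
lemma prod_dvd {ι : Type} [DecidableEq ι] (J : Finset ι) (P : ι → K[X][X]) {R : K[X][X]}
    (hP : ∀ i ∈ J, Irreducible (P i)) (hdvd : ∀ i ∈ J, P i ∣ R)
    (hne : ∀ i ∈ J, ∀ j ∈ J, i ≠ j → ¬ P i ∣ P j) : ∏ i ∈ J, P i ∣ R := by
  refine Finset.prod_dvd_of_isRelPrime ?_ hdvd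
  intro i hi j hj hij
  exact (hP i hi).isRelPrime_iff_not_dvd.mpr (hne i hi j hj hij)

open Classical in
/-- **good places**, numerical form -/
theorem good_num [IsGalois K L] (hB : Bds F d A a) (hd : 2 ≤ d)
    (hF : ∀ i, (F i).IsHomogeneous d)
    (hc : ∀ m, c + d ≤ m → ∀ p : MvPolynomial (Fin (1 + 1)) K, p.IsHomogeneous m →
      p ∈ Ideal.span (Set.range F)) {σ : Gal(L/K)} (hcomm : ∀ g : Gal(L/K), g * σ = σ * g)
    (hT : ∀ w ∈ TP L (mi v₀), GR w F d) {N e : ℕ} (hN : N = (mi v₀).absNorm)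
    (hN16 : 16 ≤ N) (hκ : 128 * finrank ℚ K ≤ N)
    (hEN : 5 * (hC A a * (c + d : ℕ)) + 2 ≤ N) (he1 : 1 ≤ e) (he : e ≤ N ^ 2)
    (hfr : ∀ w ∈ TP L (mi v₀), Fr w (AlgHom.id K L) (σ : L →ₐ[K] L) (N ^ 3) (ew K w / (e : ℝ)))
    {G : K[X][X]} (hG : G ≠ 0) {α b : ℕ} (hb : G.natDegree ≤ b) (hα : XD α G)
    (hbN : b ≤ N ^ 3) (hαN : α ≤ N ^ 6)
    {z : L} (hz : ev z (σ z) G = 0)
    {H : ℝ} (hH : canH F d ![z, 1] ≤ H) (hH0 : 0 ≤ H) (hH1 : (N : ℝ) ^ 10 * H ≤ 1)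
    (hZ : N ^ 23 ≤ (cj K z).card) :
    ∃ k, 1 ≤ k ∧ k ≤ G.natDegree ∧ N ^ 3 ≤ α ∧ ∀ γ : ℝ, (k : ℝ) ≤ γ → ∀ y ∈ cj K z,
      ∑ w ∈ TP L (mi v₀), ew K w ≤
        2 * ∑ w ∈ TP L (mi v₀), if Gd σ (N ^ 3) γ w y then ew K w else 0 := by
  obtain ⟨t, ht⟩ : ∃ t, t = α + N ^ 3 * b + 1 := ⟨_, rfl⟩
  have ht1 : 1 ≤ t := by omega
  have htN : t ≤ N ^ 7 := by
    have e1 : N ^ 3 * b ≤ N ^ 6 := by
      calc N ^ 3 * b ≤ N ^ 3 * N ^ 3 := Nat.mul_le_mul_left _ hbN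
        _ = N ^ 6 := by ring
    have e2 : 1 ≤ N ^ 6 := Nat.one_le_pow _ _ (by omega)
    calc t ≤ 3 * N ^ 6 := by omega
      _ ≤ N * N ^ 6 := Nat.mul_le_mul_right _ (by omega)
      _ = N ^ 7 := by ring
  have hκ1 : 1 ≤ finrank ℚ K := finrank_pos
  have hE : 0 ≤ hC A a * ((c + d : ℕ) : ℝ) := mul_nonneg hB.hC_nonneg (Nat.cast_nonneg _)
  have hlog := one_le_log hN16
  have he0 : (0 : ℝ) < e := by exact_mod_cast he1
  have hκ0 : (0 : ℝ) < finrank ℚ K := by exact_mod_cast hκ1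
  refine good_of hB hd hF hc hcomm hT he0 hfr hG hb hα hz ht hH hH0
    (ω := Real.log N / (e * finrank ℚ K)) (by rw [hN]) ?_ ?_ ?_
  · rw [le_div_iff₀ (by positivity)]
    have e1 : (128 : ℝ) * t * (e * finrank ℚ K) ≤ (N : ℝ) ^ 10 := by
      have e2 : 128 * t * (e * finrank ℚ K) ≤ N ^ 10 := by
        calc 128 * t * (e * finrank ℚ K) = e * (128 * finrank ℚ K) * t := by ring
          _ ≤ N ^ 2 * N * N ^ 7 := Nat.mul_le_mul (Nat.mul_le_mul he hκ) htN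
          _ = N ^ 10 := by ring
      exact_mod_cast e2
    calc 128 * t * H * (e * finrank ℚ K) = (128 * t * (e * finrank ℚ K)) * H := by ring
      _ ≤ (N : ℝ) ^ 10 * H := mul_le_mul_of_nonneg_right e1 hH0
      _ ≤ 1 := hH1
      _ ≤ _ := hlog
  · have e2 : 8 * t ≤ N ^ 8 := by
      calc 8 * t ≤ N * N ^ 7 := Nat.mul_le_mul (by omega) htN
        _ = N ^ 8 := by ring
    exact e2.trans ((Nat.pow_le_pow_right (by omega) (by norm_num)).trans hZ)
  · exact few_num hN16 hE ht1 htN he1 he hκ1 hκ hEN hZ rfl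

end

end Pool.Agent.NH29.AB
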