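import Mathlib
import Pool.Agent.NH29.AB.Main
import Pool.Agent.R829.BH.Tame
import Pool.Agent.H627.LR.Gd

/-!
The lower bound at a tamely ramified prime.
-/

set_option autoImplicit false
set_option linter.unusedSectionVars false

namespace Pool.Agent.NH29.AB

open NumberField Module Polynomial
open Pool.Agent.W238.Leh
open Pool.Agent.H627.LP hiding det_ineq det_ineq' local_gain
open Pool.Agent.H627.LR (GR GoodK)
open Pool.Agent.H627.LU (Classes)
open Pool.Agent.H420R3 (mi nv TP ew mem_TP)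
open Pool.Agent.R829.BG hiding two_gain two_ineq classes_rel step_zero step_last core step_of
  exists_orb
open Pool.Agent.R829.BH (Fr Pr2 fr_of canH_vec ram_bound)

noncomputable section

variable {K : Type} [Field K] [NumberField K]

lemma natCast_mem {P : Ideal (𝓞 K)} [hP : P.IsMaximal] {p n : ℕ} (hp : p.Prime)
    (hpP : (p : 𝓞 K) ∈ P) (hn : (n : 𝓞 K) ∈ P) : p ∣ n := by
  by_contra h
  have hcop : Nat.Coprime p n := (Nat.Prime.coprime_iff_not_dvd hp).mpr h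
  have h1 : (1 : 𝓞 K) ∈ P := by
    obtain ⟨u, v, huv⟩ := Int.isCoprime_iff_gcd_eq_one.mpr (by simpa using hcop)
      |> fun (h : IsCoprime (p : ℤ) (n : ℤ)) => h
    have h2 := congrArg (fun z : ℤ => (z : 𝓞 K)) huv
    push_cast at h2
    rw [← h2]
    exact P.add_mem (P.mul_mem_left _ hpP) (P.mul_mem_left _ hn)
  exact hP.ne_top ((Ideal.eq_top_iff_one P).mpr h1)

lemma prime_le_absNorm {P : Ideal (𝓞 K)} [hP : P.IsMaximal] (hP0 : P ≠ ⊥) {p : ℕ}
    (hp : p.Prime) (hpP : (p : 𝓞 K) ∈ P) : p ≤ P.absNorm := by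
  refine Nat.le_of_dvd (Nat.pos_of_ne_zero (Ideal.absNorm_ne_zero_iff_mem_nonZeroDivisors.mpr
    (mem_nonZeroDivisors_of_ne_zero hP0))) (natCast_mem (P := P) hp hpP (Ideal.absNorm_mem P))

lemma absNorm_le_pow {P : Ideal (𝓞 K)} {p : ℕ} (hp : p.Prime) (hpP : (p : 𝓞 K) ∈ P) :
    P.absNorm ≤ p ^ finrank ℚ K := by
  have h1 : Ideal.span {(p : 𝓞 K)} ≤ P := (Ideal.span_singleton_le_iff_mem P).mpr hpP
  have h2 := Ideal.absNorm_dvd_absNorm_of_le h1
  have h3 : (Ideal.span {(p : 𝓞 K)}).absNorm = p ^ finrank ℚ K := by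
    rw [Ideal.absNorm_span_singleton]
    have h4 : (p : 𝓞 K) = algebraMap ℤ (𝓞 K) p := by simp
    rw [h4, Algebra.norm_algebraMap, RingOfIntegers.rank]
    simp
  rw [h3] at h2
  exact Nat.le_of_dvd (pow_pos hp.pos _) h2

variable {L : Type} [Field L] [NumberField L] [Algebra K L]

lemma ram_dvd [IsGalois K L] {P : Ideal (𝓞 K)} [hP : P.IsMaximal] (hP0 : P ≠ ⊥)
    (𝔓 : Ideal (𝓞 L)) [h : 𝔓.IsPrime] (h𝔓P : 𝔓.under (𝓞 K) = P) :
    𝔓.ramificationIdx (𝓞 K) ∣ finrank K L := by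
  have hlo : 𝔓.LiesOver P := ⟨h𝔓P.symm⟩
  have h1 := Ideal.ncard_primesOver_mul_ramificationIdxIn_mul_inertiaDegIn P (𝓞 L) Gal(L/K)
  rw [IsGalois.card_aut_eq_finrank] at h1
  rw [← h1, Ideal.ramificationIdxIn_eq_ramificationIdx P 𝔓 Gal(L/K)]
  exact ⟨(P.primesOver (𝓞 L)).ncard * P.inertiaDegIn (𝓞 L), by ring⟩

variable {F : Fin (1 + 1) → MvPolynomial (Fin (1 + 1)) K} {d c a : ℕ} {A : ℝ}
variable {v₀ : FinitePlace K}

/-- **the bound at a tamely ramified prime** -/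
theorem at_prime [IsGalois K L] (hB : Bds F d A a) (hd : 2 ≤ d)
    (hF : ∀ i, (F i).IsHomogeneous d)
    (hc : ∀ m, c + d ≤ m → ∀ p : MvPolynomial (Fin (1 + 1)) K, p.IsHomogeneous m →
      p ∈ Ideal.span (Set.range F)) (hab : ∀ g h : Gal(L/K), g * h = h * g)
    (hG : GoodK (mi v₀) F d) {p : ℕ} (hp : p.Prime) (hpP : (p : 𝓞 K) ∈ mi v₀)
    (hpD : ¬ p ∣ finrank K L) {N C₃ : ℕ} (hN : N = (mi v₀).absNorm)
    (hN16 : 16 ≤ N) (hκ : 128 * finrank ℚ K ≤ N)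
    (hEN : 5 * (hC A a * (c + d : ℕ)) + 2 ≤ N)
    (hC₃ : 4 * finrank ℚ K * (14 + 24 * (hC A a * (c + d : ℕ))) < C₃)
    (hC₃N : 32 * C₃ ^ 2 ≤ N)
    {x : Fin (1 + 1) → L} (hx : x ≠ 0) (hw : Wnd F x) (hgen : Gen K x)
    (hpos : 0 < canH F d x) {C₆ : ℕ} (hC₆ : C₆ = 4 * d * (32 * C₃ + 1))
    (hD : N ^ (3 * C₆ + 30) ≤ finrank K L) :
    1 < (N : ℝ) ^ (C₆ + 10) * canH F d x := by
  have hP0 := H420R3.mi_ne_bot v₀
  obtain ⟨σ, hσ, hfr⟩ := exists_common (L := L) hP0 1 3 (fun σ g => hab _ _)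
  have hpN : p ≤ N := hN ▸ prime_le_absNorm hP0 hp hpP
  have hram : ∀ 𝔓 : Ideal (𝓞 L), 𝔓.IsPrime → 𝔓.under (𝓞 K) = mi v₀ →
      𝔓.ramificationIdx (𝓞 K) ≤ p * N := by
    intro 𝔓 h1 h2
    have h3 := ram_bound (E := L) hP0 1 1 1 p le_rfl hp hpP (fun σ 𝔔 _ _ _ => by
      have h4 : (Set.range fun g : Gal(L/K) => g * σ ^ 1 * g⁻¹) = {σ ^ 1} := by
        apply Set.eq_singleton_iff_unique_mem.mpr
        refine ⟨⟨1, by simp⟩, ?_⟩
        rintro _ ⟨g, rfl⟩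
        simp only
        rw [hab g, mul_inv_cancel_right]
      rw [h4, Set.ncard_singleton]) h1 h2 (by
      rw [pow_one]
      exact fun h => hpD (h.trans (ram_dvd hP0 𝔓 h2)))
    rwa [one_mul, pow_one, pow_one, ← hN] at h3
  have he1 : 1 ≤ p * N := Nat.mul_pos hp.pos (by omega)
  refine core (σ := σ) (e := p * N) hB hd hF hc (fun g => (hσ g).symm)
    (fun w hw => hG.gr hP0 (by omega) hw) hN hN16 hκ hEN hC₃ hC₃N he1 ?_ ?_ hx hw hgen hpos
    hC₆ hD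
  · calc p * N ≤ N * N := Nat.mul_le_mul_right _ hpN
      _ = N ^ 2 := by ring
  · intro w hw
    have hlo := H420R3.liesOver_of_mem hP0 hw
    have h1 := hfr w hw
    rw [← hN, pow_one] at h1
    have h2 := fr_of (L := L) hP0 hw h1 he1 (by
      refine hram _ ?_ ?_
      · infer_instance
      · rw [Ideal.under_under]
        exact hlo.over.symm)
    refine ⟨fun z hz => ?_, fun z hz => ?_⟩
    · have h3 := h2.fr z hz
      rw [mul_one_div] at h3
      exact h3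
    · have h3 := h2.sm z hz
      rw [mul_one_div] at h3
      exact h3

end

end Pool.Agent.NH29.AB
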