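import Mathlib
import Pool.Agent.NH29.AB.Rhs

/-!
Numerical estimates.
-/

set_option autoImplicit false
set_option linter.unusedSectionVars false

namespace Pool.Agent.NH29.AB

open NumberField Module Polynomial
open Pool.Agent.W238.Leh
open Pool.Agent.H627.LP hiding det_ineq det_ineq' local_gain
open Pool.Agent.H627.LR (GR)
open Pool.Agent.H627.LU (Classes)
open Pool.Agent.H420R3 (mi nv TP ew mem_TP)
open Pool.Agent.R829.BG hiding two_gain two_ineq classes_rel step_zero step_last core step_of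
  exists_orb
open Pool.Agent.R829.BH (Fr Pr2 fr_of canH_vec nmf_le_one)

noncomputable section

variable {K : Type} [Field K] [NumberField K] {L : Type} [Field L] [NumberField L] [Algebra K L]
variable {F : Fin (1 + 1) → MvPolynomial (Fin (1 + 1)) K} {d c a : ℕ} {A : ℝ}
variable {v₀ : FinitePlace K}

open Classical in
/-- **there are relations** -/
theorem exists_rel_of2 [DecidableEq L] [IsGalois K L] (hB : Bds F d A a) (hd : 2 ≤ d)
    (hF : ∀ i, (F i).IsHomogeneous d)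
    (hc : ∀ m, c + d ≤ m → ∀ p : MvPolynomial (Fin (1 + 1)) K, p.IsHomogeneous m →
      p ∈ Ideal.span (Set.range F)) {σ : Gal(L/K)} (hcomm : ∀ g : Gal(L/K), g * σ = σ * g)
    {Z : Finset L} (hZ : ∀ g : Gal(L/K), ∀ z ∈ Z, g z ∈ Z)
    (hT : ∀ w ∈ TP L (mi v₀), GR w F d) {N₁ m N C₃ g : ℕ} (hN₁ : N₁ = (mi v₀).absNorm)
    (hN₁16 : 16 ≤ N₁) (hm : 1 ≤ m) (hN : N = N₁ ^ m)
    (hC₃ : 4 * finrank ℚ K * (m * (14 + 24 * (hC A a * (c + d : ℕ)))) < C₃) (hg : 1 ≤ g)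
    (hsN : C₃ * g ≤ N ^ 3)
    (Bad : FinitePlace L → Finset {z // z ∈ Z})
    (hpr : ∀ w ∈ TP L (mi v₀), ∀ z, z ∉ Bad w →
      Pr2 w (N ^ 3) (Real.exp (-(ew K w / g))) ![z.1, 1] ![σ z.1, 1])
    (hw : ∀ z : {z // z ∈ Z}, (∑ w ∈ TP L (mi v₀), ew K w) ≤
      2 * ∑ w ∈ TP L (mi v₀), if z ∉ Bad w then ew K w else 0)
    {H : ℝ} (hH : ∀ z ∈ Z, canH F d ![z, 1] ≤ H) (hH0 : 0 ≤ H)
    (hH1 : (N : ℝ) ^ 8 * H ≤ 1) :
    ∃ P : K[X][X], P ≠ 0 ∧ P.natDegree ≤ 16 * (C₃ * g) ∧ XD (N ^ 3 * (16 * (C₃ * g))) P ∧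
      ∀ z ∈ Z, ev z (σ z) P = 0 := by
  have hN16 : 16 ≤ N := hN ▸ hN₁16.trans (Nat.le_self_pow (by omega) _)
  by_contra hcon
  push Not at hcon
  have hg0 : (0 : ℝ) < g := by exact_mod_cast hg
  have hDK := finrank_pos' (L := K)
  have h1 : ((N ^ 3 * (16 * (C₃ * g)) : ℕ) + (16 * (C₃ * g) : ℕ) : ℝ) ≤ (N : ℝ) ^ 8 := by
    have e1 : 16 * (C₃ * g) ≤ N ^ 4 := by
      calc 16 * (C₃ * g) ≤ N * N ^ 3 := Nat.mul_le_mul hN16 hsN
        _ = N ^ 4 := by ring
    have e2 : N ^ 3 * (16 * (C₃ * g)) + 16 * (C₃ * g) ≤ N ^ 8 := by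
      have e3 : N ^ 4 ≤ N ^ 7 := Nat.pow_le_pow_right (by omega) (by norm_num)
      calc _ ≤ N ^ 3 * N ^ 4 + N ^ 4 := Nat.add_le_add (Nat.mul_le_mul_left _ e1) e1
        _ ≤ 2 * N ^ 7 := by
          have : N ^ 3 * N ^ 4 = N ^ 7 := by ring
          omega
        _ ≤ N * N ^ 7 := Nat.mul_le_mul_right _ (by omega)
        _ = N ^ 8 := by ring
    exact_mod_cast e2
  have hgain := gain (v₀ := v₀) hB hd hF hc hcomm hZ hT (Q := N ^ 3) (s := C₃ * g) hg0 Bad hpr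
    (fun z => by
      have h2 := hw z
      have h3 : ∑ w ∈ TP L (mi v₀), (if z ∉ Bad w then ew K w / (g : ℝ) else 0) =
          (∑ w ∈ TP L (mi v₀), (if z ∉ Bad w then ew K w else 0)) / g := by
        rw [Finset.sum_div]
        refine Finset.sum_congr rfl fun w _ => ?_
        split_ifs
        · rw [zero_div]
        · rfl
      rw [h3, div_le_div_iff₀ (by linarith) hg0]
      nlinarith) hH
    (fun P h2 h3 h4 => by
      by_contra h5
      obtain ⟨z, hz, hz'⟩ := hcon P h5 h2 h3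
      exact hz' (h4 z hz))
    (by
      refine le_trans ?_ hH1
      exact mul_le_mul_of_nonneg_right h1 hH0)
  rw [← hN₁] at hgain
  have hE : 0 ≤ hC A a * ((c + d : ℕ) : ℝ) := mul_nonneg hB.hC_nonneg (Nat.cast_nonneg _)
  have h2 := hgain.trans (rhs_le hN16 hsN rfl hE)
  have h3 := one_le_log hN₁16
  have h4 : ((C₃ * g : ℕ) : ℝ) * Real.log N₁ / (4 * g * finrank ℚ K) =
      (C₃ / (4 * finrank ℚ K)) * Real.log N₁ := by
    push_cast
    field_simp
  have h4' : Real.log N = m * Real.log N₁ := by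
    rw [hN]
    push_cast
    rw [Real.log_pow]
  rw [h4, h4', ← mul_assoc] at h2
  have h5 := le_of_mul_le_mul_right h2 (by linarith)
  rw [div_le_iff₀ (by positivity)] at h5
  linarith

end

end Pool.Agent.NH29.AB
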