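import Mathlib
import Pool.Agent.NH29.AB.Per

/-!
Numbers of conjugates of the iterates of a point of a Galois extension.
-/

set_option autoImplicit false
set_option linter.unusedSectionVars false

namespace Pool.Agent.NH29.AB

open NumberField Module Polynomial
open Pool.Agent.W238.Leh
open Pool.Agent.H627.LP hiding det_ineq det_ineq' local_gain
open Pool.Agent.H420R3 (mi nv TP ew)
open Pool.Agent.R829.BG hiding two_gain two_ineq classes_rel step_zero step_last core step_of
  exists_orb
open Pool.Agent.R829.BH (exists_orb canH_vec)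

noncomputable section

variable {K : Type} [Field K] [NumberField K] {L : Type} [Field L] [NumberField L] [Algebra K L]
variable {F : Fin (1 + 1) → MvPolynomial (Fin (1 + 1)) K} {d c a : ℕ} {A : ℝ}

section Conj

variable [DecidableEq L] [Fintype Gal(L/K)]

/-- an upper bound for the number of conjugates by the number of conjugates of an iterate -/
lemma card_conj2 (hB : Bds F d A a) (hF : ∀ i, (F i).IsHomogeneous d)
    {x : Fin (1 + 1) → L} (hx : x ≠ 0) (hw : Wnd F x)
    (h0 : 0 ∈ JJ F x) {i : ℕ} (hi : i ∈ JJ F x) :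
    (cj K (ax F x 0)).card ≤ d ^ i * (cj K (ax F x i)).card := by
  classical
  obtain ⟨h4, h5⟩ := step_ax hF h0 (n := i) (by rwa [zero_add])
  rw [zero_add] at h5
  have h6 : aeval (ax F x 0) (nf F i) = ax F x i * aeval (ax F x 0) (df F i) := by
    rw [h5, div_mul_cancel₀ _ h4]
  have hg : ∀ (g : Gal(L/K)) (y : L) (R : K[X]), aeval (g y) R = g (aeval y R) :=
    fun g y R => aeval_algHom_apply (g : L →ₐ[K] L) y R
  set f : L → L := fun y => aeval y (nf F i) / aeval y (df F i) with hf
  have hfg : ∀ g : Gal(L/K), f (g (ax F x 0)) = g (ax F x i) := by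
    intro g
    simp only [hf]
    rw [hg, hg, ← map_div₀, ← h5]
  have himg : (cj K (ax F x 0)).image f ⊆ cj K (ax F x i) := by
    intro y hy
    obtain ⟨y₁, hy₁, rfl⟩ := Finset.mem_image.mp hy
    obtain ⟨g, rfl⟩ := mem_cj.mp hy₁
    rw [hfg]
    exact mem_cj.mpr ⟨g, rfl⟩
  refine le_trans ?_ (Nat.mul_le_mul_left _ (Finset.card_le_card himg))
  refine Finset.card_le_mul_card_image _ _ fun y hy => ?_
  obtain ⟨y₁, hy₁, rfl⟩ := Finset.mem_image.mp hy
  obtain ⟨g₀, rfl⟩ := mem_cj.mp hy₁
  rw [hfg]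
  -- the polynomial
  set Φ : L[X] := (nf F i).map (algebraMap K L) -
    C (g₀ (ax F x i)) * (df F i).map (algebraMap K L) with hΦ
  have hΦd : Φ.natDegree ≤ d ^ i := by
    refine (natDegree_sub_le _ _).trans (max_le (natDegree_map_le.trans (natDegree_nf hF i)) ?_)
    exact (natDegree_C_mul_le _ _).trans (natDegree_map_le.trans (natDegree_df hF i))
  have hΦe : ∀ z : L, Φ.eval z = aeval z (nf F i) - g₀ (ax F x i) * aeval z (df F i) := by
    intro z
    rw [hΦ, eval_sub, eval_mul, eval_C, eval_map_algebraMap, eval_map_algebraMap]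
  have hΦ0 : Φ ≠ 0 := by
    intro hz
    obtain ⟨k, hk1, hk⟩ : ∃ k, 1 ≤ k ∧ k ∈ JJ F x := by
      by_cases h1 : 1 ∈ JJ F x
      · exact ⟨1, le_rfl, h1⟩
      · refine ⟨2, by norm_num, ?_⟩
        by_contra h2
        have := infty_unique hB hF hx hw h1 h2
        omega
    have h1' := hΦe (g₀ (ax F x k))
    rw [hz, eval_zero, hg, hg, ← map_mul, ← map_sub] at h1'
    have h1 : aeval (ax F x k) (nf F i) - ax F x i * aeval (ax F x k) (df F i) = 0 :=
      (map_eq_zero g₀).mp h1'.symm
    obtain ⟨b, hb, h2⟩ := iter_vec hF hk i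
    rw [aeval_nf, aeval_df, h2] at h1
    have hi' : ((act F)^[i] x) 1 ≠ 0 := hi
    refine ax_ne hB hx hw (i := k + i) (j := i) (by omega) ?_
    have h3 : ax F x i * ((act F)^[i] x) 1 = ((act F)^[i] x) 0 := div_mul_cancel₀ _ hi'
    rw [← h3]
    simp only [Pi.smul_apply, smul_eq_mul] at h1
    have h4 : b * (((act F)^[k + i] x) 0 - ax F x i * ((act F)^[k + i] x) 1) = 0 := by
      linear_combination h1
    rcases mul_eq_zero.mp h4 with h5 | h5
    · exact absurd h5 hb
    · linear_combination ((act F)^[i] x) 1 * h5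
  refine le_trans ?_ ((card_roots' Φ).trans hΦd)
  refine le_trans ?_ (Multiset.toFinset_card_le _)
  refine Finset.card_le_card fun y hy => ?_
  obtain ⟨h7, h8⟩ := Finset.mem_filter.mp hy
  obtain ⟨g, rfl⟩ := mem_cj.mp h7
  rw [hfg] at h8
  rw [Multiset.mem_toFinset, mem_roots hΦ0, IsRoot, hΦe, hg, hg, h6, map_mul, h8, sub_self]

/-- the first iterates are finite -/
lemma mem_JJ2 (hB : Bds F d A a) (hF : ∀ i, (F i).IsHomogeneous d) (hd : 2 ≤ d)
    {x : Fin (1 + 1) → L} (hx : x ≠ 0) (hw : Wnd F x) {i : ℕ}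
    (hD : d ^ i < (cj K (ax F x 0)).card) : i ∈ JJ F x := by
  classical
  have hd1 : 1 ≤ d ^ i := Nat.one_le_pow _ _ (by omega)
  have h0 : 0 ∈ JJ F x := by
    intro h1
    have h1' : x 1 = 0 := h1
    have h2 : ax F x 0 = 0 := by
      change x 0 / x 1 = 0
      rw [h1', div_zero]
    have h3 : (cj K (ax F x 0)).card ≤ 1 := by
      rw [h2]
      refine Finset.card_le_one.mpr fun y hy y' hy' => ?_
      obtain ⟨g, rfl⟩ := mem_cj.mp hy
      obtain ⟨g', rfl⟩ := mem_cj.mp hy'
      rw [map_zero, map_zero]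
    omega
  by_contra hi
  have h0i : i ≠ 0 := by
    rintro rfl
    exact hi h0
  -- the denominator has many roots
  have hdf0 : df F i ≠ 0 := by
    intro hz
    obtain ⟨k, hk1, hk⟩ : ∃ k, 1 ≤ k ∧ k ∈ JJ F x := by
      by_cases h1 : 1 ∈ JJ F x
      · exact ⟨1, le_rfl, h1⟩
      · refine ⟨2, by norm_num, ?_⟩
        by_contra h2
        have := infty_unique hB hF hx hw h1 h2
        omega
    obtain ⟨b, hb, h2⟩ := iter_vec hF hk i
    have h3 := aeval_df (F := F) i (ax F x k)
    rw [hz, map_zero, h2] at h3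
    have h4 : ((act F)^[k + i] x) 1 = 0 := by
      rcases mul_eq_zero.mp h3.symm with h5 | h5
      · exact absurd h5 hb
      · exact h5
    have h5 := infty_unique hB hF hx hw hi (show k + i ∉ JJ F x from fun h => h h4)
    omega
  have hroot : aeval (ax F x 0) (df F i) = 0 := by
    obtain ⟨b, hb, h2⟩ := iter_vec hF h0 i
    rw [aeval_df, h2, zero_add]
    have h3 : ((act F)^[i] x) 1 = 0 := by
      by_contra h
      exact hi h
    simp only [Pi.smul_apply, smul_eq_mul]
    rw [h3, mul_zero]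
  have h1 := card_cj_le (K := K) hdf0 hroot
  have h3 := natDegree_df hF i
  omega

end Conj

end

end Pool.Agent.NH29.AB
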