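import Mathlib
import Pool.Agent.NH29.AB.Core2
import Pool.Agent.NH29.AB.Main
import Pool.Agent.NH29.AB.Ocj

/-!
The core of the proof: a lower bound which is polynomial in the norm of the prime.
-/

set_option autoImplicit false
set_option linter.unusedSectionVars false

namespace Pool.Agent.NH29.AB

open NumberField Module Polynomial
open Pool.Agent.W238.Leh
open Pool.Agent.H627.LP hiding det_ineq det_ineq' local_gain
open Pool.Agent.H627.LR (GR)
open Pool.Agent.H627.LU (Classes)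
open Pool.Agent.H420R3 (mi nv TP ew mem_TP)
open Pool.Agent.R829.BG hiding two_gain two_ineq classes_rel step_zero step_last core step_of
  exists_orb
open Pool.Agent.R829.BH (Fr Pr2 fr_of canH_vec)

noncomputable section

variable {K : Type} [Field K] [NumberField K] {L : Type} [Field L] [NumberField L] [Algebra K L]
variable {F : Fin (1 + 1) → MvPolynomial (Fin (1 + 1)) K} {d c a : ℕ} {A : ℝ}
variable {v₀ : FinitePlace K}

/-- **the core** -/
theorem core2 [DecidableEq L] [IsGalois K L] (hB : Bds F d A a) (hd : 2 ≤ d)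
    (hF : ∀ i, (F i).IsHomogeneous d)
    (hc : ∀ m, c + d ≤ m → ∀ p : MvPolynomial (Fin (1 + 1)) K, p.IsHomogeneous m →
      p ∈ Ideal.span (Set.range F)) {σ : Gal(L/K)} (hcomm : ∀ g : Gal(L/K), g * σ = σ * g)
    (hT : ∀ w ∈ TP L (mi v₀), GR w F d) {N₁ m N C₃ e : ℕ} (hN₁ : N₁ = (mi v₀).absNorm)
    (hN₁16 : 16 ≤ N₁) (hm : 1 ≤ m) (hN : N = N₁ ^ m) (hκ : 128 * finrank ℚ K ≤ N)
    (hEN : 5 * (hC A a * (c + d : ℕ)) + 2 ≤ N)
    (hC₃ : 4 * finrank ℚ K * (m * (14 + 24 * (hC A a * (c + d : ℕ)))) < C₃)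
    (hC₃N : 32 * C₃ ^ 2 ≤ N) (he1 : 1 ≤ e) (he : e ≤ N ^ 2)
    (hfr : ∀ w ∈ TP L (mi v₀), Fr w (AlgHom.id K L) (σ : L →ₐ[K] L) (N ^ 3) (ew K w / (e : ℝ)))
    {x : Fin (1 + 1) → L} (hx : x ≠ 0) (hw : Wnd F x)
    (hpos : 0 < canH F d x) {C₆ : ℕ} (hC₆ : C₆ = 4 * d * (32 * C₃ + 1))
    (hD : N ^ (3 * C₆ + 30) ≤ (cj K (ax F x 0)).card) :
    1 < (N : ℝ) ^ (C₆ + 10) * canH F d x := by
  classical
  have hN16 : 16 ≤ N := hN ▸ hN₁16.trans (Nat.le_self_pow (by omega) _)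
  by_contra hsmall
  push Not at hsmall
  have hN0 : (16 : ℝ) ≤ N := by exact_mod_cast hN16
  have hC₃1 : 1 ≤ C₃ := by
    have hE : 0 ≤ hC A a * ((c + d : ℕ) : ℝ) := mul_nonneg hB.hC_nonneg (Nat.cast_nonneg _)
    have h1 : (0 : ℝ) ≤ finrank ℚ K := Nat.cast_nonneg _
    have h2 : (0 : ℝ) < C₃ := lt_of_le_of_lt (by positivity) hC₃
    exact_mod_cast h2
  have hC₃N' : 32 * C₃ ≤ N := by nlinarith
  obtain ⟨T, hTdef⟩ : ∃ T, T = 16 * (C₃ * e) := ⟨_, rfl⟩
  obtain ⟨L₀, hL₀⟩ : ∃ L₀, L₀ = 32 * C₃ + 1 := ⟨_, rfl⟩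
  obtain ⟨I, hI⟩ : ∃ I, I = L₀ * (Nat.log 2 T + 1) := ⟨_, rfl⟩
  have hCe : 0 < C₃ * e := Nat.mul_pos hC₃1 he1
  have hT1 : 1 ≤ T := by omega
  have h2T : 2 * T ≤ N ^ 3 := by
    calc 2 * T = (32 * C₃) * e := by rw [hTdef]; ring
      _ ≤ N * N ^ 2 := Nat.mul_le_mul hC₃N' he
      _ = N ^ 3 := by ring
  have hTN : T ≤ N ^ 3 := by omega
  have hTN' : T < N ^ 3 := by omega
  have h34 : N ^ 3 ≤ N ^ 4 := Nat.pow_le_pow_right (by omega) (by norm_num)
  have hdI : d ^ I ≤ N ^ C₆ := by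
    rw [hI, hC₆, ← hL₀]
    exact exp_le (by omega) hT1 (by omega)
  have hd1 : 1 ≤ d := by omega
  -- finiteness of the iterates and numbers of conjugates
  have hJJ : ∀ i, i ≤ 3 * I → i ∈ JJ F x := by
    intro i hi
    refine mem_JJ2 hB hF hd hx hw (lt_of_lt_of_le ?_ hD)
    calc d ^ i ≤ d ^ (I * 3) := Nat.pow_le_pow_right hd1 (by omega)
      _ = (d ^ I) ^ 3 := by rw [pow_mul]
      _ ≤ (N ^ C₆) ^ 3 := Nat.pow_le_pow_left hdI _
      _ = N ^ (3 * C₆) := by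
          rw [← pow_mul]
          congr 1
          ring
      _ < N ^ (3 * C₆ + 30) := Nat.pow_lt_pow_right (by omega) (by omega)
  have hcard : ∀ i, i ≤ I → N ^ (2 * C₆ + 30) ≤ (cj K (ax F x i)).card := by
    intro i hi
    have h1 := card_conj2 hB hF hx hw (hJJ 0 (by omega)) (hJJ i (by omega))
    have h2 : d ^ i ≤ N ^ C₆ := (Nat.pow_le_pow_right hd1 hi).trans hdI
    have h3 : N ^ (3 * C₆ + 30) ≤ N ^ C₆ * (cj K (ax F x i)).card :=
      (hD.trans h1).trans (Nat.mul_le_mul_right _ h2)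
    have h4 : N ^ (3 * C₆ + 30) = N ^ C₆ * N ^ (2 * C₆ + 30) := by
      rw [← pow_add]
      congr 1
      ring
    rw [h4] at h3
    exact Nat.le_of_mul_le_mul_left h3 (by positivity)
  have hcard23 : ∀ i, i ≤ I → N ^ 23 ≤ (cj K (ax F x i)).card := fun i hi =>
    (Nat.pow_le_pow_right (by omega) (by omega)).trans (hcard i hi)
  -- heights
  obtain ⟨H, hH⟩ : ∃ H : ℝ, H = (N : ℝ) ^ C₆ * canH F d x := ⟨_, rfl⟩
  have hH0 : 0 ≤ H := by
    rw [hH]
    positivity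
  have hH10 : (N : ℝ) ^ 10 * H ≤ 1 := by
    refine le_trans (le_of_eq ?_) hsmall
    rw [hH, pow_add]
    ring
  have hH8 : (N : ℝ) ^ 8 * H ≤ 1 := by
    refine le_trans (mul_le_mul_of_nonneg_right ?_ hH0) hH10
    exact pow_le_pow_right₀ (by linarith) (by norm_num)
  have hHi : ∀ i, i ≤ I → canH F d (![ax F x i, 1] : Fin (1 + 1) → L) ≤ H := by
    intro i hi
    rw [canH_ax hB hd hF hx (hJJ i (by omega)), hH]
    apply mul_le_mul_of_nonneg_right _ hpos.le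
    have h1 : d ^ i ≤ N ^ C₆ := (Nat.pow_le_pow_right hd1 hi).trans hdI
    exact_mod_cast h1
  have hHcj : ∀ i, i ≤ I → ∀ z ∈ cj K (ax F x i),
      canH F d (![z, 1] : Fin (1 + 1) → L) ≤ H := by
    intro i hi z hz
    obtain ⟨g, rfl⟩ := mem_cj.mp hz
    rw [show g (ax F x i) = (g : L →ₐ[K] L) (ax F x i) from rfl, canH_vec]
    exact hHi i hi
  -- the relations
  have hrel : ∀ i, i ≤ I → ∃ P : K[X][X], Irreducible P ∧ P.natDegree ≤ T ∧ XD (N ^ 3 * T) P ∧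
      ev (ax F x i) (σ (ax F x i)) P = 0 := by
    intro i hi
    obtain ⟨G, hG, hGb, hGa, hGz⟩ := exists_rel_of2 (v₀ := v₀) (Z := cj K (ax F x i)) hB hd hF hc
      hcomm (fun g z hz => cj_stable _ g hz) hT hN₁ hN₁16 hm hN hC₃ he1 (by
        have : C₃ * e ≤ T := by omega
        omega) (fun _ => ∅)
      (fun w hw z _ => (hfr w hw).pr2 z.1)
      (fun z => by
        simp only [Finset.notMem_empty, not_false_eq_true, if_true]
        have : 0 ≤ ∑ w ∈ TP L (mi v₀), ew K w :=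
          Finset.sum_nonneg fun w _ => (H420R3.ew_pos w).le
        linarith) (hHcj i hi) hH0 hH8
    rw [← hTdef] at hGb hGa
    exact irr_factor hG (hGz _ (self_mem_cj _)) hGb hGa
  choose! P hPirr hPb hPa hPz using hrel
  have hαN : N ^ 3 * T ≤ N ^ 6 := by
    calc N ^ 3 * T ≤ N ^ 3 * N ^ 3 := Nat.mul_le_mul_left _ hTN
      _ = N ^ 6 := by ring
  have hgood : ∀ i, i ≤ I → ∃ k, 1 ≤ k ∧ k ≤ (P i).natDegree ∧ ∀ γ : ℝ, (k : ℝ) ≤ γ →
      ∀ y ∈ cj K (ax F x i), ∑ w ∈ TP L (mi v₀), ew K w ≤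
        2 * ∑ w ∈ TP L (mi v₀), if Gd σ (N ^ 3) γ w y then ew K w else 0 := by
    intro i hi
    obtain ⟨k, h1, h2, _, h3⟩ := good_num2 hB hd hF hc hcomm hT hN₁ hN₁16 hm hN hκ hEN he1 he hfr
      (hPirr i hi).ne_zero (hPb i hi) (hPa i hi) hTN hαN (hPz i hi) (hHi i hi) hH0 hH10
      (hcard23 i hi)
    exact ⟨k, h1, h2, h3⟩
  choose! k hk1 hkb hkg using hgood
  have hkT : ∀ i, i ≤ I → k i ≤ T := fun i hi => (hkb i hi).trans (hPb i hi)
  -- no periodic relations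
  have hnoper : ∀ i j, i < j → j ≤ I → ev (ax F x j) (σ (ax F x j)) (P i) = 0 → False := by
    intro i j hij hjI h0
    have hiI : i ≤ I := by omega
    have hper := per hB hd hF hx hw hpos σ (hPirr i hiI) (n := j - i) (by omega) (hPa i hiI)
      (hPb i hiI) (hJJ i (by omega)) (hJJ _ (by omega)) (hJJ _ (by omega)) (hPz i hiI)
      (by
        have : i + (j - i) = j := by omega
        rw [this]
        exact h0)
      (by
        refine lt_of_lt_of_le ?_ (hcard i hiI)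
        have e1 : d ^ (2 * (j - i)) ≤ N ^ (2 * C₆) := by
          calc d ^ (2 * (j - i)) ≤ d ^ (I * 2) := Nat.pow_le_pow_right hd1 (by omega)
            _ = (d ^ I) ^ 2 := by rw [pow_mul]
            _ ≤ (N ^ C₆) ^ 2 := Nat.pow_le_pow_left hdI _
            _ = N ^ (2 * C₆) := by
                rw [← pow_mul]
                congr 1
                ring
        have e2 : T * (N ^ 3 * T * d ^ (2 * (j - i))) ≤ N ^ (2 * C₆ + 9) := by
          calc T * (N ^ 3 * T * d ^ (2 * (j - i))) ≤ N ^ 3 * (N ^ 6 * N ^ (2 * C₆)) :=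
                Nat.mul_le_mul hTN (Nat.mul_le_mul hαN e1)
            _ = N ^ (2 * C₆ + 9) := by ring
        have e3 : T * d ^ (2 * (j - i)) * (N ^ 3 * T) ≤ N ^ (2 * C₆ + 9) := by
          refine le_trans (le_of_eq ?_) e2
          ring
        have e4 : N ^ 3 * T ≤ N ^ (2 * C₆ + 9) :=
          hαN.trans (Nat.pow_le_pow_right (by omega) (by omega))
        have e5 : 1 ≤ N ^ (2 * C₆ + 9) := Nat.one_le_pow _ _ (by omega)
        calc _ ≤ 3 * N ^ (2 * C₆ + 9) := by omega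
          _ < 16 * N ^ (2 * C₆ + 9) := by omega
          _ ≤ N * N ^ (2 * C₆ + 9) := Nat.mul_le_mul_right _ hN16
          _ = N ^ (2 * C₆ + 10) := by ring
          _ ≤ N ^ (2 * C₆ + 30) := Nat.pow_le_pow_right (by omega) (by omega))
    obtain ⟨_, _, _, h3, _⟩ := good_num2 hB hd hF hc hcomm hT hN₁ hN₁16 hm hN hκ hEN he1 he hfr
      (hPirr i hiI).ne_zero (hPb i hiI) hper hTN
      ((hPb i hiI).trans (hTN.trans (Nat.pow_le_pow_right (by omega) (by norm_num))))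
      (hPz i hiI) (hHi i hiI) hH0 hH10 (hcard23 i hiI)
    have := hPb i hiI
    omega
  -- the pigeonhole principle
  obtain ⟨κ, hκr, hJcard⟩ : ∃ κ ∈ Finset.range (Nat.log 2 T + 1),
      L₀ ≤ ((Finset.range I).filter fun i => Nat.log 2 (k i) = κ).card := by
    refine Finset.exists_le_card_fiber_of_mul_le_card_of_maps_to (s := Finset.range I)
      (t := Finset.range (Nat.log 2 T + 1)) (f := fun i => Nat.log 2 (k i)) ?_ ?_ ?_
    · intro i hi
      have hi' := Finset.mem_range.mp hi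
      rw [Finset.mem_range]
      have := Nat.log_mono_right (b := 2) (hkT i hi'.le)
      omega
    · exact ⟨0, Finset.mem_range.mpr (by omega)⟩
    · rw [Finset.card_range, Finset.card_range, hI]
      exact le_of_eq (mul_comm _ _)
  obtain ⟨J, hJ⟩ : ∃ J, J = (Finset.range I).filter fun i => Nat.log 2 (k i) = κ := ⟨_, rfl⟩
  rw [← hJ] at hJcard
  have hJI : ∀ i ∈ J, i ≤ I ∧ 2 ^ κ ≤ k i ∧ k i < 2 ^ (κ + 1) := by
    intro i hi
    rw [hJ, Finset.mem_filter, Finset.mem_range] at hi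
    obtain ⟨h1, h2⟩ := hi
    have h3 := hk1 i h1.le
    refine ⟨h1.le, ?_, ?_⟩
    · rw [← h2]
      exact Nat.pow_log_le_self 2 (by omega)
    · rw [← h2]
      exact Nat.lt_pow_succ_log_self (by norm_num) _
  obtain ⟨j₀, hj₀⟩ : J.Nonempty := Finset.card_pos.mp (by omega)
  obtain ⟨g, hg⟩ : ∃ g, g = 2 ^ (κ + 1) := ⟨_, rfl⟩
  have hg1 : 1 ≤ g := by
    rw [hg]
    exact Nat.one_le_two_pow
  have hgT : g ≤ 2 * T := by
    have h1 := (hJI j₀ hj₀).2.1
    have h2 := hkT j₀ (hJI j₀ hj₀).1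
    rw [hg, pow_succ]
    omega
  have hCgN : C₃ * g ≤ N ^ 3 := by
    calc C₃ * g ≤ C₃ * (2 * T) := Nat.mul_le_mul_left _ hgT
      _ = (32 * C₃ ^ 2) * e := by rw [hTdef]; ring
      _ ≤ N * N ^ 2 := Nat.mul_le_mul hC₃N he
      _ = N ^ 3 := by ring
  -- the relation for all the points
  obtain ⟨Z, hZ⟩ : ∃ Z : Finset L, Z = J.biUnion fun i => cj K (ax F x i) := ⟨_, rfl⟩
  have hZmem : ∀ z ∈ Z, ∃ i ∈ J, z ∈ cj K (ax F x i) := by
    intro z hz
    rw [hZ, Finset.mem_biUnion] at hz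
    exact hz
  obtain ⟨R, hR0, hRb, hRa, hRz⟩ := exists_rel_of2 (v₀ := v₀) (Z := Z) hB hd hF hc
    hcomm (fun h z hz => by
      obtain ⟨i, hi, hzi⟩ := hZmem z hz
      rw [hZ, Finset.mem_biUnion]
      exact ⟨i, hi, cj_stable _ h hzi⟩) hT hN₁ hN₁16 hm hN hC₃ hg1 hCgN
    (fun w => Finset.univ.filter fun z => ¬ Gd σ (N ^ 3) (g : ℝ) w z.1)
    (fun w hw z hz => by
      have h1 : Gd σ (N ^ 3) (g : ℝ) w z.1 := by
        by_contra h
        exact hz (Finset.mem_filter.mpr ⟨Finset.mem_univ _, h⟩)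
      exact h1.pr2 (by exact_mod_cast hg1))
    (fun z => by
      obtain ⟨i, hi, hzi⟩ := hZmem z.1 z.2
      have h1 := hkg i (hJI i hi).1 (g : ℝ) (by
        have := (hJI i hi).2.2
        rw [← hg] at this
        exact_mod_cast this.le) z.1 hzi
      refine h1.trans (le_of_eq ?_)
      congr 1
      refine Finset.sum_congr rfl fun w _ => ?_
      by_cases h : Gd σ (N ^ 3) (g : ℝ) w z.1
      · rw [if_pos h, if_pos (by simp [h])]
      · rw [if_neg h, if_neg (by simp [h])])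
    (fun z hz => by
      obtain ⟨i, hi, hzi⟩ := hZmem z hz
      exact hHcj i (hJI i hi).1 z hzi) hH0 hH8
  have hdvd : ∀ i ∈ J, P i ∣ R := by
    intro i hi
    have hiI := (hJI i hi).1
    refine dvd_of_ev (σ := σ) (z := ax F x i) (hPirr i hiI) (hPa i hiI) (hPb i hiI) hRa hRb
      (hPz i hiI) (hRz _ (by
        rw [hZ, Finset.mem_biUnion]
        exact ⟨i, hi, self_mem_cj _⟩)) (lt_of_lt_of_le ?_ (hcard i hiI))
    have e1 : 16 * (C₃ * g) ≤ N ^ 4 := by
      calc 16 * (C₃ * g) ≤ N * N ^ 3 := Nat.mul_le_mul hN16 hCgN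
        _ = N ^ 4 := by ring
    have e2 : T * (N ^ 3 * (16 * (C₃ * g))) ≤ N ^ 10 := by
      calc T * (N ^ 3 * (16 * (C₃ * g))) ≤ N ^ 3 * (N ^ 3 * N ^ 4) :=
            Nat.mul_le_mul hTN (Nat.mul_le_mul_left _ e1)
        _ = N ^ 10 := by ring
    have e3 : 16 * (C₃ * g) * (N ^ 3 * T) ≤ N ^ 10 := by
      refine le_trans (le_of_eq ?_) e2
      ring
    have e4 : N ^ 3 * T ≤ N ^ 10 :=
      hαN.trans (Nat.pow_le_pow_right (by omega) (by norm_num))
    have e5 : 1 ≤ N ^ 10 := Nat.one_le_pow _ _ (by omega)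
    calc _ ≤ 3 * N ^ 10 := by omega
      _ < 16 * N ^ 10 := by omega
      _ ≤ N * N ^ 10 := Nat.mul_le_mul_right _ hN16
      _ = N ^ 11 := by ring
      _ ≤ N ^ (2 * C₆ + 30) := Nat.pow_le_pow_right (by omega) (by omega)
  have hprod : ∏ i ∈ J, P i ∣ R := by
    refine prod_dvd J P (fun i hi => hPirr i (hJI i hi).1) hdvd ?_
    intro i hi j hj hij hPij
    have hiI := (hJI i hi).1
    have hjI := (hJI j hj).1
    have hass : Associated (P i) (P j) := (hPirr i hiI).associated_of_dvd (hPirr j hjI) hPij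
    rcases Nat.lt_or_gt_of_ne hij with h | h
    · apply hnoper i j h hjI
      obtain ⟨U, hU⟩ := hass.symm.dvd
      rw [hU, map_mul, hPz j hjI, zero_mul]
    · apply hnoper j i h hiI
      obtain ⟨U, hU⟩ := hPij
      rw [hU, map_mul, hPz i hiI, zero_mul]
  have hdeg := natDegree_le_of_dvd hprod hR0
  rw [natDegree_prod _ _ (fun i hi => (hPirr i (hJI i hi).1).ne_zero)] at hdeg
  have h1 : J.card * 2 ^ κ ≤ ∑ i ∈ J, (P i).natDegree := by
    rw [← smul_eq_mul]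
    exact Finset.card_nsmul_le_sum _ _ _ fun i hi =>
      (hJI i hi).2.1.trans (hkb i (hJI i hi).1)
  have h2 : L₀ * 2 ^ κ ≤ 16 * (C₃ * g) :=
    ((Nat.mul_le_mul_right _ hJcard).trans h1).trans (hdeg.trans hRb)
  rw [hL₀, hg, pow_succ] at h2
  have h3 : 0 < 2 ^ κ := by positivity
  nlinarith

end

end Pool.Agent.NH29.AB
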