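import Mathlib
import Pool.Agent.NH29.AB.Main2
import Pool.Agent.NH29.AB.AtP

/-!
The lower bound at a tamely ramified prime.
-/

set_option autoImplicit false
set_option linter.unusedSectionVars false

namespace Pool.Agent.NH29.AB

open NumberField Module Polynomial
open Pool.Agent.W238.Leh
open Pool.Agent.H627.LP hiding det_ineq det_ineq' local_gain
open Pool.Agent.H627.LR (GR GoodK)
open Pool.Agent.H627.LU (Classes)
open Pool.Agent.H420R3 (mi nv TP ew mem_TP)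
open Pool.Agent.R829.BG hiding two_gain two_ineq classes_rel step_zero step_last core step_of
  exists_orb
open Pool.Agent.R829.BH (Fr Pr2 fr_of canH_vec ram_bound)

noncomputable section

variable {K : Type} [Field K] [NumberField K] {L : Type} [Field L] [NumberField L] [Algebra K L]
variable {F : Fin (1 + 1) → MvPolynomial (Fin (1 + 1)) K} {d c a : ℕ} {A : ℝ}
variable {v₀ : FinitePlace K}

/-- **the bound at a tamely ramified prime** -/
theorem at_prime2 [DecidableEq L] [IsGalois K L] (hB : Bds F d A a) (hd : 2 ≤ d)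
    (hF : ∀ i, (F i).IsHomogeneous d)
    (hc : ∀ m, c + d ≤ m → ∀ p : MvPolynomial (Fin (1 + 1)) K, p.IsHomogeneous m →
      p ∈ Ideal.span (Set.range F)) {m : ℕ} (hm : 1 ≤ m)
    (hcen : ∀ σ g : Gal(L/K), σ ^ m * g = g * σ ^ m)
    (hG : GoodK (mi v₀) F d) {p : ℕ} (hp : p.Prime) (hpP : (p : 𝓞 K) ∈ mi v₀)
    (hpD : ¬ p ∣ finrank K L) {N₁ N C₃ : ℕ} (hN₁ : N₁ = (mi v₀).absNorm)
    (hN₁16 : 16 ≤ N₁) (hN : N = N₁ ^ m) (hκ : 128 * finrank ℚ K ≤ N)
    (hEN : 5 * (hC A a * (c + d : ℕ)) + 2 ≤ N)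
    (hC₃ : 4 * finrank ℚ K * (m * (14 + 24 * (hC A a * (c + d : ℕ)))) < C₃)
    (hC₃N : 32 * C₃ ^ 2 ≤ N)
    {x : Fin (1 + 1) → L} (hx : x ≠ 0) (hw : Wnd F x)
    (hpos : 0 < canH F d x) {C₆ : ℕ} (hC₆ : C₆ = 4 * d * (32 * C₃ + 1))
    (hD : N ^ (3 * C₆ + 30) ≤ (cj K (ax F x 0)).card) :
    1 < (N : ℝ) ^ (C₆ + 10) * canH F d x := by
  have hP0 := H420R3.mi_ne_bot v₀
  have hN16 : 16 ≤ N := hN ▸ hN₁16.trans (Nat.le_self_pow (by omega) _)
  obtain ⟨σ, hσ, hfr⟩ := exists_common (L := L) hP0 3 m hcen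
  have hpN : p ≤ N := by
    refine (hN₁ ▸ prime_le_absNorm hP0 hp hpP : p ≤ N₁).trans ?_
    rw [hN]
    exact Nat.le_self_pow (by omega) _
  have hram : ∀ 𝔓 : Ideal (𝓞 L), 𝔓.IsPrime → 𝔓.under (𝓞 K) = mi v₀ →
      𝔓.ramificationIdx (𝓞 K) ≤ p * N := by
    intro 𝔓 h1 h2
    have h3 := ram_bound (E := L) hP0 m 1 1 p hm hp hpP (fun σ 𝔔 _ _ _ => by
      have h4 : (Set.range fun g : Gal(L/K) => g * σ ^ m * g⁻¹) = {σ ^ m} := by
        apply Set.eq_singleton_iff_unique_mem.mpr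
        refine ⟨⟨1, by simp⟩, ?_⟩
        rintro _ ⟨g, rfl⟩
        simp only
        rw [← hcen, mul_inv_cancel_right]
      rw [h4, Set.ncard_singleton]) h1 h2 (by
      rw [pow_one]
      exact fun h => hpD (h.trans (ram_dvd hP0 𝔓 h2)))
    rwa [one_mul, pow_one, ← hN₁, ← hN] at h3
  have he1 : 1 ≤ p * N := Nat.mul_pos hp.pos (by omega)
  refine core2 (σ := σ) (e := p * N) hB hd hF hc (fun g => (hσ g).symm)
    (fun w hw => hG.gr hP0 (by omega) hw) hN₁ hN₁16 hm hN hκ hEN hC₃ hC₃N he1 ?_ ?_ hx hw hpos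
    hC₆ hD
  · calc p * N ≤ N * N := Nat.mul_le_mul_right _ hpN
      _ = N ^ 2 := by ring
  · intro w hw
    have hlo := H420R3.liesOver_of_mem hP0 hw
    have h1 := hfr w hw
    have h1' : ((mi v₀).absNorm ^ 3) ^ m = N ^ 3 := by
      rw [hN, ← hN₁, ← pow_mul, ← pow_mul, mul_comm]
    rw [h1'] at h1
    have h2 := fr_of (L := L) hP0 hw h1 he1 (by
      refine hram _ ?_ ?_
      · infer_instance
      · rw [Ideal.under_under]
        exact hlo.over.symm)
    refine ⟨fun z hz => ?_, fun z hz => ?_⟩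
    · have h3 := h2.fr z hz
      rw [mul_one_div] at h3
      exact h3
    · have h3 := h2.sm z hz
      rw [mul_one_div] at h3
      exact h3

end

end Pool.Agent.NH29.AB
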