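import Mathlib

/-!
A small prime which does not divide a given number.
-/

set_option autoImplicit false

namespace Pool.Agent.NH29.AB

lemma theta_pow_four {m : ℕ} (hm : 48 ≤ m) :
    (m : ℝ) ^ 4 / 2 ≤ Chebyshev.theta ((m ^ 4 : ℕ) : ℝ) := by
  have h1 := Chebyshev.theta_ge (m ^ 4)
  have hm0 : (48 : ℝ) ≤ m := by exact_mod_cast hm
  have h7 : ((m ^ 4 : ℕ) : ℝ) = (m : ℝ) ^ 4 := by push_cast; ring
  rw [h7] at h1 ⊢
  have h2 : Real.sqrt ((m : ℝ) ^ 4) = (m : ℝ) ^ 2 := by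
    rw [show (m : ℝ) ^ 4 = ((m : ℝ) ^ 2) ^ 2 by ring]
    exact Real.sqrt_sq (by positivity)
  have h3 : Real.log ((m : ℝ) ^ 4) = 4 * Real.log m := by
    rw [Real.log_pow]
    norm_num
  have h4 : Real.log m ≤ m := by
    have := Real.log_le_sub_one_of_pos (show (0 : ℝ) < m by linarith)
    linarith
  have h5 : Real.log ((m : ℝ) ^ 4 + 1) ≤ 4 * m + 1 := by
    have e1 : ((m : ℝ) ^ 4 + 1) ≤ 2 * (m : ℝ) ^ 4 := by
      have : (1 : ℝ) ≤ (m : ℝ) ^ 4 := one_le_pow₀ (by linarith)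
      linarith
    have e2 := Real.log_le_log (by positivity) e1
    rw [Real.log_mul (by norm_num) (by positivity), h3] at e2
    have e3 := Real.log_two_lt_d9
    linarith
  rw [h2, h3] at h1
  have h6 := Real.log_two_gt_d9
  have h8 : 2 * (m : ℝ) ^ 2 * (4 * Real.log m) ≤ 8 * (m : ℝ) ^ 3 := by
    have : (m : ℝ) ^ 2 * Real.log m ≤ (m : ℝ) ^ 2 * m :=
      mul_le_mul_of_nonneg_left h4 (by positivity)
    nlinarith
  have h9 : (m : ℝ) ^ 4 * 0.69 ≤ (m : ℝ) ^ 4 * Real.log 2 :=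
    mul_le_mul_of_nonneg_left (by linarith) (by positivity)
  have h10 : (48 : ℝ) * (m : ℝ) ^ 3 ≤ (m : ℝ) ^ 4 := by
    have : (0 : ℝ) ≤ (m : ℝ) ^ 3 := by positivity
    calc (48 : ℝ) * (m : ℝ) ^ 3 ≤ m * (m : ℝ) ^ 3 := mul_le_mul_of_nonneg_right hm0 this
      _ = (m : ℝ) ^ 4 := by ring
  have h11 : (2304 : ℝ) * m ≤ (m : ℝ) ^ 3 := by
    have : (2304 : ℝ) ≤ (m : ℝ) ^ 2 := by nlinarith
    calc (2304 : ℝ) * m ≤ (m : ℝ) ^ 2 * m := mul_le_mul_of_nonneg_right this (by linarith)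
      _ = (m : ℝ) ^ 3 := by ring
  nlinarith

/-- **a small prime which does not divide a given number** -/
theorem exists_prime (B : ℕ) : ∀ D : ℕ, 1 ≤ D → ∃ p : ℕ, p.Prime ∧ B < p ∧ ¬ p ∣ D ∧
    (p : ℝ) ≤ ((4 * B + 49 : ℕ) * (1 + Real.log D)) ^ 4 := by
  intro D hD
  have hlogD : 0 ≤ Real.log D := Real.log_natCast_nonneg D
  obtain ⟨m, hm⟩ : ∃ m, m = ⌊4 * (B : ℝ) + 2 * Real.log D⌋₊ + 49 := ⟨_, rfl⟩
  have hB0 : (0 : ℝ) ≤ B := Nat.cast_nonneg _
  have hm1 : (m : ℝ) ≤ 4 * B + 2 * Real.log D + 49 := by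
    rw [hm]
    push_cast
    have := Nat.floor_le (show 0 ≤ 4 * (B : ℝ) + 2 * Real.log D by positivity)
    linarith
  have hm2 : 4 * (B : ℝ) + 2 * Real.log D < m := by
    rw [hm]
    push_cast
    have := Nat.lt_floor_add_one (4 * (B : ℝ) + 2 * Real.log D)
    linarith
  have hm48 : 48 ≤ m := by omega
  by_contra hcon
  push Not at hcon
  have hp4 : ((m ^ 4 : ℕ) : ℝ) ≤ ((4 * B + 49 : ℕ) * (1 + Real.log D)) ^ 4 := by
    push_cast
    apply pow_le_pow_left₀ (Nat.cast_nonneg _)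
    refine hm1.trans ?_
    nlinarith
  have hdiv : ∀ p : ℕ, p.Prime → B < p → p ≤ m ^ 4 → p ∣ D := by
    intro p hp hBp hpm
    by_contra h
    have h1 := hcon p hp hBp h
    have h2 : (p : ℝ) ≤ ((m ^ 4 : ℕ) : ℝ) := by exact_mod_cast hpm
    linarith
  have h1 := theta_pow_four hm48
  have h2 : Chebyshev.theta ((m ^ 4 : ℕ) : ℝ) ≤ Chebyshev.theta (B : ℝ) + Real.log D := by
    rw [Chebyshev.theta_eq_sum_primesLE_log, Chebyshev.theta_eq_sum_primesLE_log]
    have h3 : (Nat.primesLE (m ^ 4)) ⊆ Nat.primesLE B ∪ D.primeFactors := by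
      intro p hp
      rw [Nat.mem_primesLE] at hp
      rw [Finset.mem_union, Nat.mem_primesLE, Nat.mem_primeFactors]
      rcases Nat.lt_or_ge B p with h | h
      · exact Or.inr ⟨hp.2, hdiv p hp.2 h hp.1, by omega⟩
      · exact Or.inl ⟨h, hp.2⟩
    have h4 : ∀ p : ℕ, 0 ≤ Real.log p := fun p => Real.log_natCast_nonneg p
    refine (Finset.sum_le_sum_of_subset_of_nonneg h3 fun p _ _ => h4 p).trans ?_
    have h5 := Finset.sum_union_inter (s₁ := Nat.primesLE B) (s₂ := D.primeFactors)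
      (f := fun p : ℕ => Real.log p)
    have h6 : 0 ≤ ∑ p ∈ Nat.primesLE B ∩ D.primeFactors, Real.log p :=
      Finset.sum_nonneg fun p _ => h4 p
    have h7 : ∑ p ∈ D.primeFactors, Real.log p ≤ Real.log D := by
      rw [← Real.log_prod (fun p hp => by
        have := (Nat.prime_of_mem_primeFactors hp).pos
        exact_mod_cast this.ne')]
      apply Real.log_le_log
      · exact Finset.prod_pos fun p hp => by
          exact_mod_cast (Nat.prime_of_mem_primeFactors hp).pos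
      · have e1 : ((∏ p ∈ D.primeFactors, p : ℕ) : ℝ) ≤ D :=
          Nat.cast_le.mpr (Nat.le_of_dvd (by omega) (Nat.prod_primeFactors_dvd D))
        rwa [Nat.cast_prod] at e1
    linarith
  have h3 := Chebyshev.theta_le_log4_mul_x (show (0 : ℝ) ≤ B from Nat.cast_nonneg _)
  have h4 : Real.log 4 ≤ 2 := by
    have e1 : Real.log 4 = 2 * Real.log 2 := by
      rw [show (4 : ℝ) = 2 ^ 2 by norm_num, Real.log_pow]
      norm_num
    have := Real.log_two_lt_d9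
    linarith
  have h5 : Real.log 4 * (B : ℝ) ≤ 2 * B := mul_le_mul_of_nonneg_right h4 hB0
  have h6 : (m : ℝ) ≤ (m : ℝ) ^ 4 := by
    have hm0 : (1 : ℝ) ≤ m := by
      have : (48 : ℝ) ≤ m := by exact_mod_cast hm48
      linarith
    exact le_self_pow₀ hm0 (by norm_num)
  linarith

end Pool.Agent.NH29.AB
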