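import Mathlib
import Pool.Agent.NH29.AB.AtP
import Pool.Agent.NH29.AB.Prime
import Pool.Agent.W238.Leh.General

/-!
The lower bound for points which generate abelian extensions.
-/

set_option autoImplicit false
set_option linter.unusedSectionVars false

namespace Pool.Agent.NH29.AB

open NumberField Module Filter Topology
open Pool.Agent.W238.Leh
open Pool.Agent.H627.LP hiding det_ineq det_ineq' local_gain
open Pool.Agent.H627.LR (GR GoodK IC transfer_scale)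
open Pool.Agent.H420R3 (mi nv TP ew mem_TP)
open Pool.Agent.R829.BG hiding two_gain two_ineq classes_rel step_zero step_last core step_of
  exists_orb

noncomputable section

variable {K : Type} [Field K] [NumberField K]

lemma exists_int' {x : K} (h : IsIntegral ℤ x) : ∃ c : 𝓞 K, x = (c : K) := ⟨⟨x, h⟩, rfl⟩

/-- an integral model, with good reduction outside a number -/
lemma exists_model' {F : Fin (1 + 1) → MvPolynomial (Fin (1 + 1)) K} {d : ℕ}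
    (hF : ∀ i, (F i).IsHomogeneous d)
    (hmor : ∀ z : Fin (1 + 1) → AlgebraicClosure K,
      (∀ i, MvPolynomial.aeval z (F i) = 0) → z = 0) :
    ∃ (b : 𝓞 K) (B₀ : ℕ) (H : Fin (1 + 1) → MvPolynomial (Fin (1 + 1)) K), b ≠ 0 ∧ 0 < B₀ ∧
      (H = fun i => MvPolynomial.C (b : K) * F i) ∧ (∀ i, (H i).IsHomogeneous d) ∧
      (∀ i s, IsIntegral ℤ ((H i).coeff s)) ∧
      (∀ z : Fin (1 + 1) → AlgebraicClosure K, (∀ i, MvPolynomial.aeval z (H i) = 0) → z = 0) ∧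
      ∀ P : Ideal (𝓞 K), (B₀ : 𝓞 K) ∉ P → GoodK P H d := by
  classical
  set T : Finset K := Finset.univ.biUnion fun i => (F i).support.image (F i).coeff with hT
  obtain ⟨a, ha, haT⟩ := exists_denom T
  have haK : (a : K) ≠ 0 := by
    have : a ≠ 0 := by omega
    exact_mod_cast this
  obtain ⟨H, hH⟩ : ∃ H : Fin (1 + 1) → MvPolynomial (Fin (1 + 1)) K,
      H = fun i => MvPolynomial.C ((a : 𝓞 K) : K) * F i := ⟨_, rfl⟩
  have hcast : ((a : 𝓞 K) : K) = (a : K) := by push_cast; rfl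
  have hhom : ∀ i, (H i).IsHomogeneous d := by
    intro i
    rw [hH]
    have h7 := (MvPolynomial.isHomogeneous_C (Fin (1 + 1)) (((a : 𝓞 K) : K))).mul (hF i)
    rwa [zero_add] at h7
  have hint : ∀ i s, IsIntegral ℤ ((H i).coeff s) := by
    intro i s
    rw [hH]
    simp only [MvPolynomial.coeff_C_mul]
    rw [hcast]
    by_cases hs : s ∈ (F i).support
    · apply haT
      rw [hT]
      simp only [Finset.mem_biUnion, Finset.mem_image]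
      exact ⟨i, Finset.mem_univ _, s, hs, rfl⟩
    · rw [MvPolynomial.notMem_support_iff.mp hs, mul_zero]
      exact isIntegral_zero
  have hmor' : ∀ z : Fin (1 + 1) → AlgebraicClosure K,
      (∀ i, MvPolynomial.aeval z (H i) = 0) → z = 0 := by
    intro z hz
    apply hmor
    intro i
    have h1 := hz i
    rw [hH] at h1
    simp only [map_mul, MvPolynomial.aeval_C] at h1
    refine (mul_eq_zero.mp h1).resolve_left ?_
    rw [hcast, map_natCast]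
    have : a ≠ 0 := by omega
    exact_mod_cast this
  obtain ⟨e, he⟩ := exists_mem_span hmor'
  have hU : ∀ j : Fin (1 + 1), ∃ U : Fin (1 + 1) → MvPolynomial (Fin (1 + 1)) K,
      ∑ i, U i * H i = MvPolynomial.X j ^ e := by
    intro j
    have h1 := he e le_rfl (MvPolynomial.X j ^ e) (by
      have h2 := (MvPolynomial.isHomogeneous_X K j).pow e
      rwa [one_mul] at h2)
    exact (Ideal.mem_span_range_iff_exists_fun).mp h1
  choose U hU using hU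
  set T' : Finset K := Finset.univ.biUnion fun ji : Fin (1 + 1) × Fin (1 + 1) =>
    (U ji.1 ji.2).support.image (U ji.1 ji.2).coeff with hT'
  obtain ⟨a', ha', haT'⟩ := exists_denom T'
  have hcast' : ((a' : 𝓞 K) : K) = (a' : K) := by push_cast; rfl
  refine ⟨(a : 𝓞 K), a', H, ?_, by omega, hH, hhom, hint, hmor', ?_⟩
  · have : a ≠ 0 := by omega
    exact_mod_cast this
  · intro P hP
    refine ⟨hhom, fun i s => exists_int' (hint i s), e, (a' : 𝓞 K),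
      fun j i => MvPolynomial.C ((a' : 𝓞 K) : K) * U j i, hP, ?_, ?_⟩
    · intro j i s
      apply exists_int'
      rw [MvPolynomial.coeff_C_mul, hcast']
      by_cases hs : s ∈ (U j i).support
      · apply haT'
        rw [hT']
        simp only [Finset.mem_biUnion, Finset.mem_image]
        exact ⟨(j, i), Finset.mem_univ _, s, hs, rfl⟩
      · rw [MvPolynomial.notMem_support_iff.mp hs, mul_zero]
        exact isIntegral_zero
    · intro j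
      rw [← hU j, Finset.mul_sum]
      refine Finset.sum_congr rfl fun i _ => ?_
      ring

/-- logarithms are smaller than powers -/
lemma exists_D0 (C₁ m : ℕ) : ∃ D₀ : ℕ, ∀ D : ℕ, D₀ ≤ D →
    ((C₁ : ℝ) * (1 + Real.log D)) ^ m ≤ D := by
  rcases Nat.eq_zero_or_pos m with rfl | hm
  · refine ⟨1, fun D hD => ?_⟩
    rw [pow_zero]
    exact_mod_cast hD
  refine ⟨(C₁ * (1 + 2 * m)) ^ (2 * m) + 1, fun D hD => ?_⟩
  have hm0 : (0 : ℝ) < m := by exact_mod_cast hm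
  have hD1 : (1 : ℝ) ≤ D := by
    have : 1 ≤ D := by omega
    exact_mod_cast this
  have hε : (0 : ℝ) < 1 / (2 * m) := by positivity
  obtain ⟨y, hy⟩ : ∃ y, y = (D : ℝ) ^ ((1 : ℝ) / (2 * m)) := ⟨_, rfl⟩
  have hy1 : 1 ≤ y := hy ▸ Real.one_le_rpow hD1 hε.le
  have h1 : Real.log D ≤ 2 * m * y := by
    have h2 := Real.log_le_rpow_div (show (0 : ℝ) ≤ D by linarith) hε
    rw [← hy] at h2
    calc _ ≤ y / (1 / (2 * m)) := h2
      _ = _ := by field_simp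
  have h2 : y ^ (2 * m) = D := by
    rw [hy, ← Real.rpow_natCast, ← Real.rpow_mul (by linarith)]
    push_cast
    rw [one_div_mul_cancel (by positivity), Real.rpow_one]
  have h3 : 0 ≤ Real.log D := Real.log_nonneg hD1
  have h4 : (C₁ : ℝ) * (1 + Real.log D) ≤ (C₁ * (1 + 2 * m)) * y := by
    have h5 : 1 + Real.log D ≤ (1 + 2 * m) * y := by nlinarith
    have h6 := mul_le_mul_of_nonneg_left h5 (Nat.cast_nonneg (α := ℝ) C₁)
    linarith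
  have h5 : (0 : ℝ) ≤ (C₁ : ℝ) * (1 + Real.log D) := by positivity
  have h6 := pow_le_pow_left₀ h5 h4 (2 * m)
  rw [mul_pow _ y, h2] at h6
  have h7 : ((C₁ : ℝ) * (1 + 2 * m)) ^ (2 * m) ≤ D := by
    have : (C₁ * (1 + 2 * m)) ^ (2 * m) ≤ D := by omega
    exact_mod_cast this
  have h8 : (((C₁ : ℝ) * (1 + Real.log D)) ^ m) ^ 2 ≤ (D : ℝ) ^ 2 := by
    rw [← pow_mul, mul_comm m 2]
    refine h6.trans ?_
    rw [sq]
    exact mul_le_mul_of_nonneg_right h7 (by linarith)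
  exact (pow_le_pow_iff_left₀ (by positivity) (by linarith) (by norm_num)).mp h8

/-- **the theorem** -/
theorem abelian_lehmer {d : ℕ} (hd : 2 ≤ d) (F : Fin (1 + 1) → MvPolynomial (Fin (1 + 1)) K)
    (hF : ∀ i, (F i).IsHomogeneous d)
    (hmor : ∀ z : Fin (1 + 1) → AlgebraicClosure K,
      (∀ i, MvPolynomial.aeval z (F i) = 0) → z = 0) :
    ∃ C : ℕ, 0 < C ∧ ∀ (L : Type) [Field L] [NumberField L] [Algebra K L] [IsGalois K L],
      (∀ g h : Gal(L/K), g * h = h * g) → ∀ x : Fin (1 + 1) → L, x ≠ 0 → Wnd F x → Gen K x →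
      ∃ h : ℝ, Tendsto (fun n : ℕ => Height.logHeight ((act F)^[n] x) /
          ((finrank ℚ L : ℝ) * (d : ℝ) ^ n)) atTop (𝓝 h) ∧
        1 / ((C : ℝ) * (1 + Real.log (finrank K L)) ^ C) ≤ h := by
  obtain ⟨b, B₀, H, hb, hB₀, hH, hhom, hint, hmor', hgood⟩ := exists_model' hF hmor
  obtain ⟨A, a, hBd, C₂, hC₂, hconcl⟩ := final_int (ε := 1) (by omega) hhom hint hmor' one_pos
  obtain ⟨c, hc⟩ := exists_mem_span hmor'
  obtain ⟨E, hE⟩ : ∃ E, E = hC A a * ((c + d : ℕ) : ℝ) := ⟨_, rfl⟩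
  obtain ⟨κ₀, hκ₀⟩ : ∃ κ₀, κ₀ = finrank ℚ K := ⟨_, rfl⟩
  have hκ1 : 1 ≤ κ₀ := hκ₀ ▸ finrank_pos
  obtain ⟨C₃, hC₃⟩ : ∃ C₃, C₃ = ⌈4 * (κ₀ : ℝ) * (14 + 24 * E)⌉₊ + 1 := ⟨_, rfl⟩
  obtain ⟨C₆, hC₆⟩ : ∃ C₆, C₆ = 4 * d * (32 * C₃ + 1) := ⟨_, rfl⟩
  obtain ⟨N₀, hN₀⟩ : ∃ N₀, N₀ = 16 + 128 * κ₀ + ⌈5 * E + 2⌉₊ + 32 * C₃ ^ 2 + B₀ := ⟨_, rfl⟩
  obtain ⟨C₁, hC₁⟩ : ∃ C₁, C₁ = 4 * N₀ + 49 := ⟨_, rfl⟩
  obtain ⟨D₀, hD₀⟩ := exists_D0 C₁ (4 * κ₀ * (3 * C₆ + 30))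
  obtain ⟨m₂, hm₂⟩ : ∃ m₂, m₂ = 4 * κ₀ * (C₆ + 10) := ⟨_, rfl⟩
  obtain ⟨C₇, hC₇⟩ : ∃ C₇, C₇ = ⌈Real.exp (C₂ * (D₀ : ℝ) ^ (((1 : ℕ) : ℝ) + 1))⌉₊ := ⟨_, rfl⟩
  refine ⟨C₁ ^ m₂ + m₂ + C₇ + 1, by omega, ?_⟩
  intro L _ _ _ _ hab x hx hw hgen
  rw [hH] at hBd
  obtain ⟨hw', hlim⟩ := transfer_scale hb hF hd hBd hx
  refine ⟨_, hlim, ?_⟩
  rw [← hH] at hBd ⊢
  replace hw' := hw' hw
  rw [← hH] at hw'
  obtain ⟨D, hD⟩ : ∃ D, D = finrank K L := ⟨_, rfl⟩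
  have hD1 : 1 ≤ D := hD ▸ finrank_pos
  have hlow := (hconcl L).2 x hx hw'
  have hpos : 0 < canH H d x := lt_of_lt_of_le (Real.exp_pos _) hlow
  rw [← hD] at hlow ⊢
  obtain ⟨ℓ, hℓ⟩ : ∃ ℓ, ℓ = 1 + Real.log D := ⟨_, rfl⟩
  have hℓ1 : 1 ≤ ℓ := by
    have := Real.log_natCast_nonneg D
    linarith
  obtain ⟨p, hp, hNp, hpD, hpC⟩ := exists_prime N₀ D hD1
  rw [← hC₁, ← hℓ] at hpC
  rw [← hℓ]
  -- a prime over `p`
  have hspan : Ideal.span {(p : 𝓞 K)} ≠ ⊤ := by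
    intro h
    have h1 : (Ideal.span {(p : 𝓞 K)}).absNorm = 1 := by rw [h, Ideal.absNorm_top]
    have h3 : (Ideal.span {(p : 𝓞 K)}).absNorm = p ^ finrank ℚ K := by
      rw [Ideal.absNorm_span_singleton]
      have h4 : (p : 𝓞 K) = algebraMap ℤ (𝓞 K) p := by simp
      rw [h4, Algebra.norm_algebraMap, RingOfIntegers.rank]
      simp
    rw [h3, ← hκ₀] at h1
    have := Nat.one_lt_pow (n := κ₀) (by omega) hp.one_lt
    omega
  obtain ⟨P, hPm, hPle⟩ := Ideal.exists_le_maximal _ hspan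
  have hpP : (p : 𝓞 K) ∈ P := hPle (Ideal.mem_span_singleton_self _)
  have hP0 : P ≠ ⊥ := by
    rintro rfl
    have h1 : (p : 𝓞 K) = 0 := hpP
    have h2 : p ≠ 0 := hp.ne_zero
    exact h2 (by exact_mod_cast h1)
  let u : IsDedekindDomain.HeightOneSpectrum (𝓞 K) := ⟨P, hPm.isPrime, hP0⟩
  obtain ⟨v₀, hv₀⟩ : ∃ v₀ : FinitePlace K, v₀ = FinitePlace.mk u := ⟨_, rfl⟩
  have hmi : mi v₀ = P := by
    unfold mi
    rw [hv₀, FinitePlace.maximalIdeal_mk]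
  rw [← hmi] at hpP
  obtain ⟨N, hN⟩ : ∃ N, N = (mi v₀).absNorm := ⟨_, rfl⟩
  have hpN : p ≤ N := hN ▸ prime_le_absNorm (H420R3.mi_ne_bot v₀) hp hpP
  have hNp' : N ≤ p ^ κ₀ := by
    rw [hN, hκ₀]
    exact absNorm_le_pow hp hpP
  have hN₀N : N₀ ≤ N := by omega
  have hNℓ : (N : ℝ) ≤ ((C₁ : ℝ) * ℓ) ^ (4 * κ₀) := by
    calc (N : ℝ) ≤ ((p ^ κ₀ : ℕ) : ℝ) := by exact_mod_cast hNp'
      _ = (p : ℝ) ^ κ₀ := by push_cast; ring
      _ ≤ (((C₁ : ℝ) * ℓ) ^ 4) ^ κ₀ := pow_le_pow_left₀ (Nat.cast_nonneg _) hpC _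
      _ = _ := by rw [← pow_mul]
  have hC0 : (0 : ℝ) < ((C₁ ^ m₂ + m₂ + C₇ + 1 : ℕ) : ℝ) := by
    have : 0 < C₁ ^ m₂ + m₂ + C₇ + 1 := by omega
    exact_mod_cast this
  have hℓC : 1 ≤ ℓ ^ (C₁ ^ m₂ + m₂ + C₇ + 1) := one_le_pow₀ hℓ1
  rw [div_le_iff₀ (by positivity)]
  by_cases hbig : N ^ (3 * C₆ + 30) ≤ D
  · have hlarge := at_prime (v₀ := v₀) (C₃ := C₃) (c := c) hBd hd hhom
      (fun m hm q hq => hc m (by omega) q hq) hab
      (hgood _ (fun hmem => by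
        have h1 := natCast_mem (P := mi v₀) hp hpP hmem
        have := Nat.le_of_dvd hB₀ h1
        omega)) hp hpP (hD ▸ hpD) hN (by omega) (by rw [← hκ₀]; omega)
      (by
        rw [← hE]
        have h1 := Nat.le_ceil (5 * E + 2)
        have h2 : ((⌈5 * E + 2⌉₊ : ℕ) : ℝ) ≤ N := by
          have : ⌈5 * E + 2⌉₊ ≤ N := by omega
          exact_mod_cast this
        linarith)
      (by
        rw [← hE, ← hκ₀, hC₃]
        push_cast
        have h1 := Nat.le_ceil (4 * (κ₀ : ℝ) * (14 + 24 * E))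
        linarith)
      (by omega) hx hw' hgen hpos hC₆ (hD ▸ hbig)
    have h1 : (N : ℝ) ^ (C₆ + 10) ≤ (C₁ : ℝ) ^ m₂ * ℓ ^ m₂ := by
      calc (N : ℝ) ^ (C₆ + 10) ≤ (((C₁ : ℝ) * ℓ) ^ (4 * κ₀)) ^ (C₆ + 10) :=
            pow_le_pow_left₀ (Nat.cast_nonneg _) hNℓ _
        _ = _ := by rw [← pow_mul, ← hm₂, mul_pow]
    have h2 : (C₁ : ℝ) ^ m₂ * ℓ ^ m₂ ≤
        ((C₁ ^ m₂ + m₂ + C₇ + 1 : ℕ) : ℝ) * ℓ ^ (C₁ ^ m₂ + m₂ + C₇ + 1) := by
      apply mul_le_mul _ (pow_le_pow_right₀ hℓ1 (by omega)) (by positivity) hC0.le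
      have : C₁ ^ m₂ ≤ C₁ ^ m₂ + m₂ + C₇ + 1 := by omega
      exact_mod_cast this
    have h3 := mul_le_mul_of_nonneg_right (h1.trans h2) hpos.le
    rw [mul_comm (canH H d x)]
    linarith
  · push Not at hbig
    have hDD₀ : D ≤ D₀ := by
      by_contra h
      push Not at h
      have h1 := hD₀ D h.le
      rw [← hℓ] at h1
      have h2 : (N : ℝ) ^ (3 * C₆ + 30) ≤ ((C₁ : ℝ) * ℓ) ^ (4 * κ₀ * (3 * C₆ + 30)) := by
        rw [pow_mul]
        exact pow_le_pow_left₀ (Nat.cast_nonneg _) hNℓ _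
      have h3 : (D : ℝ) < (N : ℝ) ^ (3 * C₆ + 30) := by exact_mod_cast hbig
      linarith
    have h1 : (D : ℝ) ^ (((1 : ℕ) : ℝ) + 1) ≤ (D₀ : ℝ) ^ (((1 : ℕ) : ℝ) + 1) :=
      Real.rpow_le_rpow (Nat.cast_nonneg _) (by exact_mod_cast hDD₀) (by positivity)
    have h2 : Real.exp (-(C₂ * (D₀ : ℝ) ^ (((1 : ℕ) : ℝ) + 1))) ≤ canH H d x := by
      refine le_trans ?_ hlow
      rw [Real.exp_le_exp, neg_le_neg_iff]
      exact mul_le_mul_of_nonneg_left h1 hC₂.le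
    rw [Real.exp_neg] at h2
    have h3 : Real.exp (C₂ * (D₀ : ℝ) ^ (((1 : ℕ) : ℝ) + 1)) ≤
        ((C₁ ^ m₂ + m₂ + C₇ + 1 : ℕ) : ℝ) := by
      refine (Nat.le_ceil _).trans ?_
      rw [← hC₇]
      have : C₇ ≤ C₁ ^ m₂ + m₂ + C₇ + 1 := by omega
      exact_mod_cast this
    have h4 : 1 ≤ canH H d x * Real.exp (C₂ * (D₀ : ℝ) ^ (((1 : ℕ) : ℝ) + 1)) := by
      rwa [← inv_le_iff_one_le_mul₀ (Real.exp_pos _)]
    have h5 : canH H d x * Real.exp (C₂ * (D₀ : ℝ) ^ (((1 : ℕ) : ℝ) + 1)) ≤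
        canH H d x * (((C₁ ^ m₂ + m₂ + C₇ + 1 : ℕ) : ℝ) * ℓ ^ (C₁ ^ m₂ + m₂ + C₇ + 1)) := by
      apply mul_le_mul_of_nonneg_left _ hpos.le
      refine h3.trans ?_
      exact le_mul_of_one_le_right hC0.le hℓC
    linarith

end

end Pool.Agent.NH29.AB
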