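import Mathlib
import Pool.Agent.NH29.AB.Ocj

/-!
Galois extensions in which the `m`-th powers are central: reduction to the case that the conjugates
of a point generate the extension.
-/

set_option autoImplicit false
set_option linter.unusedSectionVars false

namespace Pool.Agent.NH29.AB

open NumberField Module Polynomial
open Pool.Agent.W238.Leh
open Pool.Agent.H627.LP hiding det_ineq det_ineq' local_gain
open Pool.Agent.R829.BG hiding two_gain two_ineq classes_rel step_zero step_last core step_of
  exists_orb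
open Pool.Agent.R829.DL (canH_hom)

noncomputable section

variable {K : Type} [Field K] [NumberField K] {L : Type} [Field L] [NumberField L] [Algebra K L]

section Group

variable [DecidableEq L] [Fintype Gal(L/K)]

/-- the action on the conjugates -/
def cjPerm (z : L) : Gal(L/K) →* Equiv.Perm {y // y ∈ cj K z} where
  toFun g :=
    { toFun := fun y => ⟨g y.1, cj_stable z g y.2⟩
      invFun := fun y => ⟨g⁻¹ y.1, cj_stable z g⁻¹ y.2⟩
      left_inv := fun y => by
        apply Subtype.ext
        change g⁻¹ (g y.1) = y.1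
        rw [← AlgEquiv.mul_apply, inv_mul_cancel]
        rfl
      right_inv := fun y => by
        apply Subtype.ext
        change g (g⁻¹ y.1) = y.1
        rw [← AlgEquiv.mul_apply, mul_inv_cancel]
        rfl }
  map_one' := by
    ext y
    rfl
  map_mul' g h := by
    ext y
    rfl

lemma cjPerm_apply (z : L) (g : Gal(L/K)) (y : {y // y ∈ cj K z}) :
    (cjPerm z g y : L) = g y.1 := rfl

/-- the primes which divide the degree -/
lemma not_dvd [IsGalois K L] {m p : ℕ}
    (hcen : ∀ σ g : Gal(L/K), σ ^ m * g = g * σ ^ m) {z : L}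
    (hfaith : ∀ σ : Gal(L/K), (∀ y ∈ cj K z, σ y = y) → σ = 1) (hp : p.Prime) (hpm : ¬ p ∣ m)
    (hpz : ¬ p ∣ (cj K z).card) : ¬ p ∣ finrank K L := by
  intro hdvd
  have hfact : Fact p.Prime := ⟨hp⟩
  rw [← IsGalois.card_aut_eq_finrank K L] at hdvd
  obtain ⟨σ, hσ⟩ := exists_prime_orderOf_dvd_card' p hdvd
  have hcop : Nat.Coprime (orderOf σ) m := by
    rw [hσ]
    exact (Nat.Prime.coprime_iff_not_dvd hp).mpr hpm
  have hτ : orderOf (σ ^ m) = p := by rw [hcop.orderOf_pow, hσ]
  obtain ⟨y, hy⟩ := Equiv.Perm.exists_fixed_point_of_prime (p := p) (n := 1)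
    (α := {y // y ∈ cj K z}) (σ := cjPerm z (σ ^ m)) (by rwa [Fintype.card_coe]) (by
      rw [pow_one, ← map_pow, ← hτ, pow_orderOf_eq_one, map_one])
  have hy' : (σ ^ m) y.1 = y.1 := congrArg Subtype.val hy
  obtain ⟨g, hg⟩ := mem_cj.mp y.2
  have h1 : σ ^ m = 1 := by
    apply hfaith
    intro u hu
    obtain ⟨h, rfl⟩ := mem_cj.mp hu
    have h2 : h z = (h * g⁻¹) y.1 := by
      rw [← hg, ← AlgEquiv.mul_apply, inv_mul_cancel_right]
    rw [h2, ← AlgEquiv.mul_apply, hcen, AlgEquiv.mul_apply, hy']
  rw [h1, orderOf_one] at hτ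
  exact hp.one_lt.ne hτ

/-- the number of conjugates is the degree -/
lemma card_cj_eq [IsGalois K L] (z : L) :
    (cj K z).card = finrank K (IntermediateField.adjoin K {z}) := by
  have hint : IsIntegral K z := Algebra.IsIntegral.isIntegral z
  rw [IntermediateField.adjoin.finrank hint]
  have h1 : ((minpoly K z).rootSet L) = ((cj K z : Finset L) : Set L) := by
    ext y
    rw [mem_rootSet, Finset.mem_coe, mem_cj]
    constructor
    · rintro ⟨_, h⟩
      obtain ⟨σ, hσ⟩ := minpoly.exists_algEquiv_of_root' (K := K) (L := L) hint.isAlgebraic h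
      exact ⟨σ, hσ⟩
    · rintro ⟨g, rfl⟩
      refine ⟨minpoly.ne_zero hint, ?_⟩
      have h2 : aeval (g z) (minpoly K z) = g (aeval z (minpoly K z)) :=
        aeval_algHom_apply (g : L →ₐ[K] L) z _
      rw [h2, minpoly.aeval, map_zero]
  have h2 := card_rootSet_eq_natDegree (K := L) (IsGalois.separable K z) (IsGalois.splits K z)
  rw [← h2, ← Nat.card_eq_fintype_card, h1, Nat.card_coe_set_eq, Set.ncard_coe_finset]

end Group

end

end Pool.Agent.NH29.AB
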