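import Mathlib
import Pool.Agent.NH29.AB.Grp

/-!
Passage to subextensions.
-/

set_option autoImplicit false
set_option linter.unusedSectionVars false

namespace Pool.Agent.NH29.AB

open NumberField Module Polynomial
open Pool.Agent.W238.Leh
open Pool.Agent.H627.LP hiding det_ineq det_ineq' local_gain
open Pool.Agent.R829.BG hiding two_gain two_ineq classes_rel step_zero step_last core step_of
  exists_orb
open Pool.Agent.R829.DL (canH_hom)

noncomputable section

variable {K : Type} [Field K] [NumberField K] {L : Type} [Field L] [NumberField L] [Algebra K L]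
variable {F : Fin (1 + 1) → MvPolynomial (Fin (1 + 1)) K} {d : ℕ}

/-- coordinates in a subfield -/
lemma descend (E : IntermediateField K L) {x : Fin (1 + 1) → L} (hx : x ≠ 0)
    (hz : x 0 / x 1 ∈ E) : ∃ (x' : Fin (1 + 1) → E) (b : L), b ≠ 0 ∧ x' ≠ 0 ∧
      (fun t => (x' t : L)) = b • x ∧ x' 0 / x' 1 = ⟨x 0 / x 1, hz⟩ := by
  by_cases h1 : x 1 = 0
  · have h0 : x 0 ≠ 0 := by
      intro h0
      apply hx
      funext t
      fin_cases t
      · exact h0
      · exact h1
    refine ⟨![1, 0], (x 0)⁻¹, inv_ne_zero h0, ?_, ?_, ?_⟩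
    · intro h
      have := congrFun h 0
      exact one_ne_zero this
    · funext t
      fin_cases t
      · change ((1 : E) : L) = (x 0)⁻¹ * x 0
        rw [inv_mul_cancel₀ h0]
        rfl
      · change ((0 : E) : L) = (x 0)⁻¹ * x 1
        rw [h1, mul_zero]
        rfl
    · apply Subtype.ext
      change ((((1 : E) / (0 : E)) : E) : L) = x 0 / x 1
      rw [h1, div_zero, div_zero]
      rfl
  · refine ⟨![⟨x 0 / x 1, hz⟩, 1], (x 1)⁻¹, inv_ne_zero h1, ?_, ?_, ?_⟩
    · intro h
      have := congrFun h 1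
      exact one_ne_zero this
    · funext t
      fin_cases t
      · change x 0 / x 1 = (x 1)⁻¹ * x 0
        rw [div_eq_inv_mul]
      · change ((1 : E) : L) = (x 1)⁻¹ * x 1
        rw [inv_mul_cancel₀ h1]
        rfl
    · change (⟨x 0 / x 1, hz⟩ : E) / 1 = _
      rw [div_one]

lemma act_hom {M : Type} [Field M] [Algebra K M] (φ : M →ₐ[K] L) (x : Fin (1 + 1) → M) (n : ℕ) :
    (act F)^[n] (fun t => φ (x t)) = fun t => φ (((act F)^[n] x) t) := by
  induction n with
  | zero => rfl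
  | succ n ih =>
    rw [Function.iterate_succ_apply', Function.iterate_succ_apply', ih]
    funext t
    exact (MvPolynomial.comp_aeval_apply _ φ (F t)).symm

lemma wnd_descend (hF : ∀ i, (F i).IsHomogeneous d) {M : Type} [Field M] [Algebra K M]
    (φ : M →ₐ[K] L) {x : Fin (1 + 1) → L} {x' : Fin (1 + 1) → M} {b : L} (hb : b ≠ 0)
    (h : (fun t => φ (x' t)) = b • x) (hw : Wnd F x) : Wnd F x' := by
  rintro ⟨m, n, hmn, c, hc, hcm⟩
  obtain ⟨c₁, hc₁, h₁⟩ := iter_smul hF hb x n
  obtain ⟨c₂, hc₂, h₂⟩ := iter_smul hF hb x m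
  rw [← h, act_hom] at h₁ h₂
  refine hw ⟨m, n, hmn, c₁⁻¹ * (φ c * c₂),
    mul_ne_zero (inv_ne_zero hc₁) (mul_ne_zero ((map_ne_zero φ).mpr hc) hc₂), ?_⟩
  rw [← smul_smul, ← smul_smul, ← h₂]
  have h3 : (fun t => φ (((act F)^[n] x') t)) = φ c • fun t => φ (((act F)^[m] x') t) := by
    funext t
    rw [hcm]
    simp
  rw [← h3, h₁, smul_smul, inv_mul_cancel₀ hc₁, one_smul]

lemma canH_descend (hF : ∀ i, (F i).IsHomogeneous d) {M : Type} [Field M] [NumberField M]
    [Algebra K M] (φ : M →ₐ[K] L) {x : Fin (1 + 1) → L} {x' : Fin (1 + 1) → M} {b : L}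
    (hb : b ≠ 0) (h : (fun t => φ (x' t)) = b • x) : canH F d x' = canH F d x := by
  rw [← canH_hom φ F d x', h, canH_smul hF hb]

section Closure

variable [DecidableEq L] [IsGalois K L]

/-- the automorphisms which fix all conjugates -/
def fixN (K : Type) [Field K] [NumberField K] {L : Type} [Field L] [NumberField L] [Algebra K L]
    [DecidableEq L] [IsGalois K L] (z : L) : Subgroup Gal(L/K) where
  carrier := {σ | ∀ y ∈ cj K z, σ y = y}
  one_mem' := fun y _ => rfl
  mul_mem' := by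
    intro σ τ hσ hτ y hy
    change σ (τ y) = y
    rw [hτ y hy, hσ y hy]
  inv_mem' := by
    intro σ hσ y hy
    have h1 : σ⁻¹ (σ y) = y := by
      rw [← AlgEquiv.mul_apply, inv_mul_cancel]
      rfl
    rwa [hσ y hy] at h1

lemma mem_fixN {z : L} {σ : Gal(L/K)} : σ ∈ fixN K z ↔ ∀ y ∈ cj K z, σ y = y := Iff.rfl

instance fixN_normal (z : L) : (fixN K z).Normal := by
  refine ⟨fun σ hσ g y hy => ?_⟩
  have h1 := hσ (g⁻¹ y) (cj_stable z g⁻¹ hy)
  change g (σ (g⁻¹ y)) = y
  rw [h1, ← AlgEquiv.mul_apply, mul_inv_cancel]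
  rfl

lemma mem_fixed (z : L) {y : L} (hy : y ∈ cj K z) :
    y ∈ IntermediateField.fixedField (fixN K z) := by
  rw [IntermediateField.mem_fixedField_iff]
  exact fun σ hσ => hσ y hy

variable (E : IntermediateField K L) [IsGalois K E]

lemma restr_coe (g : Gal(L/K)) (y : E) :
    ((AlgEquiv.restrictNormalHom E g y : E) : L) = g (y : L) :=
  AlgEquiv.restrictNormal_commutes g E y

lemma cen_restr {m : ℕ} (hcen : ∀ σ g : Gal(L/K), σ ^ m * g = g * σ ^ m) (σ g : Gal(E/K)) :
    σ ^ m * g = g * σ ^ m := by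
  obtain ⟨σ', rfl⟩ := AlgEquiv.restrictNormalHom_surjective (F := K) (K₁ := E) L σ
  obtain ⟨g', rfl⟩ := AlgEquiv.restrictNormalHom_surjective (F := K) (K₁ := E) L g
  rw [← map_pow, ← map_mul, ← map_mul, hcen]

lemma cj_restr {z : L} (hz : z ∈ E) [DecidableEq E] :
    (cj K z) = (cj K (⟨z, hz⟩ : E)).image (fun y : E => (y : L)) := by
  ext y
  rw [mem_cj, Finset.mem_image]
  constructor
  · rintro ⟨g, rfl⟩
    refine ⟨AlgEquiv.restrictNormalHom E g ⟨z, hz⟩, mem_cj.mpr ⟨_, rfl⟩, ?_⟩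
    exact restr_coe E g ⟨z, hz⟩
  · rintro ⟨y, hy, rfl⟩
    obtain ⟨g, rfl⟩ := mem_cj.mp hy
    obtain ⟨g', rfl⟩ := AlgEquiv.restrictNormalHom_surjective (F := K) (K₁ := E) L g
    exact ⟨g', (restr_coe E g' ⟨z, hz⟩).symm⟩

lemma card_cj_restr {z : L} (hz : z ∈ E) [DecidableEq E] :
    (cj K (⟨z, hz⟩ : E)).card = (cj K z).card := by
  rw [cj_restr E hz, Finset.card_image_of_injective _ Subtype.val_injective]

lemma faith_restr (z : L) [DecidableEq (IntermediateField.fixedField (fixN K z))]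
    (σ : Gal(IntermediateField.fixedField (fixN K z)/K))
    (h : ∀ y ∈ cj K (⟨z, mem_fixed z (self_mem_cj z)⟩ :
      IntermediateField.fixedField (fixN K z)), σ y = y) : σ = 1 := by
  obtain ⟨σ', rfl⟩ := AlgEquiv.restrictNormalHom_surjective (F := K)
    (K₁ := IntermediateField.fixedField (fixN K z)) L σ
  have h1 : σ' ∈ fixN K z := by
    intro y hy
    rw [cj_restr _ (mem_fixed z (self_mem_cj z)), Finset.mem_image] at hy
    obtain ⟨y', hy', rfl⟩ := hy
    have h2 := congrArg (fun u : IntermediateField.fixedField (fixN K z) => (u : L)) (h y' hy')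
    rw [← restr_coe]
    exact h2
  ext u
  rw [restr_coe]
  have h3 := (IntermediateField.mem_fixedField_iff _ _).mp u.2 σ' h1
  exact h3

end Closure

end

end Pool.Agent.NH29.AB
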